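import Pool.Agent.Work.MP_8f87b2_mid.Plan
import Pool.Agent.Work.MP_8f87b2_h71.H1Gad

/-!
# Plans with the rank of the text

Two kinds of groups: PLAIN groups `Gp` (plain triples: every old word is higher) and WINDOW groups `Gw`, with a main
T-cycle `mn F`; order of the windows: height down, number of `1`-parts down, sum of squares down (`H1.Lower`), `ph` up.
-/

set_option autoImplicit false

namespace Pool.OddHC

open Finset Equiv Pool.Agent.Work.MP_8f87b2_co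

variable {k : ℕ}

theorem sqs_le {M : Multiset ℕ} {k : ℕ} (h : M.sum ≤ k) : H1.sqs M ≤ k * k := by
  have key : ∀ M : Multiset ℕ, H1.sqs M ≤ M.sum * M.sum := by
    intro M
    induction M using Multiset.induction_on with
    | empty => exact Nat.zero_le _
    | cons a M ih =>
      have h1 : H1.sqs (a ::ₘ M) = a ^ 2 + H1.sqs M := by
        unfold H1.sqs
        rw [Multiset.map_cons, Multiset.sum_cons]
      rw [h1, Multiset.sum_cons]
      nlinarith [Nat.zero_le (a * M.sum)]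
  exact (key M).trans (Nat.mul_le_mul h h)

theorem contc_count_le (p : Cyc k) : (contc p).count 1 ≤ k := by
  have h1 : (contc p).count 1 * 1 ≤ (contc p).sum := by
    have h2 : Multiset.replicate ((contc p).count 1) 1 ≤ contc p := Multiset.le_count_iff_replicate_le.1 le_rfl
    obtain ⟨r, hr⟩ := Multiset.le_iff_exists_add.1 h2
    have h3 := congrArg Multiset.sum hr
    rw [Multiset.sum_add, Multiset.sum_replicate, smul_eq_mul] at h3
    omega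
  rw [contc_sum, mul_one] at h1
  exact h1

theorem htc_le (p : Cyc k) : htc p ≤ k := by
  have h : ∀ x ∈ contc p, x ≤ k := by
    intro x hx
    rw [← contc_sum p]
    exact Multiset.single_le_sum (fun _ _ => Nat.zero_le _) x hx
  exact Multiset.sup_le.2 h

/-- rank of a window -/
noncomputable def rkw (Pm : ℕ) (ph : Cyc k → ℕ) (c : Cyc k) : ℕ :=
  1 + (((k - (contc c).count 1) * (k * k + 1) + (k * k - H1.sqs (contc c))) * Pm + ph c)

/-- size of one height -/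
def rkK (k Pm : ℕ) : ℕ := 1 + (k * (k * k + 1) + k * k + 1) * Pm

theorem rkw_lt {Pm : ℕ} {ph : Cyc k → ℕ} (hph : ∀ c, ph c < Pm) (c : Cyc k) : rkw Pm ph c < rkK k Pm := by
  unfold rkw rkK
  have h1 := hph c
  have h2 : (k - (contc c).count 1) * (k * k + 1) ≤ k * (k * k + 1) := Nat.mul_le_mul_right _ (by omega)
  have h3 : ((k - (contc c).count 1) * (k * k + 1) + (k * k - H1.sqs (contc c)) + 1) * Pm ≤
      (k * (k * k + 1) + k * k + 1) * Pm := Nat.mul_le_mul_right _ (by omega)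
  rw [add_mul _ 1, one_mul] at h3
  omega

theorem rkw_lower {Pm : ℕ} {ph : Cyc k → ℕ} (hph : ∀ c, ph c < Pm) {c d : Cyc k}
    (h : H1.Lower (contc d) (contc c)) (hh : htc d = htc c) : rkw Pm ph d < rkw Pm ph c := by
  have h1 := hph d
  have c1 := contc_count_le c
  have d1 := contc_count_le d
  have c2 := sqs_le (contc_sum c).le
  have d2 := sqs_le (contc_sum d).le
  have key : (k - (contc d).count 1) * (k * k + 1) + (k * k - H1.sqs (contc d)) + 1 ≤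
      (k - (contc c).count 1) * (k * k + 1) + (k * k - H1.sqs (contc c)) := by
    rcases h with h | ⟨_, h | ⟨h, h'⟩⟩
    · change (contc c).sup < (contc d).sup at h
      change (contc d).sup = (contc c).sup at hh
      omega
    · have h4 : (k - (contc d).count 1 + 1) * (k * k + 1) ≤ (k - (contc c).count 1) * (k * k + 1) :=
        Nat.mul_le_mul_right _ (by omega)
      rw [add_mul, one_mul] at h4
      omega
    · rw [h]
      omega
  have h5 := Nat.mul_le_mul_right Pm key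
  rw [add_mul _ 1, one_mul] at h5
  unfold rkw
  omega

theorem rkw_ph {Pm : ℕ} {ph : Cyc k → ℕ} {c d : Cyc k}
    (h : contc d = contc c) (hp : ph d < ph c) : rkw Pm ph d < rkw Pm ph c := by
  unfold rkw
  rw [h]
  omega

open Classical in
/-- rank of a T-cycle: groups -/
noncomputable def rkG (Pm : ℕ) (ph : Cyc k → ℕ) (Gw : Set (Set (Cyc k))) (mn : Set (Cyc k) → Cyc k)
    (c : Cyc k) : ℕ :=
  if h : ∃ F ∈ Gw, c ∈ F then (k - htc (mn h.choose)) * rkK k Pm + rkw Pm ph (mn h.choose)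
  else (k - htc c) * rkK k Pm

/-- the data of a plan with plain groups `Gp` and windows `Gw` -/
structure PlanOK {τ : Type} (O N : Set (Cyc k)) (Gp Gw : Set (Set (Cyc k)))
    (P : τ → Set (Cyc k) → DG k → Prop) (mn : Set (Cyc k) → Cyc k) (ph : Cyc k → ℕ) : Prop where
  ne : ∀ F ∈ Gp ∪ Gw, F.Nonempty
  sub : ∀ F ∈ Gp ∪ Gw, ∀ c ∈ F, c ∈ N
  cov : ∀ c ∈ N, ∃ F ∈ Gp ∪ Gw, c ∈ F
  one : ∀ F ∈ Gp ∪ Gw, ∀ F' ∈ Gp ∪ Gw, ∀ c, c ∈ F → c ∈ F' → F = F'
  pw : ∀ F ∈ Gp, F ∉ Gw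
  ex : ∀ F ∈ Gp ∪ Gw, ∃ t g, P t F g
  /-- all T-cycles of a plain group have the same height -/
  htp : ∀ F ∈ Gp, ∀ c ∈ F, ∀ d ∈ F, htc c = htc d
  /-- the main T-cycle -/
  mnw : ∀ F ∈ Gw, mn F ∈ F
  /-- plain: every old word is higher -/
  rp : ∀ t, ∀ F ∈ Gp, ∀ g, P t F g → ∀ w ∈ g.B, cyc w ∈ F ∨ cyc w ∈ O ∨
    (cyc w ∈ N ∧ ∀ c ∈ F, htc c < htc (cyc w))
  /-- windows: every old word is higher, or in a plain group of the same height, or in an older window -/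
  rw : ∀ t, ∀ F ∈ Gw, ∀ g, P t F g → ∀ w ∈ g.B, cyc w ∈ F ∨ cyc w ∈ O ∨
    (cyc w ∈ N ∧ htc (mn F) < htc (cyc w)) ∨ (∃ F' ∈ Gp, cyc w ∈ F' ∧ htc (mn F) = htc (cyc w)) ∨
    ∃ F' ∈ Gw, cyc w ∈ F' ∧ htc (mn F') = htc (mn F) ∧ (H1.Lower (contc (mn F')) (contc (mn F)) ∨
      (contc (mn F') = contc (mn F) ∧ ph (mn F') < ph (mn F)))
  htw : ∀ F ∈ Gw, ∀ c ∈ F, htc c = htc (mn F)

variable {τ : Type} {O N : Set (Cyc k)} {Gp Gw : Set (Set (Cyc k))}
  {P : τ → Set (Cyc k) → DG k → Prop} {mn : Set (Cyc k) → Cyc k} {ph : Cyc k → ℕ} {Pm : ℕ}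

theorem PlanOK.rkG_w (h : PlanOK O N Gp Gw P mn ph) {F : Set (Cyc k)} (hF : F ∈ Gw) {c : Cyc k}
    (hc : c ∈ F) : rkG Pm ph Gw mn c = (k - htc (mn F)) * rkK k Pm + rkw Pm ph (mn F) := by
  have h1 : ∃ F ∈ Gw, c ∈ F := ⟨F, hF, hc⟩
  have h2 : h1.choose = F := h.one _ (Or.inr h1.choose_spec.1) _ (Or.inr hF) c h1.choose_spec.2 hc
  unfold rkG
  rw [dif_pos h1, h2]

theorem PlanOK.rkG_p (h : PlanOK O N Gp Gw P mn ph) {F : Set (Cyc k)} (hF : F ∈ Gp) {c : Cyc k}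
    (hc : c ∈ F) : rkG Pm ph Gw mn c = (k - htc c) * rkK k Pm := by
  have h1 : ¬ ∃ F ∈ Gw, c ∈ F := by
    rintro ⟨F', hF', hc'⟩
    have := h.one F (Or.inl hF) F' (Or.inr hF') c hc hc'
    subst this
    exact h.pw _ hF hF'
  unfold rkG
  rw [dif_neg h1]

/-- higher T-cycles have a smaller rank -/
theorem PlanOK.rkG_ht (h : PlanOK O N Gp Gw P mn ph) (hph : ∀ c, ph c < Pm) {c d : Cyc k}
    (hc : c ∈ N) (hd : d ∈ N) (hlt : htc c < htc d) : rkG Pm ph Gw mn d < rkG Pm ph Gw mn c := by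
  have hb : rkG Pm ph Gw mn d < (k - htc d) * rkK k Pm + rkK k Pm := by
    obtain ⟨F, hF, hdF⟩ := h.cov d hd
    rcases hF with hF | hF
    · rw [h.rkG_p hF hdF]
      have : 0 < rkK k Pm := by unfold rkK; omega
      omega
    · rw [h.rkG_w hF hdF, h.htw F hF d hdF]
      have := rkw_lt hph (mn F)
      omega
  have ha : (k - htc c) * rkK k Pm ≤ rkG Pm ph Gw mn c := by
    obtain ⟨F, hF, hcF⟩ := h.cov c hc
    rcases hF with hF | hF
    · rw [h.rkG_p hF hcF]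
    · rw [h.rkG_w hF hcF, h.htw F hF c hcF]
      omega
  have h1 := htc_le d
  have h2 : (k - htc d + 1) * rkK k Pm ≤ (k - htc c) * rkK k Pm := Nat.mul_le_mul_right _ (by omega)
  rw [add_mul, one_mul] at h2
  omega

/-- **A SYSTEM FROM A PLAN WITH THE RANK OF THE TEXT.** -/
theorem PlanOK.sys (h : PlanOK O N Gp Gw P mn ph) (hph : ∀ c, ph c < Pm)
    (inn : X k × X k → Set (X k))
    (hF : ∀ t, ∀ F ∈ Gp ∪ Gw, ∀ g, P t F g → ∀ w, w ∈ g.F ↔ cyc w ∈ F)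
    (new : ∀ t, ∀ F ∈ Gp ∪ Gw, ∀ g, P t F g → ∀ c ∈ F, ∃ u ∈ g.B, cyc u = c)
    (old : ∀ t, ∀ F ∈ Gp ∪ Gw, ∀ g, P t F g → ∃ u ∈ g.B, cyc u ∉ F)
    (dis : ∀ t, ∀ F ∈ Gp ∪ Gw, ∀ g, P t F g → ∀ t', ∀ F' ∈ Gp ∪ Gw, ∀ g', P t' F' g' → F ≠ F' →
      ∀ w ∈ g.B, w ∉ g'.B)
    (path : ∀ t, ∀ F ∈ Gp ∪ Gw, ∀ g, P t F g → ∀ a ∈ g.arcs, ∃ n : ℕ, (TT ^ (n + 1)) a.1 = a.2 ∧
      a.1 ∈ g.B ∧ ∀ i < n, (TT ^ (i + 1)) a.1 ∉ g.B ∧ (TT ^ (i + 1)) a.1 ∈ inn a)
    (inner : ∀ t, ∀ F ∈ Gp ∪ Gw, ∀ g, P t F g → ∀ a ∈ g.arcs, ∀ w ∈ inn a, ∀ t', ∀ F' ∈ Gp ∪ Gw,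
      ∀ g', P t' F' g' → F ≠ F' → (∀ c ∈ F, ∀ d ∈ F', htc c ≤ htc d) → w ∉ g'.B)
    (abs : ∀ t, ∀ F ∈ Gp ∪ Gw, ∀ g, P t F g → g.Abs) :
    HasSys O N (planW (Gp ∪ Gw) P) (planI (Gp ∪ Gw) P inn) := by
  have hsame : ∀ F ∈ Gp ∪ Gw, ∀ c ∈ F, ∀ d ∈ F, rkG Pm ph Gw mn c = rkG Pm ph Gw mn d := by
    intro F hFG c hc d hd
    rcases hFG with hFG | hFG
    · rw [h.rkG_p hFG hc, h.rkG_p hFG hd, h.htp F hFG c hc d hd]
    · rw [h.rkG_w hFG hc, h.rkG_w hFG hd]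
  refine sys_plan O N (Gp ∪ Gw) P inn (rkG Pm ph Gw mn) h.ne h.sub h.cov h.one hsame h.ex hF new old
    ?_ dis path ?_ abs
  · intro t F hFG g hg w hw
    rcases hFG with hFG | hFG
    · rcases h.rp t F hFG g hg w hw with h1 | h1 | ⟨h1, h2⟩
      · exact Or.inl h1
      · exact Or.inr (Or.inl h1)
      · exact Or.inr (Or.inr ⟨h1, fun c hc => h.rkG_ht hph (h.sub F (Or.inl hFG) c hc) h1 (h2 c hc)⟩)
    · rcases h.rw t F hFG g hg w hw with h1 | h1 | ⟨h1, h2⟩ | ⟨F', hF', h1, h2⟩ | ⟨F', hF', h1, h2, h3⟩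
      · exact Or.inl h1
      · exact Or.inr (Or.inl h1)
      · refine Or.inr (Or.inr ⟨h1, fun c hc => ?_⟩)
        refine h.rkG_ht hph (h.sub F (Or.inr hFG) c hc) h1 ?_
        rw [h.htw F hFG c hc]
        exact h2
      · refine Or.inr (Or.inr ⟨h.sub F' (Or.inl hF') _ h1, fun c hc => ?_⟩)
        rw [h.rkG_p hF' h1, h.rkG_w hFG hc, h2]
        unfold rkw
        omega
      · refine Or.inr (Or.inr ⟨h.sub F' (Or.inr hF') _ h1, fun c hc => ?_⟩)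
        rw [h.rkG_w hF' h1, h.rkG_w hFG hc, h2]
        rcases h3 with h3 | ⟨h3, h4⟩
        · have := rkw_lower hph h3 h2
          omega
        · have := rkw_ph (Pm := Pm) h3 h4
          omega
  · intro t F hFG g hg a ha w hw t' F' hFG' g' hg' hne hrk
    refine inner t F hFG g hg a ha w hw t' F' hFG' g' hg' hne ?_
    intro c hc d hd
    by_contra hcon
    have h1 := h.rkG_ht hph (h.sub F' hFG' d hd) (h.sub F hFG c hc) (by omega)
    have h2 := hrk c hc d hd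
    omega

end Pool.OddHC
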