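import Pool.Agent.Work.MP_8f87b2_mid.Rank
import Pool.Agent.Work.MP_8f87b2_h71.H1Gen
import Pool.Agent.Work.MP_8f87b2_end.LW
import Pool.Agent.Work.MP_8f87b2_end.Inv2

/-!
# Types of gadgets

`IsTri P Q R F g` : plain triple, host `P(Q)R` higher, new words `Q(R)P`, `R(P)Q`.
`TyE`, `TyL`, `TyK`, `TyC`, `TyC'`: the plain types. `TyA`: the H1 window of a node.
-/

set_option autoImplicit false

namespace Pool.OddHC

open Finset Equiv BinaryTree Pool.Agent.Work.MP_8f87b2_co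

variable {k : ℕ}

/-- plain triple with host `a = P(Q)R` and new words `b = Q(R)P`, `c = R(P)Q` -/
def IsTri (P Q R : BinaryTree Unit) (F : Set (Cyc k)) (g : DG k) : Prop :=
  ∃ a b c : X k, a.1 = w1 P Q R ∧ b.1 = w1 Q R P ∧ c.1 = w1 R P Q ∧ cyc b ≠ cyc c ∧
    htc (cyc b) = htc (cyc c) ∧ htc (cyc b) < htc (cyc a) ∧ F = {cyc b, cyc c} ∧
    g = pDG {a, b, c} (cyc b) (cyc c) ∅

variable {P Q R : BinaryTree Unit} {F : Set (Cyc k)} {g : DG k}

theorem IsTri.hF (h : IsTri P Q R F g) : ∀ w, w ∈ g.F ↔ cyc w ∈ F := by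
  obtain ⟨a, b, c, ha, hb, hc, h1, h2, h3, rfl, rfl⟩ := h
  intro w
  exact Iff.rfl

theorem IsTri.new (h : IsTri P Q R F g) : ∀ c ∈ F, ∃ u ∈ g.B, cyc u = c := by
  obtain ⟨a, b, c, ha, hb, hc, h1, h2, h3, rfl, rfl⟩ := h
  rintro d (rfl | rfl)
  · exact ⟨b, by simp [pDG], rfl⟩
  · exact ⟨c, by simp [pDG], rfl⟩

theorem IsTri.old (h : IsTri P Q R F g) : ∃ u ∈ g.B, cyc u ∉ F := by
  obtain ⟨a, b, c, ha, hb, hc, h1, h2, h3, rfl, rfl⟩ := h
  refine ⟨a, by simp [pDG], ?_⟩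
  rintro (e | e)
  · rw [e] at h3; exact lt_irrefl _ h3
  · rw [e, h2] at h3; exact lt_irrefl _ h3

theorem IsTri.arcs (h : IsTri P Q R F g) : g.arcs = ∅ := by
  obtain ⟨a, b, c, ha, hb, hc, h1, h2, h3, rfl, rfl⟩ := h
  rfl

theorem IsTri.abs (h : IsTri P Q R F g) : g.Abs := by
  obtain ⟨a, b, c, ha, hb, hc, h1, h2, h3, rfl, rfl⟩ := h
  refine tri_abs ha hb hc ?_ ?_ h1
  · intro e; rw [e] at h3; exact lt_irrefl _ h3
  · intro e; rw [e, h2] at h3; exact lt_irrefl _ h3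

theorem IsTri.htp (h : IsTri P Q R F g) : ∀ c ∈ F, ∀ d ∈ F, htc c = htc d := by
  obtain ⟨a, b, c, ha, hb, hc, h1, h2, h3, rfl, rfl⟩ := h
  rintro x (rfl | rfl) y (rfl | rfl)
  · rfl
  · exact h2
  · exact h2.symm
  · rfl

/-- the words of a plain triple -/
theorem IsTri.words (h : IsTri P Q R F g) : ∀ w ∈ g.B, w.1 = w1 P Q R ∨
    (cyc w ∈ F ∧ (w.1 = w1 Q R P ∨ w.1 = w1 R P Q)) := by
  obtain ⟨a, b, c, ha, hb, hc, h1, h2, h3, rfl, rfl⟩ := h
  intro w hw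
  have hw' : w ∈ ({a, b, c} : Finset (X k)) := hw
  rw [Finset.mem_insert, Finset.mem_insert, Finset.mem_singleton] at hw'
  rcases hw' with rfl | rfl | rfl
  · exact Or.inl ha
  · exact Or.inr ⟨Or.inl rfl, Or.inl hb⟩
  · exact Or.inr ⟨Or.inr rfl, Or.inr hc⟩

/-- plain rank: the host is higher -/
theorem IsTri.rank (h : IsTri P Q R F g) : ∀ w ∈ g.B, cyc w ∈ F ∨ ∀ c ∈ F, htc c < htc (cyc w) := by
  intro w hw
  rcases h.words w hw with h1 | ⟨h1, _⟩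
  · obtain ⟨a, b, c, ha, hb, hc, h2, h3, h4, rfl, rfl⟩ := h
    have e : w = a := Subtype.ext (h1.trans ha.symm)
    subst e
    right
    rintro x (rfl | rfl)
    · exact h4
    · rw [← h3]; exact h4
  · exact Or.inl h1

/-- TYPE E: the triple `(X); X(), ()X`, `X = C(r, f)`, `r` low (the E-rule) -/
def TyE (F : Set (Cyc k)) (g : DG k) : Prop :=
  ∃ (j : ℕ) (r : X j) (f : ZMod (2 * j + 1) → ℕ), 1 ≤ j ∧ Low r.1 ∧
    IsTri .nil (ins r.1 (lf f)) .nil F g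

/-- TYPE L: the triple `()(R)(); R(())(), ()(())R`, `R = C(R', e)`, no bead at the ends of `R` -/
def TyL (F : Set (Cyc k)) (g : DG k) : Prop :=
  ∃ (R' : BinaryTree Unit) (e : List ℕ), R' ≠ .nil ∧ e.length = 2 * R'.numNodes + 1 ∧
    H1.fb (ins R' e) = false ∧ H1.lastB (ins R' e) = false ∧
    IsTri (lp 1) (ins R' e) (lp 1) F g

/-- TYPE K (link `2 -> 1 + 1`): host `(S)()`, new words `S(())`, `()()S` -/
def TyK (S : BinaryTree Unit) (F : Set (Cyc k)) (g : DG k) : Prop :=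
  IsTri .nil S (.nil △ .nil) F g

/-- TYPE C (content link, right): host `(R)[c]`, new words `R[c+1]`, `[c]()R` -/
def TyC (c : ℕ) (R : BinaryTree Unit) (F : Set (Cyc k)) (g : DG k) : Prop :=
  IsTri .nil R (H1.ch c) F g

/-- TYPE C' (content link, left): host `[c](R)`, new words `[c+1]R`, `R()[c]` -/
def TyC' (c : ℕ) (R : BinaryTree Unit) (F : Set (Cyc k)) (g : DG k) : Prop :=
  IsTri (H1.ch c) R .nil F g

/-- TYPE A: the H1 window of a node (two levels, or three levels with beads) -/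
def TyA (F : Set (Cyc k)) (g : DG k) : Prop :=
  ∃ (q : ℕ) (B1 H s B : BinaryTree Unit) (w0 : X k), H1.NodeG k q B1 H s B ∧
    F = {cyc (H1.gX q B1 H s B w0 0)} ∧ g = gad20 (H1.gX q B1 H s B w0)

theorem mem_gad20 {w : ℕ → X k} {x : X k} : x ∈ (gad20 w).B ↔ ∃ i < 20, w i = x := by
  classical
  change x ∈ (range 20).image w ↔ _
  rw [Finset.mem_image]
  constructor
  · rintro ⟨i, hi, rfl⟩; exact ⟨i, Finset.mem_range.1 hi, rfl⟩
  · rintro ⟨i, hi, rfl⟩; exact ⟨i, Finset.mem_range.2 hi, rfl⟩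

theorem TyA.hF (h : TyA F g) : ∀ w, w ∈ g.F ↔ cyc w ∈ F := by
  obtain ⟨q, B1, H, s, B, w0, h1, rfl, rfl⟩ := h
  intro w
  change TT.SameCycle _ _ ↔ cyc w = _
  rw [← cyc_eq]
  exact ⟨fun e => e.symm, fun e => e.symm⟩

theorem TyA.new (h : TyA F g) : ∀ c ∈ F, ∃ u ∈ g.B, cyc u = c := by
  obtain ⟨q, B1, H, s, B, w0, h1, rfl, rfl⟩ := h
  rintro c rfl
  exact ⟨_, mem_gad20.2 ⟨0, by norm_num, rfl⟩, rfl⟩

theorem cyc_lower {w v : X k} (h : H1.Lower (cont w.1) (cont v.1)) :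
    H1.Lower (contc (cyc w)) (contc (cyc v)) := h

theorem TyA.old (h : TyA F g) : ∃ u ∈ g.B, cyc u ∉ F := by
  obtain ⟨q, B1, H, s, B, w0, h1, rfl, rfl⟩ := h
  refine ⟨_, mem_gad20.2 ⟨1, by norm_num, rfl⟩, ?_⟩
  intro e
  have h2 := h1.rank w0 1 (by norm_num) (by norm_num) (by norm_num)
  have h3 : cyc (H1.gX q B1 H s B w0 1) = cyc (H1.gX q B1 H s B w0 0) := e
  exact h2.ne (congrArg contc h3)

theorem TyA.abs (h : TyA F g) : g.Abs := by
  obtain ⟨q, B1, H, s, B, w0, h1, rfl, rfl⟩ := h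
  exact h1.abs w0

/-- rank of a window: every old word is `Lower` than the new T-cycle -/
theorem TyA.rank (h : TyA F g) : ∀ w ∈ g.B, cyc w ∈ F ∨ ∀ c ∈ F, H1.Lower (contc (cyc w)) (contc c) := by
  obtain ⟨q, B1, H, s, B, w0, h1, rfl, rfl⟩ := h
  intro w hw
  obtain ⟨i, hi, rfl⟩ := mem_gad20.1 hw
  by_cases h0 : i = 0
  · left; rw [h0]; rfl
  · by_cases h10 : i = 10
    · left
      rw [h10]
      have := h1.link w0 (i := 0) (j := 10) (by simp)
      rw [← this]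
      change cyc (TT (TT _)) = cyc _
      exact cyc_eq.2 ⟨-2, by simp [zpow_neg, pow_succ]⟩
    · right
      rintro c rfl
      exact h1.rank w0 i hi h0 h10

/-- the inner words of the arcs of a window -/
def innA (a : X k × X k) : Set (X k) := {TT a.1}

theorem TyA.path (h : TyA F g) : ∀ a ∈ g.arcs, ∃ n : ℕ, (TT ^ (n + 1)) a.1 = a.2 ∧ a.1 ∈ g.B ∧
    ∀ i < n, (TT ^ (i + 1)) a.1 ∈ innA a := by
  obtain ⟨q, B1, H, s, B, w0, h1, rfl, rfl⟩ := h
  intro p hp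
  have key : ∀ i j, (i, j) ∈ [(0, 10), (1, 11), (3, 12), (6, 15), (8, 14), (9, 17)] → i < 20 →
      p = (H1.gX q B1 H s B w0 i, H1.gX q B1 H s B w0 j) →
      ∃ n : ℕ, (TT ^ (n + 1)) p.1 = p.2 ∧ p.1 ∈ (gad20 (H1.gX q B1 H s B w0)).B ∧
        ∀ i < n, (TT ^ (i + 1)) p.1 ∈ innA p := by
    rintro i j hij hi rfl
    refine ⟨1, ?_, mem_gad20.2 ⟨i, hi, rfl⟩, ?_⟩
    · rw [pow_succ, pow_one, Perm.mul_apply]
      exact h1.link w0 hij
    · intro n hn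
      obtain rfl : n = 0 := by omega
      rw [pow_one]
      rfl
  have hp' : p = (H1.gX q B1 H s B w0 0, H1.gX q B1 H s B w0 10) ∨
      p = (H1.gX q B1 H s B w0 1, H1.gX q B1 H s B w0 11) ∨
      p = (H1.gX q B1 H s B w0 3, H1.gX q B1 H s B w0 12) ∨
      p = (H1.gX q B1 H s B w0 6, H1.gX q B1 H s B w0 15) ∨
      p = (H1.gX q B1 H s B w0 8, H1.gX q B1 H s B w0 14) ∨
      p = (H1.gX q B1 H s B w0 9, H1.gX q B1 H s B w0 17) := hp
  rcases hp' with e | e | e | e | e | e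
  · exact key 0 10 (by simp) (by norm_num) e
  · exact key 1 11 (by simp) (by norm_num) e
  · exact key 3 12 (by simp) (by norm_num) e
  · exact key 6 15 (by simp) (by norm_num) e
  · exact key 8 14 (by simp) (by norm_num) e
  · exact key 9 17 (by simp) (by norm_num) e

end Pool.OddHC
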