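import Pool.Agent.Work.MP_8f87b2_h71.H1Gad
import Pool.Agent.Work.MP_8f87b2_h71.H1Inner
import Pool.Agent.Work.MP_8f87b2_h71ae.AE
import Pool.Agent.Work.MP_8f87b2_mid.Types

/-!
MP_8f87b2_co: the first maximum of a word and the inner words `T (w i)`, `i = 0, 1, 3, 6, 8, 9`, of the H1 windows.
`FM t a b`: `t = a 1 b`, the letter `1` reaches the height of `t` for the first time. If all solitons of `s` are at least
`g` then `T (w i)` starts with `1^(g+1)` or with `1^g 0^g`, and ends with `0^(g-1)`.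
-/

set_option autoImplicit false

namespace Pool.OddHC

open BinaryTree Equiv

namespace H1

variable {k : ℕ}

/-- first maximum -/
structure FM (t : BinaryTree Unit) (a b : List Bool) : Prop where
  eq : wd t = a ++ true :: b
  pre : ∀ m, (a.take m).count true + 1 ≤ (a.take m).count false + Tsq.ht t
  top : a.count true + 1 = a.count false + Tsq.ht t

theorem FM.not_lt {t : BinaryTree Unit} {a b a' b' : List Bool} (h : FM t a b) (h' : FM t a' b')
    {c : List Bool} (h1 : a' = a ++ c) (h2 : true :: b = c ++ true :: b') : c = [] := by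
  cases c with
  | nil => rfl
  | cons x c =>
    exfalso
    rw [List.cons_append, List.cons.injEq] at h2
    obtain ⟨rfl, -⟩ := h2
    have e1 := h'.pre (a.length + 1)
    have e2 : a'.take (a.length + 1) = a ++ [true] := by
      rw [h1, List.take_append]
      simp
    rw [e2, List.count_append, List.count_append] at e1
    have e3 := h.top
    simp at e1
    omega

theorem FM.uniq {t : BinaryTree Unit} {a b a' b' : List Bool} (h : FM t a b) (h' : FM t a' b') :
    a = a' ∧ b = b' := by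
  have e := h.eq.symm.trans h'.eq
  rcases List.append_eq_append_iff.1 e with ⟨c, h1, h2⟩ | ⟨c, h1, h2⟩
  · have hc := h.not_lt h' h1 h2
    subst hc
    refine ⟨by simpa using h1.symm, by simpa using h2⟩
  · have hc := h'.not_lt h h1 h2
    subst hc
    refine ⟨by simpa using h1, by simpa using h2.symm⟩

/-- `T` by the first maximum -/
theorem FM.wdT {x : X k} {a b : List Bool} (h : FM x.1 a b) :
    wd (TT x).1 = b.map not ++ false :: a.map not := by
  have hx : x.1 ≠ .nil := by
    intro e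
    have := h.eq
    rw [e] at this
    simp [wd] at this
  obtain ⟨a0, c, h1, h2, h3, h4, h5, h6, h7⟩ := Tsq.sq_spec x.1 hx
  obtain ⟨e1, e2⟩ := h.uniq (⟨h1, h3, h4⟩ : FM x.1 a0 (c ++ false :: wd (Tsq.sq x.1).2))
  obtain ⟨t, ht⟩ := Tsq.T_tree h3 h4 h5 h6 h7
  have e3 : (TF x).1 = t := Tsq.TF_of h1 (by rw [ht]; simp)
  rw [TT_apply, e3, ht, e1, e2]
  simp

theorem FM.pos {t : BinaryTree Unit} {a b : List Bool} (h : FM t a b) : 1 ≤ Tsq.ht t := by
  have := h.pre 0
  simpa using this

/-- the first maximum of `P t`, `P` lower -/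
theorem FM.app_left {P t : BinaryTree Unit} {a b : List Bool} (h : FM t a b)
    (hP : Tsq.ht P < Tsq.ht t) : FM (app P t) (wd P ++ a) b := by
  have cP := wd_counts P
  have hh : Tsq.ht (app P t) = Tsq.ht t := by rw [Tsq.ht_app]; omega
  refine ⟨by rw [wd_app, h.eq]; simp, ?_, ?_⟩
  · intro m
    rw [hh, List.take_append, List.count_append, List.count_append]
    rcases le_or_gt m (wd P).length with hm | hm
    · have e : m - (wd P).length = 0 := by omega
      rw [e]
      have := Tsq.ht_take P m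
      simp
      omega
    · rw [List.take_of_length_le hm.le, cP.1, cP.2]
      have := h.pre (m - (wd P).length)
      omega
  · rw [hh, List.count_append, List.count_append, cP.1, cP.2]
    have := h.top
    omega

/-- the first maximum of `t Z`, `Z` not higher -/
theorem FM.app_right {t Z : BinaryTree Unit} {a b : List Bool} (h : FM t a b)
    (hZ : Tsq.ht Z ≤ Tsq.ht t) : FM (app t Z) a (b ++ wd Z) := by
  have hh : Tsq.ht (app t Z) = Tsq.ht t := by rw [Tsq.ht_app]; omega
  refine ⟨by rw [wd_app, h.eq]; simp, ?_, ?_⟩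
  · intro m; rw [hh]; exact h.pre m
  · rw [hh]; exact h.top

/-- the first maximum of `(A) Z`, `Z` not higher -/
theorem FM.node {A Z : BinaryTree Unit} {a b : List Bool} (h : FM A a b)
    (hZ : Tsq.ht Z ≤ Tsq.ht A + 1) : FM (A △ Z) (true :: a) (b ++ false :: wd Z) := by
  have hh : Tsq.ht (A △ Z) = Tsq.ht A + 1 := by rw [Tsq.ht_node]; omega
  refine ⟨by rw [wd_node, h.eq]; simp, ?_, ?_⟩
  · intro m
    rw [hh]
    cases m with
    | zero => simp
    | succ m =>
      rw [List.take_succ_cons, List.count_cons, List.count_cons]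
      have := h.pre m
      simp
      omega
  · rw [hh, List.count_cons, List.count_cons]
    have := h.top
    simp
    omega

/-! ### Words with long runs -/

/-- all solitons at least `g` (syntactic) -/
def hg (g : ℕ) : BinaryTree Unit → Prop
  | .nil => True
  | .node _ A X => (A = ch (g - 1) ∨ (A ≠ .nil ∧ hg g A)) ∧ hg g X

theorem hg_node {g : ℕ} {A X : BinaryTree Unit} :
    hg g (A △ X) ↔ (A = ch (g - 1) ∨ (A ≠ .nil ∧ hg g A)) ∧ hg g X := Iff.rfl

theorem hg_hv {t : BinaryTree Unit} (h : hv t) : hg 3 t := by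
  induction t with
  | nil => trivial
  | node _ A C ihA ihC =>
    refine ⟨?_, ihC h.2⟩
    rcases h.1 with h1 | ⟨h1, h2⟩
    · exact Or.inl h1
    · exact Or.inr ⟨h1, ihA h2⟩

theorem wd_ch (n : ℕ) : wd (ch n) = List.replicate n true ++ List.replicate n false := by
  induction n with
  | zero => rfl
  | succ n ih =>
    rw [ch_succ, wd_node, ih, List.replicate_succ, List.replicate_succ']
    simp [wd]

/-- `1^g ..` or empty -/
theorem hg_start {g : ℕ} (hg1 : 1 ≤ g) {t : BinaryTree Unit} : hg g t → t ≠ .nil →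
    ∃ v, wd t = List.replicate g true ++ v := by
  induction t with
  | nil => intro _ h; exact absurd rfl h
  | node _ A C ihA _ =>
    intro h _
    change ∃ v, wd (A △ C) = _
    rw [wd_node]
    rcases h.1 with rfl | ⟨h1, h2⟩
    · rw [wd_ch]
      obtain ⟨n, rfl⟩ : ∃ n, g = n + 1 := ⟨g - 1, by omega⟩
      refine ⟨List.replicate n false ++ false :: wd C, ?_⟩
      rw [Nat.add_sub_cancel, List.replicate_succ]
      simp
    · obtain ⟨v, hv⟩ := ihA h2 h1
      obtain ⟨n, rfl⟩ : ∃ n, g = n + 1 := ⟨g - 1, by omega⟩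
      rw [hv]
      refine ⟨true :: (v ++ false :: wd C), ?_⟩
      have e : true :: List.replicate (n + 1) true = List.replicate (n + 1) true ++ [true] := by
        rw [← List.replicate_succ, List.replicate_succ']
      rw [List.append_assoc, ← List.cons_append, e]
      simp

/-- what follows the first maximum of a heavy word: `0^g` and the end, or `0`, or `1^g` -/
def Aft (g : ℕ) (b : List Bool) : Prop :=
  ∃ v, b = List.replicate g false ++ v ∧ (v = [] ∨ (∃ r, v = false :: r) ∨
    ∃ r, v = List.replicate g true ++ r)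

theorem hg_FM {g : ℕ} (hg1 : 1 ≤ g) {t : BinaryTree Unit} : hg g t → t ≠ .nil →
    g ≤ Tsq.ht t ∧ ∃ a b, FM t a b ∧ (∃ a', a = a' ++ List.replicate (g - 1) true) ∧ Aft g b := by
  induction t with
  | nil => intro _ h; exact absurd rfl h
  | node _ A C ihA ihC =>
    intro h _
    change g ≤ Tsq.ht (A △ C) ∧ ∃ a b, FM (A △ C) a b ∧ _ ∧ _
    -- height of `A`
    have hA : g ≤ Tsq.ht A + 1 := by
      rcases h.1 with rfl | ⟨h1, h2⟩
      · rw [ht_eq, ch_ht]; omega
      · have := (ihA h2 h1).1; omega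
    refine ⟨by rw [Tsq.ht_node]; omega, ?_⟩
    by_cases hC : Tsq.ht A + 1 < Tsq.ht C
    · have hn : C ≠ .nil := by
        rintro rfl
        simp [Tsq.ht] at hC
      obtain ⟨h1, a, b, h2, ⟨a', h3⟩, h4⟩ := ihC h.2 hn
      have h5 := h2.app_left (P := A △ .nil) (by rw [Tsq.ht_node]; simp [Tsq.ht]; omega)
      exact ⟨_, b, h5, ⟨wd (A △ .nil) ++ a', by rw [h3]; simp⟩, h4⟩
    · push_neg at hC
      rcases h.1 with rfl | ⟨h1, h2⟩
      · obtain ⟨n, rfl⟩ : ∃ n, g = n + 1 := ⟨g - 1, by omega⟩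
        rw [Nat.add_sub_cancel] at hC hA ⊢
        have hh : Tsq.ht (ch n △ C) = n + 1 := by
          rw [Tsq.ht_node, ht_eq (ch n), ch_ht]
          rw [ht_eq (ch n), ch_ht] at hC
          omega
        refine ⟨List.replicate n true, List.replicate (n + 1) false ++ wd C, ⟨?_, ?_, ?_⟩,
          ⟨[], by simp⟩, wd C, rfl, ?_⟩
        · rw [wd_node, wd_ch, List.replicate_succ', ← List.cons_append, ← List.cons_append,
            ← List.replicate_succ, List.replicate_succ']
          simp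
        · intro m
          rw [hh, List.take_replicate, List.count_replicate_self]
          omega
        · rw [hh, List.count_replicate_self, List.count_replicate]
          simp
        · by_cases hn : C = .nil
          · left; rw [hn]; rfl
          · right; right
            exact hg_start hg1 h.2 hn
      · obtain ⟨h3, a, b, h4, ⟨a', h5⟩, ⟨v, h6, h7⟩⟩ := ihA h2 h1
        refine ⟨true :: a, b ++ false :: wd C, h4.node hC, ⟨true :: a', by rw [h5]; simp⟩,
          v ++ false :: wd C, by rw [h6]; simp, ?_⟩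
        rcases h7 with rfl | ⟨r, rfl⟩ | ⟨r, rfl⟩
        · exact Or.inr (Or.inl ⟨_, rfl⟩)
        · exact Or.inr (Or.inl ⟨_, rfl⟩)
        · exact Or.inr (Or.inr ⟨_, by rw [List.append_assoc]⟩)

/-- `0^(g+1)` or `0^g 1^g` -/
def Aft' (g : ℕ) (b : List Bool) : Prop :=
  (∃ r, b = List.replicate (g + 1) false ++ r) ∨
    ∃ r, b = List.replicate g false ++ (List.replicate g true ++ r)

theorem Aft'.append {g : ℕ} {b : List Bool} (h : Aft' g b) (c : List Bool) : Aft' g (b ++ c) := by
  rcases h with ⟨r, rfl⟩ | ⟨r, rfl⟩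
  · exact Or.inl ⟨r ++ c, by rw [List.append_assoc]⟩
  · exact Or.inr ⟨r ++ c, by simp⟩

theorem Aft.cons {g : ℕ} {b : List Bool} (h : Aft g b) (c : List Bool) :
    Aft' g (b ++ false :: c) := by
  obtain ⟨v, rfl, rfl | ⟨r, rfl⟩ | ⟨r, rfl⟩⟩ := h
  · exact Or.inl ⟨c, by rw [List.replicate_succ']; simp⟩
  · exact Or.inl ⟨r ++ false :: c, by rw [List.replicate_succ']; simp⟩
  · exact Or.inr ⟨r ++ false :: c, by simp⟩

/-- `Rr`: the first maximum of `R` and what is around it -/
structure FMR (g : ℕ) (R : BinaryTree Unit) (a b : List Bool) : Prop where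
  fm : FM R a b
  up : ∃ a', a = a' ++ List.replicate (g - 1) true
  dn : Aft' g b

/-- `R = B1 (H s) B` -/
theorem FMR_R {g : ℕ} (hg1 : 1 ≤ g) {B1 H s B : BinaryTree Unit} (hs : hg g s) (hs0 : s ≠ .nil)
    (hH : Tsq.ht H < Tsq.ht s) (h1 : Tsq.ht B1 < Tsq.ht s + 1) (hB : Tsq.ht B ≤ Tsq.ht s + 1) :
    ∃ a b, FMR g (app B1 (app H s △ B)) a b := by
  obtain ⟨h2, a, b, h3, ⟨a', h4⟩, h5⟩ := hg_FM hg1 hs hs0
  have k1 := h3.app_left hH
  have e1 : Tsq.ht (app H s) = Tsq.ht s := by rw [Tsq.ht_app]; omega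
  have k2 := k1.node (Z := B) (by rw [e1]; exact hB)
  have e2 : Tsq.ht (app H s △ B) = Tsq.ht s + 1 := by rw [Tsq.ht_node, e1]; omega
  have k3 := k2.app_left (P := B1) (by rw [e2]; exact h1)
  exact ⟨_, _, k3, ⟨wd B1 ++ true :: (wd H ++ a'), by rw [h4]; simp⟩, h5.cons _⟩

theorem FMR.app_left {g : ℕ} {P t : BinaryTree Unit} {a b : List Bool} (h : FMR g t a b)
    (hP : Tsq.ht P < Tsq.ht t) : FMR g (app P t) (wd P ++ a) b := by
  obtain ⟨a', h1⟩ := h.up
  exact ⟨h.fm.app_left hP, ⟨wd P ++ a', by rw [h1]; simp⟩, h.dn⟩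

theorem FMR.app_right {g : ℕ} {t Z : BinaryTree Unit} {a b : List Bool} (h : FMR g t a b)
    (hZ : Tsq.ht Z ≤ Tsq.ht t) : FMR g (app t Z) a (b ++ wd Z) :=
  ⟨h.fm.app_right hZ, h.up, h.dn.append _⟩

theorem FMR.node {g : ℕ} {A Z : BinaryTree Unit} {a b : List Bool} (h : FMR g A a b)
    (hZ : Tsq.ht Z ≤ Tsq.ht A + 1) : FMR g (A △ Z) (true :: a) (b ++ false :: wd Z) := by
  obtain ⟨a', h1⟩ := h.up
  exact ⟨h.fm.node hZ, ⟨true :: a', by rw [h1]; simp⟩, h.dn.append _⟩

/-- the linked words of a window -/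
theorem FMR_W {g q : ℕ} {R B S : BinaryTree Unit} {a b : List Bool} (h : FMR g R a b)
    (hq : q + 3 ≤ Tsq.ht R) : ∀ i ∈ [0, 1, 3, 6, 8, 9],
    ∃ a b, FMR g (W R (ch (q + 1)) B S i) a b := by
  intro i hi
  have hn : Tsq.ht (.nil : BinaryTree Unit) = 0 := rfl
  have hc : ∀ n, Tsq.ht (ch n) = n := fun n => by rw [ht_eq, ch_ht]
  simp only [List.mem_cons, List.not_mem_nil, or_false] at hi
  rcases hi with rfl | rfl | rfl | rfl | rfl | rfl
  · exact ⟨_, _, h.app_right (Z := ch (q + 3)) (by rw [hc]; exact hq)⟩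
  · exact ⟨_, _, h.app_right (Z := .nil △ app (ch (q + 1)) (.nil △ .nil)) (by
      rw [Tsq.ht_node, Tsq.ht_app, Tsq.ht_node, hc, hn]; omega)⟩
  · exact ⟨_, _, (h.app_right (Z := .nil △ ch (q + 1)) (by
      rw [Tsq.ht_node, hc, hn]; omega)).node (Z := .nil) (by rw [hn]; omega)⟩
  · exact ⟨_, _, h.node (Z := ch (q + 2)) (by rw [hc]; omega)⟩
  · have k := (h.node (Z := .nil) (by rw [hn]; omega)).app_left
      (P := app (ch (q + 1)) (.nil △ .nil)) (by
        rw [Tsq.ht_node, Tsq.ht_app, Tsq.ht_node, hc, hn]; omega)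
    have e : W R (ch (q + 1)) B S 8 = app (app (ch (q + 1)) (.nil △ .nil)) (R △ .nil) := by
      rw [app_assoc]; rfl
    rw [e]
    exact ⟨_, _, k⟩
  · exact ⟨_, _, (h.node (Z := .nil) (by rw [hn]; omega)).node (Z := ch (q + 1)) (by
      rw [Tsq.ht_node, hc, hn]; omega)⟩

/-- `1^(g+1) ..` or `1^g 0^g ..` -/
def Sta (g : ℕ) (l : List Bool) : Prop :=
  (∃ r, l = List.replicate (g + 1) true ++ r) ∨
    ∃ r, l = List.replicate g true ++ (List.replicate g false ++ r)

/-- **the inner words** -/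
theorem FMR.inner {g : ℕ} {x : X k} {a b : List Bool} (h : FMR g x.1 a b) :
    Sta g (wd (TT x).1) ∧ ∃ l, wd (TT x).1 = l ++ List.replicate (g - 1) false := by
  have e := h.fm.wdT
  obtain ⟨a', h1⟩ := h.up
  constructor
  · rw [e]
    rcases h.dn with ⟨r, h2⟩ | ⟨r, h2⟩
    · left
      exact ⟨r.map not ++ false :: a.map not, by rw [h2]; simp⟩
    · right
      exact ⟨r.map not ++ false :: a.map not, by rw [h2]; simp⟩
  · exact ⟨b.map not ++ false :: a'.map not, by rw [e, h1]; simp⟩

end H1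

end Pool.OddHC
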