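import Pool.Agent.Work.MP_8f87b2_mid.Types

/-!
# Plain triples against plain triples

`Dj A B` : gadgets of the types `A`, `B` with disjoint groups have no common word.
`comps t` : the list of the components of a word. `tri_dis` : for two plain triples only the hosts matter.
-/

set_option autoImplicit false

namespace Pool.OddHC

open Finset Equiv BinaryTree Pool.Agent.Work.MP_8f87b2_co

variable {k : ℕ}

/-- gadgets of types `A`, `B` with disjoint groups have no common word -/
def Dj (A B : Set (Cyc k) → DG k → Prop) : Prop :=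
  ∀ F g F' g', A F g → B F' g' → (∀ c ∈ F, c ∉ F') → ∀ w ∈ g.B, w ∉ g'.B

theorem Dj.symm {A B : Set (Cyc k) → DG k → Prop} (h : Dj A B) : Dj B A := by
  intro F g F' g' hB hA hd w hw hw'
  exact h F' g' F g hA hB (fun c hc hc' => hd c hc' hc) w hw' hw

/-! ### Components -/

/-- the components of a word -/
def comps : BinaryTree Unit → List (BinaryTree Unit)
  | .nil => []
  | .node _ A B => A :: comps B

theorem comps_node (A B : BinaryTree Unit) : comps (A △ B) = A :: comps B := rfl

theorem comps_app (P Q : BinaryTree Unit) : comps (app P Q) = comps P ++ comps Q := by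
  induction P with
  | nil => rfl
  | node _ A B _ ih =>
    change A :: comps (app B Q) = A :: (comps B ++ comps Q)
    rw [ih]

theorem comps_inj {t t' : BinaryTree Unit} (h : comps t = comps t') : t = t' := by
  induction t generalizing t' with
  | nil =>
    cases t' with
    | nil => rfl
    | node _ A B => cases h
  | node _ A B _ ih =>
    cases t' with
    | nil => cases h
    | node _ A' B' =>
      rw [comps, comps, List.cons.injEq] at h
      rw [h.1, ih h.2]

theorem comps_w1 (P Q R : BinaryTree Unit) : comps (w1 P Q R) = comps P ++ Q :: comps R := by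
  rw [w1, comps_app, comps_node]

theorem comps_lp (n : ℕ) : comps (lp n) = List.replicate n .nil := by
  induction n with
  | zero => rfl
  | succ n ih =>
    change comps (.nil △ lp n) = _
    rw [comps_node, ih]
    rfl

theorem comps_ch (n : ℕ) : comps (H1.ch (n + 1)) = [H1.ch n] := rfl

theorem comps_ne {t : BinaryTree Unit} (h : t ≠ .nil) : comps t ≠ [] := by
  intro e
  exact h (comps_inj e)

theorem comps_ne' {t : BinaryTree Unit} (h : comps t ≠ []) : t ≠ .nil := by
  rintro rfl
  exact h rfl

/-! ### Two triples -/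

variable {P Q R P' Q' R' : BinaryTree Unit} {F F' : Set (Cyc k)} {g g' : DG k}

theorem IsTri.new_ne (h : IsTri P Q R F g) : w1 Q R P ≠ w1 R P Q := by
  obtain ⟨a, b, c, ha, hb, hc, h1, h2, h3, rfl, rfl⟩ := h
  intro e
  apply h1
  rw [← hb, ← hc] at e
  rw [Subtype.ext e]

/-- two plain triples with disjoint groups -/
theorem tri_dis (h : IsTri P Q R F g) (h' : IsTri P' Q' R' F' g') (hd : ∀ c ∈ F, c ∉ F')
    (hh : w1 P Q R = w1 P' Q' R' → P = P' ∧ Q = Q' ∧ R = R')
    (hn1 : w1 P Q R ≠ w1 Q' R' P') (hn2 : w1 P Q R ≠ w1 R' P' Q')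
    (nh1 : w1 P' Q' R' ≠ w1 Q R P) (nh2 : w1 P' Q' R' ≠ w1 R P Q) : ∀ w ∈ g.B, w ∉ g'.B := by
  intro w hw hw'
  rcases h.words w hw with e | ⟨e1, e⟩
  · rcases h'.words w hw' with e' | ⟨_, e' | e'⟩
    · obtain ⟨rfl, rfl, rfl⟩ := hh (e.symm.trans e')
      obtain ⟨a, b, c, ha, hb, hc, h1, h2, h3, rfl, rfl⟩ := h
      obtain ⟨a', b', c', ha', hb', hc', h1', h2', h3', rfl, rfl⟩ := h'
      have eb : b = b' := Subtype.ext (hb.trans hb'.symm)
      subst eb
      exact hd (cyc b) (Or.inl rfl) (Or.inl rfl)
    · exact hn1 (e.symm.trans e')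
    · exact hn2 (e.symm.trans e')
  · rcases h'.words w hw' with e' | ⟨e2, _⟩
    · rcases e with e | e
      · exact nh1 (e'.symm.trans e)
      · exact nh2 (e'.symm.trans e)
    · exact hd _ e1 e2

/-! ### E -/

theorem TyE.data (h : TyE F g) : ∃ X : BinaryTree Unit, X ≠ .nil ∧ IsTri .nil X .nil F g ∧
    ∃ r f, f.length = 2 * r.numNodes + 1 ∧ X = ins r f ∧ Low r := by
  obtain ⟨j, r, f, hj, hr, ht⟩ := h
  refine ⟨ins r.1 (lf f), ?_, ht, r.1, lf f, by rw [lf_length, X_num], rfl, hr⟩
  intro e
  apply ht.new_ne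
  rw [e]

theorem dj_EE : Dj (k := k) TyE TyE := by
  intro F g F' g' h h' hd
  obtain ⟨X, hX, ht, -⟩ := h.data
  obtain ⟨X', hX', ht', -⟩ := h'.data
  have key : ∀ X X' : BinaryTree Unit, X' ≠ .nil → w1 .nil X .nil ≠ w1 X' .nil .nil ∧
      w1 .nil X .nil ≠ w1 .nil .nil X' := by
    intro X X' hX'
    constructor
    · intro e
      have e1 := congrArg comps e
      simp only [comps_w1, comps] at e1
      have e2 := congrArg List.length e1
      have e3 := List.length_pos_iff.2 (comps_ne hX')
      simp only [List.nil_append, List.length_append, List.length_cons, List.length_nil] at e2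
      omega
    · intro e
      have e1 := congrArg comps e
      simp only [comps_w1, comps] at e1
      have e2 := congrArg List.length e1
      have e3 := List.length_pos_iff.2 (comps_ne hX')
      simp only [List.nil_append, List.length_cons, List.length_nil] at e2
      omega
  refine tri_dis ht ht' hd ?_ (key X X' hX').1 (key X X' hX').2 (key X' X hX).1 (key X' X hX).2
  intro e
  have e1 := congrArg comps e
  simp only [comps_w1, comps, List.nil_append, List.cons.injEq] at e1
  exact ⟨rfl, e1.1, rfl⟩

/-! ### L -/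

theorem ht_lp (n : ℕ) : ht (lp n) ≤ 1 := by
  induction n with
  | zero => exact Nat.zero_le _
  | succ n ih =>
    change ht (.nil △ lp n) ≤ 1
    rw [ht_node, ht]
    omega

theorem ht_ins_ge : ∀ (t : BinaryTree Unit) (e : List ℕ), t ≠ .nil → 2 ≤ ht (ins t e) := by
  intro t
  cases t with
  | nil => intro e h; exact absurd rfl h
  | node _ A B =>
    intro e _
    have h1 := ht_pos (ins_ne_nil A (e.tail.take (2 * A.numNodes + 1)))
    have key : ∀ (n : ℕ) (X : BinaryTree Unit), 2 ≤ ht X → 2 ≤ ht (lv n X) := by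
      intro n X hX
      induction n with
      | zero => exact hX
      | succ n ih =>
        rw [lv, ht_node]
        omega
    rw [ins]
    apply key
    rw [ht_node]
    omega

theorem replicate_cons_app {n m : ℕ} {A B : BinaryTree Unit} {x y : List (BinaryTree Unit)}
    (hA : A ≠ .nil) (hB : B ≠ .nil)
    (h : List.replicate n (.nil : BinaryTree Unit) ++ A :: x = List.replicate m .nil ++ B :: y) :
    n = m ∧ A = B ∧ x = y := by
  induction n generalizing m with
  | zero =>
    cases m with
    | zero =>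
      simp only [List.replicate_zero, List.nil_append, List.cons.injEq] at h
      exact ⟨rfl, h.1, h.2⟩
    | succ m =>
      rw [List.replicate_succ, List.replicate_zero, List.nil_append, List.cons_append,
        List.cons.injEq] at h
      exact absurd h.1 hA
  | succ n ih =>
    cases m with
    | zero =>
      rw [List.replicate_succ, List.replicate_zero, List.nil_append, List.cons_append,
        List.cons.injEq] at h
      exact absurd h.1.symm hB
    | succ m =>
      rw [List.replicate_succ, List.replicate_succ, List.cons_append, List.cons_append,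
        List.cons.injEq] at h
      obtain ⟨h1, h2, h3⟩ := ih h.2
      exact ⟨by omega, h2, h3⟩

/-- the data of an L-triple: `R` is not light -/
theorem TyL.data (h : TyL F g) : ∃ (R' : BinaryTree Unit) (e : List ℕ) (p q : ℕ), R' ≠ .nil ∧
    e.length = 2 * R'.numNodes + 1 ∧ 1 ≤ p ∧ 1 ≤ q ∧ 2 ≤ ht (ins R' e) ∧
    IsTri (lp q) (ins R' e) (lp p) F g := by
  obtain ⟨R', e, h1, h2, h3, h4, h5⟩ := h
  exact ⟨R', e, 1, 1, h1, h2, le_rfl, le_rfl, ht_ins_ge R' e h1, h5⟩

theorem ht2_ne {R : BinaryTree Unit} (h : 2 ≤ ht R) : R ≠ .nil := by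
  rintro rfl
  rw [ht] at h
  omega

theorem ht2_lp {R : BinaryTree Unit} (h : 2 ≤ ht R) (n : ℕ) : R ≠ lp n := by
  rintro rfl
  have := ht_lp n
  omega

theorem dj_LL : Dj (k := k) TyL TyL := by
  intro F g F' g' h h' hd
  obtain ⟨S, e, p, q, h1, h2, h3, h4, h5, hS⟩ := h.data
  obtain ⟨S', e', p', q', h1', h2', h3', h4', h5', hS'⟩ := h'.data
  -- host against new
  have key : ∀ (R R' : BinaryTree Unit) (p q p' q' : ℕ), 2 ≤ ht R → 2 ≤ ht R' → 1 ≤ p → 1 ≤ q →
      1 ≤ p' → 1 ≤ q' → w1 (lp q) R (lp p) ≠ w1 R' (lp p') (lp q') ∧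
      w1 (lp q) R (lp p) ≠ w1 (lp p') (lp q') R' := by
    intro R R' p q p' q' hR hR' hp hq hp' hq'
    have hne : R ≠ .nil := ht2_ne hR
    have hlp : ∀ n, 1 ≤ n → lp n ≠ .nil := by
      intro n hn
      obtain ⟨n, rfl⟩ : ∃ n', n = n' + 1 := ⟨n - 1, by omega⟩
      change .nil △ lp n ≠ .nil
      simp
    constructor
    · intro e
      have e1 := congrArg (fun t => (comps t).reverse) e
      simp only [comps_w1, comps_lp, List.reverse_append, List.reverse_cons,
        List.reverse_replicate, List.append_assoc, List.singleton_append] at e1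
      obtain ⟨_, e2, _⟩ := replicate_cons_app hne (hlp p' hp') e1
      exact ht2_lp hR p' e2
    · intro e
      have e1 := congrArg comps e
      simp only [comps_w1, comps_lp] at e1
      obtain ⟨_, e2, _⟩ := replicate_cons_app hne (hlp q' hq') e1
      exact ht2_lp hR q' e2
  refine tri_dis hS hS' hd ?_ (key _ _ _ _ _ _ h5 h5' h3 h4 h3' h4').1
    (key _ _ _ _ _ _ h5 h5' h3 h4 h3' h4').2 (key _ _ _ _ _ _ h5' h5 h3' h4' h3 h4).1
    (key _ _ _ _ _ _ h5' h5 h3' h4' h3 h4).2
  intro e0
  have e1 := congrArg comps e0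
  simp only [comps_w1, comps_lp] at e1
  obtain ⟨e2, e3, e4⟩ := replicate_cons_app (ht2_ne h5) (ht2_ne h5') e1
  have e5 := congrArg List.length e4
  rw [List.length_replicate, List.length_replicate] at e5
  rw [e2, e3, e5]
  exact ⟨rfl, rfl, rfl⟩

/-! ### E against L, K, C -/

/-- TYPE En: an E-triple over a word `r` which is not prime -/
def TyEn (F : Set (Cyc k)) (g : DG k) : Prop :=
  ∃ (j : ℕ) (r : X j) (f : ZMod (2 * j + 1) → ℕ), 1 ≤ j ∧ Low r.1 ∧ (∀ A, r.1 ≠ A △ .nil) ∧
    IsTri .nil (ins r.1 (lf f)) .nil F g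

theorem TyEn.toE (h : TyEn F g) : TyE F g := by
  obtain ⟨j, r, f, h1, h2, _, h3⟩ := h
  exact ⟨j, r, f, h1, h2, h3⟩

/-- `(R)` with beads around has the reduced word `(R')` -/
theorem red_prime {R' : BinaryTree Unit} {e : List ℕ} (hR : R' ≠ .nil)
    (he : e.length = 2 * R'.numNodes + 1) (p q : ℕ) {r : BinaryTree Unit} {f : List ℕ}
    (hf : f.length = 2 * r.numNodes + 1)
    (h : w1 (lp p) (ins R' e) (lp q) = ins r f) : r = R' △ .nil := by
  have e1 : ins (R' △ .nil) (p :: (e ++ [q])) = w1 (lp p) (ins R' e) (lp q) := by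
    rw [ins, w1]
    have h1 : (p :: (e ++ [q])).tail.take (2 * R'.numNodes + 1) = e := by
      rw [List.tail_cons, List.take_append_of_le_length (by omega), List.take_of_length_le (by omega)]
    have h2 : (p :: (e ++ [q])).drop (2 * R'.numNodes + 2) = [q] := by
      rw [show 2 * R'.numNodes + 2 = (2 * R'.numNodes + 1) + 1 from rfl, List.drop_succ_cons,
        ← he, List.drop_left]
    have h3 : bump R' e = e := by
      cases R' with
      | nil => exact absurd rfl hR
      | node _ _ _ => rfl
    rw [h1, h2, h3, List.headD_cons]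
    change lv p (ins R' e △ lv q .nil) = app (lv p .nil) (ins R' e △ lv q .nil)
    exact lv_app p _
  have e2 := ins_inj (by
    rw [List.length_cons, List.length_append, List.length_singleton, he]
    change 2 * R'.numNodes + 1 + 1 + 1 = 2 * (R'.numNodes + 0 + 1) + 1
    omega) hf (e1.trans h)
  exact e2.1.symm

/-- CONFLICT E-L: the reduced word of the E-triple is `(R')` -/
theorem conflict_EL {X : BinaryTree Unit} (hX : X ≠ .nil) (ht : IsTri .nil X .nil F g)
    {R' : BinaryTree Unit} {e : List ℕ} {p q : ℕ} (hR' : R' ≠ .nil)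
    (he : e.length = 2 * R'.numNodes + 1) (hp : 1 ≤ p) (hq : 1 ≤ q)
    (ht' : IsTri (lp q) (ins R' e) (lp p) F' g') (hd : ∀ c ∈ F, c ∉ F')
    (hr : ∀ a b, X ≠ w1 (lp a) (ins R' e) (lp b)) : ∀ w ∈ g.B, w ∉ g'.B := by
  have h2 := ht_ins_ge R' e hR'
  have hlp : ∀ n, 1 ≤ n → lp n ≠ .nil := by
    intro n hn
    obtain ⟨n, rfl⟩ : ∃ n', n = n' + 1 := ⟨n - 1, by omega⟩
    change .nil △ lp n ≠ .nil
    simp
  have two : ∀ A B C : BinaryTree Unit, A ≠ .nil ∨ C ≠ .nil → w1 .nil X .nil ≠ w1 A B C := by
    intro A B C hAC e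
    have e1 := congrArg (fun t => (comps t).length) e
    simp only [comps_w1, comps, List.nil_append, List.length_append, List.length_cons,
      List.length_nil] at e1
    rcases hAC with h | h
    · have := List.length_pos_iff.2 (comps_ne h)
      omega
    · have := List.length_pos_iff.2 (comps_ne h)
      omega
  obtain ⟨p', hp'⟩ : ∃ p', p = p' + 1 := ⟨p - 1, by omega⟩
  obtain ⟨q', hq'⟩ : ∃ q', q = q' + 1 := ⟨q - 1, by omega⟩
  refine tri_dis ht ht' hd ?_ ?_ ?_ ?_ ?_
  · intro e
    exact absurd e (two _ _ _ (Or.inl (hlp q hq)))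
  · exact two _ _ _ (Or.inl (ht2_ne h2))
  · exact two _ _ _ (Or.inl (hlp p hp))
  · -- X() against the host
    intro e
    apply hr q p'
    apply comps_inj
    have e1 := congrArg comps e
    rw [hp'] at e1
    simp only [comps_w1, comps_lp, List.replicate_succ', comps] at e1
    rw [← List.cons_append, ← List.append_assoc] at e1
    have e2 := List.append_cancel_right e1
    rw [comps_w1, comps_lp, comps_lp, ← e2]
  · intro e
    apply hr q' p
    apply comps_inj
    have e1 := congrArg comps e
    rw [hq'] at e1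
    simp only [comps_w1, comps_lp, List.replicate_succ, comps, List.nil_append, List.cons_append,
      List.cons.injEq, true_and] at e1
    rw [comps_w1, comps_lp, comps_lp, ← e1]

theorem dj_EnL : Dj (k := k) TyEn TyL := by
  intro F g F' g' h h' hd
  obtain ⟨j, r, f, hj, hl, hn, ht⟩ := h
  obtain ⟨R', e, p, q, h1, h2, h3, h4, _, ht'⟩ := h'.data
  refine conflict_EL ?_ ht h1 h2 h3 h4 ht' hd ?_
  · intro e
    apply ht.new_ne
    rw [e]
  · intro a b e0
    exact hn R' (red_prime h1 h2 a b (by rw [lf_length, X_num]) e0.symm)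

/-! ### K (`host (S)()`, new `S(())`, `()()S`) -/

/-- TYPE K with `S` not light -/
def TyKK (F : Set (Cyc k)) (g : DG k) : Prop := ∃ S : BinaryTree Unit, 2 ≤ ht S ∧ TyK S F g

theorem one_ne_two {X A B C : BinaryTree Unit} (h : A ≠ .nil ∨ C ≠ .nil) :
    w1 .nil X .nil ≠ w1 A B C := by
  intro e
  have e1 := congrArg (fun t => (comps t).length) e
  simp only [comps_w1, comps, List.nil_append, List.length_append, List.length_cons,
    List.length_nil] at e1
  rcases h with h | h
  · have := List.length_pos_iff.2 (comps_ne h)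
    omega
  · have := List.length_pos_iff.2 (comps_ne h)
    omega

theorem lf_ne : (.nil △ .nil : BinaryTree Unit) ≠ .nil := by simp

theorem comps_lf : comps (.nil △ .nil) = [.nil] := rfl

theorem dj_KK : Dj (k := k) TyKK TyKK := by
  intro F g F' g' h h' hd
  obtain ⟨S, hS, ht⟩ := h
  obtain ⟨S', hS', ht'⟩ := h'
  have key : ∀ S S' : BinaryTree Unit, 2 ≤ OddHC.ht S → 2 ≤ OddHC.ht S' →
      w1 .nil S (.nil △ .nil) ≠ w1 S' (.nil △ .nil) .nil ∧
      w1 .nil S (.nil △ .nil) ≠ w1 (.nil △ .nil) .nil S' := by
    intro S S' hS hS'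
    constructor
    · intro e
      have e1 := congrArg (fun t => (comps t).reverse) e
      simp only [comps_w1, comps, List.nil_append, List.reverse_append, List.reverse_cons,
        List.reverse_nil, List.singleton_append, List.cons_append, List.cons.injEq] at e1
      exact lf_ne e1.1.symm
    · intro e
      have e1 := congrArg comps e
      simp only [comps_w1, comps, List.nil_append, List.cons_append, List.cons.injEq] at e1
      exact ht2_ne hS e1.1
  refine tri_dis ht ht' hd ?_ (key S S' hS hS').1 (key S S' hS hS').2 (key S' S hS' hS).1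
    (key S' S hS' hS).2
  intro e
  have e1 := congrArg comps e
  simp only [comps_w1, comps, List.nil_append, List.cons.injEq] at e1
  exact ⟨rfl, e1.1, rfl⟩

/-- CONFLICT E-K: `X = (S)` -/
theorem conflict_EK {X S : BinaryTree Unit} (ht : IsTri .nil X .nil F g)
    (ht' : IsTri .nil S (.nil △ .nil) F' g') (hS : 2 ≤ OddHC.ht S) (hd : ∀ c ∈ F, c ∉ F')
    (hr : X ≠ S △ .nil) : ∀ w ∈ g.B, w ∉ g'.B := by
  refine tri_dis ht ht' hd ?_ ?_ ?_ ?_ ?_
  · intro e
    exact absurd e (one_ne_two (Or.inr lf_ne))
  · exact one_ne_two (Or.inl (ht2_ne hS))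
  · exact one_ne_two (Or.inl lf_ne)
  · intro e
    apply hr
    apply comps_inj
    have e1 := congrArg comps e
    simp only [comps_w1, comps, List.nil_append] at e1
    have e2 : [S] ++ [BinaryTree.nil] = comps X ++ [BinaryTree.nil] := e1
    exact (List.append_cancel_right e2).symm
  · intro e
    have e1 := congrArg comps e
    simp only [comps_w1, comps, List.nil_append, List.cons.injEq] at e1
    exact ht2_ne hS e1.1

theorem dj_EnK : Dj (k := k) TyEn TyKK := by
  intro F g F' g' h h' hd
  obtain ⟨j, r, f, hj, hl, hn, ht⟩ := h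
  obtain ⟨S, hS, ht'⟩ := h'
  refine conflict_EK ht ht' hS hd ?_
  intro e0
  have hSn := ht2_ne hS
  -- the reduced word of `(S)` is prime
  have h1 : S = ins (red S).1 (red S).2 := (ins_red S).symm
  by_cases h2 : (red S).1 = .nil
  · -- S would be a pile
    rw [h2] at h1
    have h3 : OddHC.ht S ≤ 1 := by
      rw [h1, ins]
      exact ht_lp _
    omega
  · have h4 : w1 (lp 0) (ins (red S).1 (red S).2) (lp 0) = ins r.1 (lf f) := by
      rw [ins_red, e0]
      rfl
    exact hn _ (red_prime h2 (red_len S) 0 0 (by rw [lf_length, X_num]) h4)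

theorem dj_LK : Dj (k := k) TyL TyKK := by
  intro F g F' g' h h' hd
  obtain ⟨R', e, h1, h2, h3, h4, ht⟩ := h
  obtain ⟨S, hS, ht'⟩ := h'
  have hR : 2 ≤ OddHC.ht (ins R' e) := ht_ins_ge R' e h1
  have hRn := ht2_ne hR
  have hSn := ht2_ne hS
  have hlp : comps (lp 1) = [.nil] := rfl
  refine tri_dis ht ht' hd ?_ ?_ ?_ ?_ ?_
  · intro e0
    have e1 := congrArg comps e0
    simp only [comps_w1, hlp, comps, List.nil_append, List.cons_append, List.cons.injEq] at e1
    exact absurd e1.1.symm hSn
  · intro e0
    have e1 := congrArg (fun t => (comps t).reverse) e0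
    simp only [comps_w1, hlp, comps, List.nil_append, List.reverse_append, List.reverse_cons,
      List.reverse_nil, List.singleton_append, List.cons_append, List.cons.injEq] at e1
    exact lf_ne e1.1.symm
  · intro e0
    have e1 := congrArg comps e0
    simp only [comps_w1, hlp, comps, List.nil_append, List.cons_append, List.cons.injEq] at e1
    exact hRn e1.2.1
  · intro e0
    have e1 := congrArg (fun t => (comps t).length) e0
    have h5 := List.length_pos_iff.2 (comps_ne hRn)
    simp only [comps_w1, hlp, comps, List.nil_append, List.length_append, List.length_cons,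
      List.length_nil] at e1
    omega
  · intro e0
    have e1 := congrArg comps e0
    simp only [comps_w1, hlp, comps, List.nil_append, List.cons_append, List.cons.injEq] at e1
    exact hSn e1.1

end Pool.OddHC
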