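import Pool.Agent.Work.MP_8f87b2_mid.OrdS

/-!
# The order: general keys for windows and late pairs

`muT`: as `muK`, but the key of a window is `-height, 4` and then a list `vw t F`; the key of a late pair of the first kind is
`-height, 4` and then a list `lw F`. The comparisons are fields of `KindT`. `vk`: the list of a window with key content `K`,
slot `b` and last entry `e`; `vk_lt`: a lower content, `vk_lt_e`: same content.
-/

set_option autoImplicit false

namespace Pool.OddHC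

open Finset Equiv Pool.Agent.Work.MP_8f87b2_co

variable {k : ℕ} {τ : Type} {O N : Set (Cyc k)} {G : Set (Set (Cyc k))}
  {P : τ → Set (Cyc k) → DG k → Prop}

/-- kinds -/
inductive Ke
  | pl
  | ee
  | pj
  | hl
  | wn
  deriving DecidableEq

open Classical in
/-- **the measure** -/
noncomputable def muT (LP LJ : Set (Cyc k) → Prop) (r : Set (Cyc k) → ℤ) (lw : Set (Cyc k) → List ℤ)
    (vw : τ → Set (Cyc k) → List ℤ) (kd : τ → Ke) (t : τ) (F : Set (Cyc k)) : List ℤ :=
  match kd t with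
  | .pl => [-((mc F).sup : ℤ), 0]
  | .ee => if LP F then -((mc F).sup : ℤ) :: 4 :: lw F else
      if LJ F then [-((mc F).sup : ℤ), 3] else [-((mc F).sup : ℤ), 0]
  | .pj => [-((mc F).sup : ℤ), 1]
  | .hl => [-((mc F).sup : ℤ), 2, r F]
  | .wn => -((mc F).sup : ℤ) :: 4 :: vw t F

variable {LP LJ : Set (Cyc k) → Prop} {r : Set (Cyc k) → ℤ} {lw : Set (Cyc k) → List ℤ}
  {vw : τ → Set (Cyc k) → List ℤ} {kd : τ → Ke}

theorem muT_hd (t : τ) (F : Set (Cyc k)) : ∃ l, muT LP LJ r lw vw kd t F = -((mc F).sup : ℤ) :: l := by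
  unfold muT
  split
  · exact ⟨_, rfl⟩
  · split_ifs
    · exact ⟨_, rfl⟩
    · exact ⟨_, rfl⟩
    · exact ⟨_, rfl⟩
  · exact ⟨_, rfl⟩
  · exact ⟨_, rfl⟩
  · exact ⟨_, rfl⟩

/-- higher groups come first -/
theorem muT_ht {t t' : τ} {F F' : Set (Cyc k)} (h : (mc F).sup < (mc F').sup) :
    muT LP LJ r lw vw kd t' F' < muT LP LJ r lw vw kd t F := by
  obtain ⟨l, h1⟩ := muT_hd (LP := LP) (LJ := LJ) (r := r) (lw := lw) (vw := vw) (kd := kd) t F
  obtain ⟨l', h2⟩ := muT_hd (LP := LP) (LJ := LJ) (r := r) (lw := lw) (vw := vw) (kd := kd) t' F'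
  rw [h1, h2, List.cons_lt_cons_iff]
  left; omega

/-- an early group: phase 0 -/
def EarlyT (LP LJ : Set (Cyc k) → Prop) (kd : τ → Ke) (t : τ) (F : Set (Cyc k)) : Prop :=
  kd t = .pl ∨ (kd t = .ee ∧ ¬ LP F ∧ ¬ LJ F)

theorem EarlyT.mu {t : τ} {F : Set (Cyc k)} (h : EarlyT LP LJ kd t F) :
    muT LP LJ r lw vw kd t F = [-((mc F).sup : ℤ), 0] := by
  unfold muT
  rcases h with h | ⟨h, h1, h2⟩
  · rw [h]
  · rw [h]
    simp only [if_neg h1, if_neg h2]

/-- **THE DATA OF THE ORDER** -/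
structure KindT (O : Set (Cyc k)) (G : Set (Set (Cyc k))) (P : τ → Set (Cyc k) → DG k → Prop) (pri : τ → ℕ)
    (LP LJ : Set (Cyc k) → Prop) (r : Set (Cyc k) → ℤ) (lw : Set (Cyc k) → List ℤ)
    (vw : τ → Set (Cyc k) → List ℤ) (kd : τ → Ke) : Prop where
  /-- the height of a group is the height of its highest member -/
  top : ∀ F ∈ G, ∀ t g, Fst P pri t F g → ∀ c ∈ F, htc c ≤ (mc F).sup
  /-- plain groups and pairs: all old words are higher -/
  pl : ∀ F ∈ G, ∀ t g, Fst P pri t F g → (kd t = .pl ∨ kd t = .ee) → ∀ w ∈ g.B,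
    cyc w ∈ F ∨ cyc w ∈ O ∨ (mc F).sup < htc (cyc w)
  /-- the other groups: no old word is lower -/
  le : ∀ F ∈ G, ∀ t g, Fst P pri t F g → ∀ w ∈ g.B, cyc w ∈ F ∨ cyc w ∈ O ∨ (mc F).sup ≤ htc (cyc w)
  /-- phase 1 -/
  pj : ∀ F ∈ G, ∀ t g, Fst P pri t F g → kd t = .pj → ∀ w ∈ g.B, cyc w ∉ F → cyc w ∉ O →
    htc (cyc w) = (mc F).sup → ∀ F' ∈ G, cyc w ∈ F' → ∀ t' g', Fst P pri t' F' g' →
      (mc F').sup = (mc F).sup → EarlyT LP LJ kd t' F'
  /-- phase 2 -/
  hl : ∀ F ∈ G, ∀ t g, Fst P pri t F g → kd t = .hl → ∀ w ∈ g.B, cyc w ∉ F → cyc w ∉ O →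
    htc (cyc w) = (mc F).sup → ∀ F' ∈ G, cyc w ∈ F' → ∀ t' g', Fst P pri t' F' g' →
      (mc F').sup = (mc F).sup → EarlyT LP LJ kd t' F' ∨ kd t' = .pj ∨ (kd t' = .hl ∧ r F' < r F)
  /-- windows -/
  win : ∀ F ∈ G, ∀ t g, Fst P pri t F g → kd t = .wn → ∀ w ∈ g.B, cyc w ∉ F → cyc w ∉ O →
    htc (cyc w) = (mc F).sup → ∀ F' ∈ G, cyc w ∈ F' → ∀ t' g', Fst P pri t' F' g' →
      (mc F').sup = (mc F).sup → (kd t' = .wn → vw t' F' < vw t F) ∧ (kd t' = .ee → LP F' → lw F' < vw t F)

theorem KindT.step {pri : τ → ℕ} (h : KindT O G P pri LP LJ r lw vw kd) :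
    ∀ F ∈ G, ∀ t g, Fst P pri t F g → ∀ w ∈ g.B, cyc w ∉ F → cyc w ∉ O →
      ∀ F' ∈ G, cyc w ∈ F' → ∀ t' g', Fst P pri t' F' g' →
        muT LP LJ r lw vw kd t' F' < muT LP LJ r lw vw kd t F := by
  intro F hF t g hg w hw hwF hwO F' hF' hwF' t' g' hg'
  have htop := h.top F' hF' t' g' hg' _ hwF'
  have hle : (mc F).sup ≤ htc (cyc w) := by
    rcases h.le F hF t g hg w hw with h1 | h1 | h1
    · exact absurd h1 hwF
    · exact absurd h1 hwO
    · exact h1
  rcases (hle.trans htop).lt_or_eq with hlt | heq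
  · exact muT_ht hlt
  · have hwh : htc (cyc w) = (mc F).sup := by omega
    have hnpl : kd t ≠ .pl ∧ kd t ≠ .ee := by
      constructor
      · intro h1
        rcases h.pl F hF t g hg (Or.inl h1) w hw with h2 | h2 | h2
        · exact hwF h2
        · exact hwO h2
        · omega
      · intro h1
        rcases h.pl F hF t g hg (Or.inr h1) w hw with h2 | h2 | h2
        · exact hwF h2
        · exact hwO h2
        · omega
    have hE : EarlyT LP LJ kd t' F' → muT LP LJ r lw vw kd t' F' < muT LP LJ r lw vw kd t F := by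
      intro h1
      rw [h1.mu, ← heq]
      unfold muT
      rcases e : kd t with _ | _ | _ | _ | _
      · exact absurd e hnpl.1
      · exact absurd e hnpl.2
      · simp only [List.cons_lt_cons_iff]; right; exact ⟨trivial, Or.inl (by norm_num)⟩
      · simp only [List.cons_lt_cons_iff]; right; exact ⟨trivial, Or.inl (by norm_num)⟩
      · simp only [List.cons_lt_cons_iff]; right; exact ⟨trivial, Or.inl (by norm_num)⟩
    rcases e : kd t with _ | _ | _ | _ | _
    · exact absurd e hnpl.1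
    · exact absurd e hnpl.2
    · exact hE (h.pj F hF t g hg e w hw hwF hwO hwh F' hF' hwF' t' g' hg' heq.symm)
    · rcases h.hl F hF t g hg e w hw hwF hwO hwh F' hF' hwF' t' g' hg' heq.symm with h1 | h1 | ⟨h1, h2⟩
      · exact hE h1
      · unfold muT
        rw [e, h1, ← heq]
        simp only [List.cons_lt_cons_iff]
        right; exact ⟨trivial, Or.inl (by norm_num)⟩
      · unfold muT
        rw [e, h1, ← heq]
        simp only [List.cons_lt_cons_iff]
        right; exact ⟨trivial, Or.inr ⟨trivial, Or.inl h2⟩⟩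
    · obtain ⟨h1, h2⟩ := h.win F hF t g hg e w hw hwF hwO hwh F' hF' hwF' t' g' hg' heq.symm
      by_cases hEa : EarlyT LP LJ kd t' F'
      · exact hE hEa
      · rcases e' : kd t' with _ | _ | _ | _ | _
        · exact absurd (Or.inl e') hEa
        · by_cases hLP : LP F'
          · unfold muT
            rw [e, e', ← heq]
            simp only [if_pos hLP, List.cons_lt_cons_iff]
            right; exact ⟨trivial, Or.inr ⟨trivial, h2 e' hLP⟩⟩
          · have hLJ : LJ F' := by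
              by_contra hLJ
              exact hEa (Or.inr ⟨e', hLP, hLJ⟩)
            unfold muT
            rw [e, e', ← heq]
            simp only [if_neg hLP, if_pos hLJ, List.cons_lt_cons_iff]
            right; exact ⟨trivial, Or.inl (by norm_num)⟩
        · unfold muT
          rw [e, e', ← heq]
          simp only [List.cons_lt_cons_iff]
          right; exact ⟨trivial, Or.inl (by norm_num)⟩
        · unfold muT
          rw [e, e', ← heq]
          simp only [List.cons_lt_cons_iff]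
          right; exact ⟨trivial, Or.inl (by norm_num)⟩
        · unfold muT
          rw [e, e', ← heq]
          simp only [List.cons_lt_cons_iff]
          right; exact ⟨trivial, Or.inr ⟨trivial, h1 e'⟩⟩

/-! ### Comparison for the inner words -/

theorem muT_ww {t t' : τ} {F F' : Set (Cyc k)} (h : kd t = .wn) (h' : kd t' = .wn)
    (hs : (mc F').sup = (mc F).sup) (hv : vw t F < vw t' F') :
    muT LP LJ r lw vw kd t F < muT LP LJ r lw vw kd t' F' := by
  unfold muT
  rw [h, h', hs]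
  simp only [List.cons_lt_cons_iff]
  right; exact ⟨trivial, Or.inr ⟨trivial, hv⟩⟩

/-- a late pair of the first kind comes after a window -/
theorem muT_lp {t t' : τ} {F F' : Set (Cyc k)} (h : kd t = .wn) (h' : kd t' = .ee) (hL : LP F')
    (hs : (mc F').sup = (mc F).sup) (hv : vw t F < lw F') :
    muT LP LJ r lw vw kd t F < muT LP LJ r lw vw kd t' F' := by
  unfold muT
  rw [h, h', hs]
  simp only [if_pos hL, List.cons_lt_cons_iff]
  right; exact ⟨trivial, Or.inr ⟨trivial, hv⟩⟩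

/-- a late pair of the first kind comes after all groups which are no windows -/
theorem muT_lp_early {t t' : τ} {F F' : Set (Cyc k)} (h : kd t ≠ .wn) (h1 : kd t = .ee → ¬ LP F)
    (h' : kd t' = .ee) (hL : LP F') (hs : (mc F').sup = (mc F).sup) :
    muT LP LJ r lw vw kd t F < muT LP LJ r lw vw kd t' F' := by
  unfold muT
  rw [h']
  simp only [if_pos hL, ← hs]
  rcases e : kd t with _ | _ | _ | _ | _
  · simp only [List.cons_lt_cons_iff]; right; exact ⟨trivial, Or.inl (by norm_num)⟩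
  · simp only [if_neg (h1 e)]
    split_ifs <;> (simp only [List.cons_lt_cons_iff]; right; exact ⟨trivial, Or.inl (by norm_num)⟩)
  · simp only [List.cons_lt_cons_iff]; right; exact ⟨trivial, Or.inl (by norm_num)⟩
  · simp only [List.cons_lt_cons_iff]; right; exact ⟨trivial, Or.inl (by norm_num)⟩
  · exact absurd e h

/-- a late pair of the second kind comes after the phases 0, 1, 2 -/
theorem muT_lj {t t' : τ} {F F' : Set (Cyc k)} (h : kd t ≠ .wn) (h1 : kd t = .ee → ¬ LP F ∧ ¬ LJ F)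
    (h' : kd t' = .ee) (hP : ¬ LP F') (hL : LJ F') (hs : (mc F').sup = (mc F).sup) :
    muT LP LJ r lw vw kd t F < muT LP LJ r lw vw kd t' F' := by
  unfold muT
  rw [h']
  simp only [if_neg hP, if_pos hL, ← hs]
  rcases e : kd t with _ | _ | _ | _ | _
  · simp only [List.cons_lt_cons_iff]; right; exact ⟨trivial, Or.inl (by norm_num)⟩
  · simp only [if_neg (h1 e).1, if_neg (h1 e).2]
    simp only [List.cons_lt_cons_iff]; right; exact ⟨trivial, Or.inl (by norm_num)⟩
  · simp only [List.cons_lt_cons_iff]; right; exact ⟨trivial, Or.inl (by norm_num)⟩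
  · simp only [List.cons_lt_cons_iff]; right; exact ⟨trivial, Or.inl (by norm_num)⟩
  · exact absurd e h

/-- windows come after all groups which are no windows and no late pairs of the first kind -/
theorem muT_nw {t t' : τ} {F F' : Set (Cyc k)} (h : kd t ≠ .wn) (h1 : kd t = .ee → ¬ LP F) (h' : kd t' = .wn)
    (hs : (mc F').sup = (mc F).sup) : muT LP LJ r lw vw kd t F < muT LP LJ r lw vw kd t' F' := by
  unfold muT
  rw [h']
  simp only [← hs]
  rcases e : kd t with _ | _ | _ | _ | _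
  · simp only [List.cons_lt_cons_iff]; right; exact ⟨trivial, Or.inl (by norm_num)⟩
  · simp only [if_neg (h1 e)]
    split_ifs <;> (simp only [List.cons_lt_cons_iff]; right; exact ⟨trivial, Or.inl (by norm_num)⟩)
  · simp only [List.cons_lt_cons_iff]; right; exact ⟨trivial, Or.inl (by norm_num)⟩
  · simp only [List.cons_lt_cons_iff]; right; exact ⟨trivial, Or.inl (by norm_num)⟩
  · exact absurd e h

/-! ### The list of a window -/

/-- key content `K`, slot `b`, last entry `e` -/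
noncomputable def vk (K : Multiset ℕ) (b e : ℤ) : List ℤ :=
  [(H1.n3 K : ℤ), b, -(K.count 1 : ℤ), -(H1.sqs K : ℤ), e]

theorem vk_lt {D C : Multiset ℕ} {b b' e e' : ℤ} (h : H1.Lower D C) (hs : D.sup = C.sup)
    (hn : H1.n3 D < H1.n3 C ∨ (H1.n3 D = H1.n3 C ∧ b' ≤ b)) : vk D b' e' < vk C b e := by
  unfold vk
  simp only [List.cons_lt_cons_iff]
  rcases h with h | ⟨h, h2⟩
  · exact absurd hs (by omega)
  · rcases hn with h3 | ⟨h3, h4⟩
    · left; omega
    · right
      refine ⟨by omega, ?_⟩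
      rcases h4.lt_or_eq with h4 | h4
      · left; exact h4
      · right
        refine ⟨h4, ?_⟩
        rcases h2 with h2 | ⟨h2, h5⟩
        · left; omega
        · right
          exact ⟨by omega, Or.inl (by omega)⟩

/-- same content -/
theorem vk_lt_e {C : Multiset ℕ} {b e e' : ℤ} (h : e' < e) : vk C b e' < vk C b e := by
  unfold vk
  simp only [List.cons_lt_cons_iff, true_and, lt_self_iff_false, false_or]
  exact Or.inl h

/-- fewer parts `≥ 3` -/
theorem vk_lt_n {D C : Multiset ℕ} {b b' e e' : ℤ} (h : H1.n3 D < H1.n3 C) : vk D b' e' < vk C b e := by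
  unfold vk
  simp only [List.cons_lt_cons_iff]
  left; omega

/-- the list of a late pair -/
noncomputable def vp (C : Multiset ℕ) : List ℤ := [(H1.n3 C : ℤ) + 1, 1]

theorem vp_lt {D C : Multiset ℕ} {b e : ℤ}
    (h : H1.n3 D + 1 < H1.n3 C ∨ (H1.n3 D + 1 = H1.n3 C ∧ 1 < b)) : vp D < vk C b e := by
  unfold vp vk
  simp only [List.cons_lt_cons_iff]
  rcases h with h2 | ⟨h2, h3⟩
  · left; omega
  · right
    exact ⟨by omega, Or.inl h3⟩

theorem lt_vp {D C : Multiset ℕ} {b e : ℤ}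
    (h : H1.n3 C < H1.n3 D + 1 ∨ (H1.n3 D + 1 = H1.n3 C ∧ b < 1)) : vk C b e < vp D := by
  unfold vp vk
  simp only [List.cons_lt_cons_iff]
  rcases h with h2 | ⟨h2, h3⟩
  · left; omega
  · right
    exact ⟨by omega, Or.inl h3⟩

/-- **THE SYSTEM FROM GROUPS WITH KINDS** -/
theorem KindT.hasSys [Nonempty τ] {pri : τ → ℕ} (h : KindT O G P pri LP LJ r lw vw kd) (hG : GrpOK N G P)
    (hON : ∀ c, c ∈ O ∨ c ∈ N) (hNO : ∀ c ∈ N, c ∉ O) (inn : X k × X k → Set (X k))
    (hF : ∀ t F g, P t F g → ∀ w, w ∈ g.F ↔ cyc w ∈ F)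
    (new : ∀ t F g, P t F g → ∀ c ∈ F, ∃ u ∈ g.B, cyc u = c)
    (old : ∀ t F g, P t F g → ∃ u ∈ g.B, cyc u ∉ F)
    (path : ∀ t F g, P t F g → ∀ a ∈ g.arcs, ∃ n : ℕ, (TT ^ (n + 1)) a.1 = a.2 ∧
      a.1 ∈ g.B ∧ ∀ i < n, (TT ^ (i + 1)) a.1 ∉ g.B ∧ (TT ^ (i + 1)) a.1 ∈ inn a)
    (abs : ∀ t F g, P t F g → g.Abs)
    (dis : ∀ F ∈ G, ∀ F' ∈ G, F ≠ F' → ∀ t g, Fst P pri t F g → ∀ t' g', Fst P pri t' F' g' →
      ∀ w ∈ g.B, w ∉ g'.B)
    (inner : ∀ F ∈ G, ∀ F' ∈ G, F ≠ F' → ∀ t g, Fst P pri t F g → ∀ t' g', Fst P pri t' F' g' →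
      (mc F).sup ≤ (mc F').sup → ∀ a ∈ g.arcs, ∀ w ∈ inn a, cyc w ∉ F → w ∈ g'.B →
        muT LP LJ r lw vw kd t F < muT LP LJ r lw vw kd t' F') :
    HasSys O N (planW G P) (planI G P inn) := by
  refine hG.hasSys hON hNO pri (muT LP LJ r lw vw kd) inn hF new old path abs dis h.step ?_
  intro F hF' F' hF'' hne t g hg t' g' hg' a ha w hw hwF hw'
  rcases lt_or_ge (mc F').sup (mc F).sup with h1 | h1
  · exact muT_ht h1
  · exact inner F hF' F' hF'' hne t g hg t' g' hg' h1 a ha w hw hwF hw'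

end Pool.OddHC
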