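import Pool.Agent.Work.MP_8f87b2_mid.Plan

/-!
# Plans with an arbitrary rank of the groups

`PlanR O N G P rk` : the new T-cycles `N` are cut into the groups `F ∈ G`; every old word of a gadget of `F` lies in `O` or
in a group with a smaller rank (the height plays no role). An inner word of `F` may be a word of a group with a LARGER rank.
-/

set_option autoImplicit false

namespace Pool.OddHC

open Finset Equiv Pool.Agent.Work.MP_8f87b2_co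

variable {k : ℕ}

/-- the data of a plan with an arbitrary rank of the groups -/
structure PlanR {τ : Type} (O N : Set (Cyc k)) (G : Set (Set (Cyc k)))
    (P : τ → Set (Cyc k) → DG k → Prop) (rk : Set (Cyc k) → ℕ) : Prop where
  ne : ∀ F ∈ G, F.Nonempty
  sub : ∀ F ∈ G, ∀ c ∈ F, c ∈ N
  cov : ∀ c ∈ N, ∃ F ∈ G, c ∈ F
  one : ∀ F ∈ G, ∀ F' ∈ G, ∀ c, c ∈ F → c ∈ F' → F = F'
  ex : ∀ F ∈ G, ∃ t g, P t F g
  rank : ∀ t, ∀ F ∈ G, ∀ g, P t F g → ∀ w ∈ g.B, cyc w ∈ F ∨ cyc w ∈ O ∨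
    ∃ F' ∈ G, cyc w ∈ F' ∧ rk F' < rk F

variable {τ : Type} {O N : Set (Cyc k)} {G : Set (Set (Cyc k))}
  {P : τ → Set (Cyc k) → DG k → Prop} {rk : Set (Cyc k) → ℕ}

open Classical in
/-- rank of a T-cycle -/
noncomputable def rkc (G : Set (Set (Cyc k))) (rk : Set (Cyc k) → ℕ) (c : Cyc k) : ℕ :=
  if h : ∃ F ∈ G, c ∈ F then rk h.choose else 0

theorem PlanR.rkc_eq (h : PlanR O N G P rk) {F : Set (Cyc k)} (hF : F ∈ G) {c : Cyc k} (hc : c ∈ F) :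
    rkc G rk c = rk F := by
  have h1 : ∃ F ∈ G, c ∈ F := ⟨F, hF, hc⟩
  have h2 : h1.choose = F := h.one _ h1.choose_spec.1 _ hF c h1.choose_spec.2 hc
  unfold rkc
  rw [dif_pos h1, h2]

/-- **A SYSTEM FROM A PLAN WITH AN ARBITRARY RANK.** -/
theorem PlanR.sys (h : PlanR O N G P rk)
    (inn : X k × X k → Set (X k))
    (hF : ∀ t, ∀ F ∈ G, ∀ g, P t F g → ∀ w, w ∈ g.F ↔ cyc w ∈ F)
    (new : ∀ t, ∀ F ∈ G, ∀ g, P t F g → ∀ c ∈ F, ∃ u ∈ g.B, cyc u = c)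
    (old : ∀ t, ∀ F ∈ G, ∀ g, P t F g → ∃ u ∈ g.B, cyc u ∉ F)
    (dis : ∀ t, ∀ F ∈ G, ∀ g, P t F g → ∀ t', ∀ F' ∈ G, ∀ g', P t' F' g' → F ≠ F' →
      ∀ w ∈ g.B, w ∉ g'.B)
    (path : ∀ t, ∀ F ∈ G, ∀ g, P t F g → ∀ a ∈ g.arcs, ∃ n : ℕ, (TT ^ (n + 1)) a.1 = a.2 ∧
      a.1 ∈ g.B ∧ ∀ i < n, (TT ^ (i + 1)) a.1 ∉ g.B ∧ (TT ^ (i + 1)) a.1 ∈ inn a)
    (inner : ∀ t, ∀ F ∈ G, ∀ g, P t F g → ∀ a ∈ g.arcs, ∀ w ∈ inn a, ∀ t', ∀ F' ∈ G,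
      ∀ g', P t' F' g' → F ≠ F' → rk F' ≤ rk F → w ∉ g'.B)
    (abs : ∀ t, ∀ F ∈ G, ∀ g, P t F g → g.Abs) :
    HasSys O N (planW G P) (planI G P inn) := by
  refine sys_plan O N G P inn (rkc G rk) h.ne h.sub h.cov h.one ?_ h.ex hF new old ?_ dis path ?_ abs
  · intro F hFG c hc d hd
    rw [h.rkc_eq hFG hc, h.rkc_eq hFG hd]
  · intro t F hFG g hg w hw
    rcases h.rank t F hFG g hg w hw with h1 | h1 | ⟨F', hF', h1, h2⟩
    · exact Or.inl h1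
    · exact Or.inr (Or.inl h1)
    · refine Or.inr (Or.inr ⟨h.sub F' hF' _ h1, fun c hc => ?_⟩)
      rw [h.rkc_eq hF' h1, h.rkc_eq hFG hc]
      exact h2
  · intro t F hFG g hg a ha w hw t' F' hFG' g' hg' hne hrk
    refine inner t F hFG g hg a ha w hw t' F' hFG' g' hg' hne ?_
    obtain ⟨c, hc⟩ := h.ne F hFG
    obtain ⟨d, hd⟩ := h.ne F' hFG'
    have h2 := hrk c hc d hd
    rw [h.rkc_eq hFG hc, h.rkc_eq hFG' hd] at h2
    exact h2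

end Pool.OddHC
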