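import Pool.Agent.Work.MP_8f87b2_mid.Rank

/-!
# Plans with an arbitrary order of the windows of one height

Plain groups `Gp` (every old word is higher) are free; a window group `F` has a number `ord F < Om`, and every old word of
the same height which lies in a window group `F'` must have `ord F' < ord F`.
-/

set_option autoImplicit false

namespace Pool.OddHC

open Finset Equiv Pool.Agent.Work.MP_8f87b2_co

variable {k : ℕ}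

/-- the data of a plan with plain groups `Gp`, windows `Gw`, heights `hg`, order `ord` of the windows of one height -/
structure PlanO {τ : Type} (O N : Set (Cyc k)) (Gp Gw : Set (Set (Cyc k)))
    (P : τ → Set (Cyc k) → DG k → Prop) (hg : Set (Cyc k) → ℕ) (ord : Set (Cyc k) → ℕ) (Om : ℕ) : Prop where
  ne : ∀ F ∈ Gp ∪ Gw, F.Nonempty
  sub : ∀ F ∈ Gp ∪ Gw, ∀ c ∈ F, c ∈ N
  cov : ∀ c ∈ N, ∃ F ∈ Gp ∪ Gw, c ∈ F
  one : ∀ F ∈ Gp ∪ Gw, ∀ F' ∈ Gp ∪ Gw, ∀ c, c ∈ F → c ∈ F' → F = F'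
  pw : ∀ F ∈ Gp, F ∉ Gw
  ex : ∀ F ∈ Gp ∪ Gw, ∃ t g, P t F g
  /-- all T-cycles of a group have the height `hg F` -/
  ht : ∀ F ∈ Gp ∪ Gw, ∀ c ∈ F, htc c = hg F
  /-- the order numbers are bounded -/
  om : ∀ F ∈ Gw, ord F < Om
  /-- plain: every old word is higher -/
  rp : ∀ t, ∀ F ∈ Gp, ∀ g, P t F g → ∀ w ∈ g.B, cyc w ∈ F ∨ cyc w ∈ O ∨
    (cyc w ∈ N ∧ hg F < htc (cyc w))
  /-- windows: every old word is higher, or in a plain group of the same height, or in an older window -/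
  rw : ∀ t, ∀ F ∈ Gw, ∀ g, P t F g → ∀ w ∈ g.B, cyc w ∈ F ∨ cyc w ∈ O ∨
    (cyc w ∈ N ∧ hg F < htc (cyc w)) ∨ (∃ F' ∈ Gp, cyc w ∈ F' ∧ hg F' = hg F) ∨
    ∃ F' ∈ Gw, cyc w ∈ F' ∧ hg F' = hg F ∧ ord F' < ord F

variable {τ : Type} {O N : Set (Cyc k)} {Gp Gw : Set (Set (Cyc k))}
  {P : τ → Set (Cyc k) → DG k → Prop} {hg ord : Set (Cyc k) → ℕ} {Om : ℕ}

open Classical in
/-- rank of a T-cycle -/
noncomputable def rkO (Om : ℕ) (ord : Set (Cyc k) → ℕ) (Gw : Set (Set (Cyc k))) (c : Cyc k) : ℕ :=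
  if h : ∃ F ∈ Gw, c ∈ F then (k - htc c) * (Om + 1) + (1 + ord h.choose)
  else (k - htc c) * (Om + 1)

theorem PlanO.rk_w (h : PlanO O N Gp Gw P hg ord Om) {F : Set (Cyc k)} (hF : F ∈ Gw) {c : Cyc k}
    (hc : c ∈ F) : rkO Om ord Gw c = (k - hg F) * (Om + 1) + (1 + ord F) := by
  have h1 : ∃ F ∈ Gw, c ∈ F := ⟨F, hF, hc⟩
  have h2 : h1.choose = F := h.one _ (Or.inr h1.choose_spec.1) _ (Or.inr hF) c h1.choose_spec.2 hc
  unfold rkO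
  rw [dif_pos h1, h2, h.ht F (Or.inr hF) c hc]

theorem PlanO.rk_p (h : PlanO O N Gp Gw P hg ord Om) {F : Set (Cyc k)} (hF : F ∈ Gp) {c : Cyc k}
    (hc : c ∈ F) : rkO Om ord Gw c = (k - hg F) * (Om + 1) := by
  have h1 : ¬ ∃ F ∈ Gw, c ∈ F := by
    rintro ⟨F', hF', hc'⟩
    have := h.one F (Or.inl hF) F' (Or.inr hF') c hc hc'
    subst this
    exact h.pw _ hF hF'
  unfold rkO
  rw [dif_neg h1, h.ht F (Or.inl hF) c hc]

/-- higher T-cycles have a smaller rank -/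
theorem PlanO.rk_ht (h : PlanO O N Gp Gw P hg ord Om) {c d : Cyc k}
    (hc : c ∈ N) (hd : d ∈ N) (hlt : htc c < htc d) : rkO Om ord Gw d < rkO Om ord Gw c := by
  have hb : rkO Om ord Gw d < (k - htc d) * (Om + 1) + (Om + 1) := by
    obtain ⟨F, hF, hdF⟩ := h.cov d hd
    rcases hF with hF | hF
    · rw [h.rk_p hF hdF, h.ht F (Or.inl hF) d hdF]
      omega
    · rw [h.rk_w hF hdF, h.ht F (Or.inr hF) d hdF]
      have := h.om F hF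
      omega
  have ha : (k - htc c) * (Om + 1) ≤ rkO Om ord Gw c := by
    obtain ⟨F, hF, hcF⟩ := h.cov c hc
    rcases hF with hF | hF
    · rw [h.rk_p hF hcF, h.ht F (Or.inl hF) c hcF]
    · rw [h.rk_w hF hcF, h.ht F (Or.inr hF) c hcF]
      omega
  have h1 := htc_le d
  have h2 : (k - htc d + 1) * (Om + 1) ≤ (k - htc c) * (Om + 1) := Nat.mul_le_mul_right _ (by omega)
  rw [add_mul, one_mul] at h2
  omega

/-- **A SYSTEM FROM A PLAN WITH AN ORDER OF THE WINDOWS.** -/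
theorem PlanO.sys (h : PlanO O N Gp Gw P hg ord Om)
    (inn : X k × X k → Set (X k))
    (hF : ∀ t, ∀ F ∈ Gp ∪ Gw, ∀ g, P t F g → ∀ w, w ∈ g.F ↔ cyc w ∈ F)
    (new : ∀ t, ∀ F ∈ Gp ∪ Gw, ∀ g, P t F g → ∀ c ∈ F, ∃ u ∈ g.B, cyc u = c)
    (old : ∀ t, ∀ F ∈ Gp ∪ Gw, ∀ g, P t F g → ∃ u ∈ g.B, cyc u ∉ F)
    (dis : ∀ t, ∀ F ∈ Gp ∪ Gw, ∀ g, P t F g → ∀ t', ∀ F' ∈ Gp ∪ Gw, ∀ g', P t' F' g' → F ≠ F' →
      ∀ w ∈ g.B, w ∉ g'.B)
    (path : ∀ t, ∀ F ∈ Gp ∪ Gw, ∀ g, P t F g → ∀ a ∈ g.arcs, ∃ n : ℕ, (TT ^ (n + 1)) a.1 = a.2 ∧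
      a.1 ∈ g.B ∧ ∀ i < n, (TT ^ (i + 1)) a.1 ∉ g.B ∧ (TT ^ (i + 1)) a.1 ∈ inn a)
    (inner : ∀ t, ∀ F ∈ Gp ∪ Gw, ∀ g, P t F g → ∀ a ∈ g.arcs, ∀ w ∈ inn a, ∀ t', ∀ F' ∈ Gp ∪ Gw,
      ∀ g', P t' F' g' → F ≠ F' → hg F ≤ hg F' → w ∉ g'.B)
    (abs : ∀ t, ∀ F ∈ Gp ∪ Gw, ∀ g, P t F g → g.Abs) :
    HasSys O N (planW (Gp ∪ Gw) P) (planI (Gp ∪ Gw) P inn) := by
  have hsame : ∀ F ∈ Gp ∪ Gw, ∀ c ∈ F, ∀ d ∈ F, rkO Om ord Gw c = rkO Om ord Gw d := by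
    intro F hFG c hc d hd
    rcases hFG with hFG | hFG
    · rw [h.rk_p hFG hc, h.rk_p hFG hd]
    · rw [h.rk_w hFG hc, h.rk_w hFG hd]
  refine sys_plan O N (Gp ∪ Gw) P inn (rkO Om ord Gw) h.ne h.sub h.cov h.one hsame h.ex hF new old
    ?_ dis path ?_ abs
  · intro t F hFG g hg' w hw
    have hup : ∀ F : Set (Cyc k), F ∈ Gp ∪ Gw → cyc w ∈ N → hg F < htc (cyc w) →
        ∀ c ∈ F, rkO Om ord Gw (cyc w) < rkO Om ord Gw c := by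
      intro F hF1 h1 h2 c hc
      refine h.rk_ht (h.sub F hF1 c hc) h1 ?_
      rw [h.ht F hF1 c hc]
      exact h2
    rcases hFG with hFG | hFG
    · rcases h.rp t F hFG g hg' w hw with h1 | h1 | ⟨h1, h2⟩
      · exact Or.inl h1
      · exact Or.inr (Or.inl h1)
      · exact Or.inr (Or.inr ⟨h1, hup F (Or.inl hFG) h1 h2⟩)
    · rcases h.rw t F hFG g hg' w hw with h1 | h1 | ⟨h1, h2⟩ | ⟨F', hF', h1, h2⟩ | ⟨F', hF', h1, h2, h3⟩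
      · exact Or.inl h1
      · exact Or.inr (Or.inl h1)
      · exact Or.inr (Or.inr ⟨h1, hup F (Or.inr hFG) h1 h2⟩)
      · refine Or.inr (Or.inr ⟨h.sub F' (Or.inl hF') _ h1, fun c hc => ?_⟩)
        rw [h.rk_p hF' h1, h.rk_w hFG hc, h2]
        omega
      · refine Or.inr (Or.inr ⟨h.sub F' (Or.inr hF') _ h1, fun c hc => ?_⟩)
        rw [h.rk_w hF' h1, h.rk_w hFG hc, h2]
        omega
  · intro t F hFG g hg1 a ha w hw t' F' hFG' g' hg2 hne hrk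
    refine inner t F hFG g hg1 a ha w hw t' F' hFG' g' hg2 hne ?_
    obtain ⟨c, hc⟩ := h.ne F hFG
    obtain ⟨d, hd⟩ := h.ne F' hFG'
    by_contra hcon
    have h3 := h.ht F hFG c hc
    have h4 := h.ht F' hFG' d hd
    have h1 := h.rk_ht (h.sub F' hFG' d hd) (h.sub F hFG c hc) (by omega)
    have h2 := hrk c hc d hd
    omega

/-- **A SYSTEM FROM A PLAN WITH AN ORDER OF THE WINDOWS, weak form of `inner`**: an inner word of `F` may be a word of a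
group `F'` which comes LATER (lower, or a later window of the same height; any window if `F` is plain). -/
theorem PlanO.sys' (h : PlanO O N Gp Gw P hg ord Om)
    (inn : X k × X k → Set (X k))
    (hF : ∀ t, ∀ F ∈ Gp ∪ Gw, ∀ g, P t F g → ∀ w, w ∈ g.F ↔ cyc w ∈ F)
    (new : ∀ t, ∀ F ∈ Gp ∪ Gw, ∀ g, P t F g → ∀ c ∈ F, ∃ u ∈ g.B, cyc u = c)
    (old : ∀ t, ∀ F ∈ Gp ∪ Gw, ∀ g, P t F g → ∃ u ∈ g.B, cyc u ∉ F)
    (dis : ∀ t, ∀ F ∈ Gp ∪ Gw, ∀ g, P t F g → ∀ t', ∀ F' ∈ Gp ∪ Gw, ∀ g', P t' F' g' → F ≠ F' →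
      ∀ w ∈ g.B, w ∉ g'.B)
    (path : ∀ t, ∀ F ∈ Gp ∪ Gw, ∀ g, P t F g → ∀ a ∈ g.arcs, ∃ n : ℕ, (TT ^ (n + 1)) a.1 = a.2 ∧
      a.1 ∈ g.B ∧ ∀ i < n, (TT ^ (i + 1)) a.1 ∉ g.B ∧ (TT ^ (i + 1)) a.1 ∈ inn a)
    (inner : ∀ t, ∀ F ∈ Gp ∪ Gw, ∀ g, P t F g → ∀ a ∈ g.arcs, ∀ w ∈ inn a, ∀ t', ∀ F' ∈ Gp ∪ Gw,
      ∀ g', P t' F' g' → F ≠ F' →
      (hg F < hg F' ∨ (hg F' = hg F ∧ (F' ∈ Gp ∨ (F ∈ Gw ∧ F' ∈ Gw ∧ ord F' ≤ ord F)))) → w ∉ g'.B)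
    (abs : ∀ t, ∀ F ∈ Gp ∪ Gw, ∀ g, P t F g → g.Abs) :
    HasSys O N (planW (Gp ∪ Gw) P) (planI (Gp ∪ Gw) P inn) := by
  have hsame : ∀ F ∈ Gp ∪ Gw, ∀ c ∈ F, ∀ d ∈ F, rkO Om ord Gw c = rkO Om ord Gw d := by
    intro F hFG c hc d hd
    rcases hFG with hFG | hFG
    · rw [h.rk_p hFG hc, h.rk_p hFG hd]
    · rw [h.rk_w hFG hc, h.rk_w hFG hd]
  refine sys_plan O N (Gp ∪ Gw) P inn (rkO Om ord Gw) h.ne h.sub h.cov h.one hsame h.ex hF new old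
    ?_ dis path ?_ abs
  · intro t F hFG g hg' w hw
    have hup : ∀ F : Set (Cyc k), F ∈ Gp ∪ Gw → cyc w ∈ N → hg F < htc (cyc w) →
        ∀ c ∈ F, rkO Om ord Gw (cyc w) < rkO Om ord Gw c := by
      intro F hF1 h1 h2 c hc
      refine h.rk_ht (h.sub F hF1 c hc) h1 ?_
      rw [h.ht F hF1 c hc]
      exact h2
    rcases hFG with hFG | hFG
    · rcases h.rp t F hFG g hg' w hw with h1 | h1 | ⟨h1, h2⟩
      · exact Or.inl h1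
      · exact Or.inr (Or.inl h1)
      · exact Or.inr (Or.inr ⟨h1, hup F (Or.inl hFG) h1 h2⟩)
    · rcases h.rw t F hFG g hg' w hw with h1 | h1 | ⟨h1, h2⟩ | ⟨F', hF', h1, h2⟩ | ⟨F', hF', h1, h2, h3⟩
      · exact Or.inl h1
      · exact Or.inr (Or.inl h1)
      · exact Or.inr (Or.inr ⟨h1, hup F (Or.inr hFG) h1 h2⟩)
      · refine Or.inr (Or.inr ⟨h.sub F' (Or.inl hF') _ h1, fun c hc => ?_⟩)
        rw [h.rk_p hF' h1, h.rk_w hFG hc, h2]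
        omega
      · refine Or.inr (Or.inr ⟨h.sub F' (Or.inr hF') _ h1, fun c hc => ?_⟩)
        rw [h.rk_w hF' h1, h.rk_w hFG hc, h2]
        omega
  · intro t F hFG g hg1 a ha w hw t' F' hFG' g' hg2 hne hrk
    refine inner t F hFG g hg1 a ha w hw t' F' hFG' g' hg2 hne ?_
    obtain ⟨c, hc⟩ := h.ne F hFG
    obtain ⟨d, hd⟩ := h.ne F' hFG'
    have h3 := h.ht F hFG c hc
    have h4 := h.ht F' hFG' d hd
    have h2 := hrk c hc d hd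
    rcases lt_trichotomy (hg F) (hg F') with hl | he | hl
    · exact Or.inl hl
    · refine Or.inr ⟨he.symm, ?_⟩
      rcases hFG' with hp | hw'
      · exact Or.inl hp
      · rcases hFG with hp | hw''
        · exfalso
          rw [h.rk_w hw' hd, h.rk_p hp hc, he] at h2
          omega
        · rw [h.rk_w hw' hd, h.rk_w hw'' hc, he] at h2
          exact Or.inr ⟨hw'', hw', by omega⟩
    · exfalso
      have h1 := h.rk_ht (h.sub F' hFG' d hd) (h.sub F hFG c hc) (by omega)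
      omega

end Pool.OddHC
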