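import Pool.Agent.Work.MP_8f87b2_mid.Dis

/-!
# Content links against plain triples

`TyCr`: `R[b]; [b-1]()R`, host `(R)[b-1]`, `b` even (`c = b - 1` odd); `TyCl`: the mirror image, `b` odd.
-/

set_option autoImplicit false

namespace Pool.OddHC

open Finset Equiv BinaryTree Pool.Agent.Work.MP_8f87b2_co

variable {k : ℕ} {F F' : Set (Cyc k)} {g g' : DG k}

/-- content link, right, `b = c + 1` even -/
def TyCr (F : Set (Cyc k)) (g : DG k) : Prop :=
  ∃ (c : ℕ) (R : BinaryTree Unit), 2 ≤ c ∧ c + 1 ≤ ht R ∧ Odd c ∧ TyC c R F g

/-- content link, left, `b = c + 1` odd -/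
def TyCl (F : Set (Cyc k)) (g : DG k) : Prop :=
  ∃ (c : ℕ) (R : BinaryTree Unit), 2 ≤ c ∧ c + 1 ≤ ht R ∧ Even c ∧ TyC' c R F g

theorem comps_ch' {c : ℕ} (h : 1 ≤ c) : comps (H1.ch c) = [H1.ch (c - 1)] := by
  obtain ⟨c, rfl⟩ : ∃ c', c = c' + 1 := ⟨c - 1, by omega⟩
  rfl

theorem ch_ne {c : ℕ} (h : 1 ≤ c) : H1.ch c ≠ .nil := by
  obtain ⟨c, rfl⟩ : ∃ c', c = c' + 1 := ⟨c - 1, by omega⟩
  change H1.ch c △ .nil ≠ .nil
  simp

theorem ch_ne2 {c : ℕ} (h : 2 ≤ c) : H1.ch (c - 1) ≠ .nil := ch_ne (by omega)

theorem ht_ge_ne {R : BinaryTree Unit} {n : ℕ} (h : n + 1 ≤ ht R) : R ≠ .nil := by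
  rintro rfl
  rw [ht] at h
  omega

/-- the words of a right link start with a component of height `> 1` and end with one -/
theorem rev_inj {a b : List (BinaryTree Unit)} (h : a = b) : a.reverse = b.reverse := by rw [h]

theorem dj_ECr : Dj (k := k) TyE TyCr := by
  intro F g F' g' h h' hd
  obtain ⟨X, hX, ht, -⟩ := h.data
  obtain ⟨c, R, hc, hR, -, ht'⟩ := h'
  have hRn := ht_ge_ne hR
  have hch := ch_ne (show 1 ≤ c by omega)
  refine tri_dis ht ht' hd ?_ ?_ ?_ ?_ ?_
  · intro e; exact absurd e (one_ne_two (Or.inr hch))
  · exact one_ne_two (Or.inl hRn)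
  · exact one_ne_two (Or.inl hch)
  · intro e
    have e1 := rev_inj (congrArg comps e)
    simp only [comps_w1, comps, List.nil_append, comps_ch' (show 1 ≤ c by omega),
      List.reverse_append, List.reverse_cons, List.reverse_nil, List.singleton_append,
      List.cons_append, List.cons.injEq] at e1
    exact ch_ne2 hc e1.1
  · intro e
    have e1 := congrArg comps e
    simp only [comps_w1, comps, List.nil_append, List.cons.injEq] at e1
    exact hRn e1.1

theorem dj_ECl : Dj (k := k) TyE TyCl := by
  intro F g F' g' h h' hd
  obtain ⟨X, hX, ht, -⟩ := h.data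
  obtain ⟨c, R, hc, hR, -, ht'⟩ := h'
  have hRn := ht_ge_ne hR
  have hch := ch_ne (show 1 ≤ c by omega)
  refine tri_dis ht ht' hd ?_ ?_ ?_ ?_ ?_
  · intro e; exact absurd e (one_ne_two (Or.inl hch))
  · exact one_ne_two (Or.inl hRn)
  · intro e
    have e1 := congrArg comps e
    simp only [comps_w1, comps, List.nil_append, comps_ch' (show 1 ≤ c by omega)] at e1
    have e2 := congrArg List.length e1
    simp at e2
    exact comps_ne hRn e2
  · intro e
    have e1 := rev_inj (congrArg comps e)
    simp only [comps_w1, comps, List.nil_append, comps_ch' (show 1 ≤ c by omega),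
      List.reverse_append, List.reverse_cons, List.reverse_nil, List.singleton_append,
      List.cons_append, List.cons.injEq] at e1
    exact hRn e1.1
  · intro e
    have e1 := congrArg comps e
    simp only [comps_w1, comps, List.nil_append, comps_ch' (show 1 ≤ c by omega),
      List.cons_append, List.cons.injEq] at e1
    exact ch_ne2 hc e1.1

theorem dj_LCr : Dj (k := k) TyL TyCr := by
  intro F g F' g' h h' hd
  obtain ⟨R', e, h1, h2, h3, h4, ht⟩ := h
  obtain ⟨c, R, hc, hR, -, ht'⟩ := h'
  have hRn := ht_ge_ne hR
  have hlp : comps (lp 1) = [.nil] := rfl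
  refine tri_dis ht ht' hd ?_ ?_ ?_ ?_ ?_
  · intro e
    have e1 := congrArg comps e
    simp only [comps_w1, hlp, comps, List.nil_append, List.cons_append, List.cons.injEq] at e1
    exact absurd e1.1.symm hRn
  · intro e
    have e1 := rev_inj (congrArg comps e)
    simp only [comps_w1, hlp, comps, List.nil_append, List.reverse_append, List.reverse_cons,
      List.reverse_nil, List.singleton_append, List.cons_append, List.cons.injEq] at e1
    exact ch_ne (show 1 ≤ c by omega) e1.1.symm
  · intro e
    have e1 := congrArg comps e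
    simp only [comps_w1, hlp, comps, List.nil_append, comps_ch' (show 1 ≤ c by omega),
      List.cons_append, List.cons.injEq] at e1
    exact ch_ne2 hc e1.1.symm
  · intro e
    have e1 := rev_inj (congrArg comps e)
    simp only [comps_w1, hlp, comps, List.nil_append, comps_ch' (show 1 ≤ c by omega),
      List.reverse_append, List.reverse_cons,
      List.reverse_nil, List.singleton_append, List.cons_append, List.cons.injEq] at e1
    exact ch_ne2 hc e1.1
  · intro e
    have e1 := congrArg comps e
    simp only [comps_w1, hlp, comps, List.nil_append, List.cons_append, List.cons.injEq] at e1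
    exact hRn e1.1

theorem dj_LCl : Dj (k := k) TyL TyCl := by
  intro F g F' g' h h' hd
  obtain ⟨R', e, h1, h2, h3, h4, ht⟩ := h
  obtain ⟨c, R, hc, hR, -, ht'⟩ := h'
  have hRn := ht_ge_ne hR
  have hlp : comps (lp 1) = [.nil] := rfl
  refine tri_dis ht ht' hd ?_ ?_ ?_ ?_ ?_
  · intro e
    have e1 := congrArg comps e
    simp only [comps_w1, hlp, comps, List.nil_append, comps_ch' (show 1 ≤ c by omega),
      List.cons_append, List.cons.injEq] at e1
    exact absurd e1.1.symm (ch_ne2 hc)
  · intro e
    have e1 := rev_inj (congrArg comps e)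
    simp only [comps_w1, hlp, comps, List.nil_append, comps_ch' (show 1 ≤ c by omega),
      List.reverse_append, List.reverse_cons,
      List.reverse_nil, List.singleton_append, List.cons_append, List.cons.injEq] at e1
    exact ch_ne2 hc e1.1.symm
  · intro e
    have e1 := congrArg comps e
    simp only [comps_w1, hlp, comps, List.nil_append, List.cons_append, List.cons.injEq] at e1
    exact ch_ne (show 1 ≤ c by omega) e1.1.symm
  · intro e
    have e1 := rev_inj (congrArg comps e)
    simp only [comps_w1, hlp, comps, List.nil_append,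
      List.reverse_append, List.reverse_cons,
      List.reverse_nil, List.singleton_append, List.cons_append, List.cons.injEq] at e1
    exact hRn e1.1
  · intro e
    have e1 := congrArg comps e
    simp only [comps_w1, hlp, comps, List.nil_append, comps_ch' (show 1 ≤ c by omega),
      List.cons_append, List.cons.injEq] at e1
    exact ch_ne2 hc e1.1

theorem dj_KCr : Dj (k := k) TyKK TyCr := by
  intro F g F' g' h h' hd
  obtain ⟨S, hS, ht⟩ := h
  obtain ⟨c, R, hc, hR, ho, ht'⟩ := h'
  have hRn := ht_ge_ne hR
  have hSn := ht2_ne hS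
  have hc1 := comps_ch' (show 1 ≤ c by omega)
  refine tri_dis ht ht' hd ?_ ?_ ?_ ?_ ?_
  · intro e
    have e1 := rev_inj (congrArg comps e)
    simp only [comps_w1, hc1, comps, List.nil_append, List.reverse_append, List.reverse_cons,
      List.reverse_nil, List.singleton_append, List.cons_append, List.cons.injEq] at e1
    exact absurd e1.1.symm (ch_ne2 hc)
  · intro e
    have e1 := rev_inj (congrArg comps e)
    simp only [comps_w1, comps, List.nil_append, List.reverse_append, List.reverse_cons,
      List.reverse_nil, List.singleton_append, List.cons_append, List.cons.injEq] at e1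
    exact ch_ne (show 1 ≤ c by omega) e1.1.symm
  · intro e
    have e1 := congrArg comps e
    have h5 := List.length_pos_iff.2 (comps_ne hRn)
    simp only [comps_w1, hc1, comps, List.nil_append, List.cons_append] at e1
    have e2 := congrArg List.length e1
    simp only [List.length_cons, List.length_nil] at e2
    omega
  · intro e
    have e1 := rev_inj (congrArg comps e)
    simp only [comps_w1, hc1, comps, List.nil_append, List.reverse_append, List.reverse_cons,
      List.reverse_nil, List.singleton_append, List.cons_append, List.cons.injEq] at e1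
    -- [c] = (()) : c = 2 is even
    have e2 : H1.ch (c - 1) = H1.ch 1 := e1.1
    have e3 := H1.ch_inj e2
    have : c = 2 := by omega
    subst this
    exact absurd ho (by decide)
  · intro e
    have e1 := congrArg comps e
    simp only [comps_w1, comps, List.nil_append, List.cons_append, List.cons.injEq] at e1
    exact hRn e1.1

theorem dj_KCl : Dj (k := k) TyKK TyCl := by
  intro F g F' g' h h' hd
  obtain ⟨S, hS, ht⟩ := h
  obtain ⟨c, R, hc, hR, ho, ht'⟩ := h'
  have hRn := ht_ge_ne hR
  have hSn := ht2_ne hS
  have hc1 := comps_ch' (show 1 ≤ c by omega)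
  refine tri_dis ht ht' hd ?_ ?_ ?_ ?_ ?_
  · intro e
    have e1 := rev_inj (congrArg comps e)
    simp only [comps_w1, hc1, comps, List.nil_append, List.reverse_append, List.reverse_cons,
      List.reverse_nil, List.singleton_append, List.cons_append, List.cons.injEq] at e1
    exact absurd e1.1.symm hRn
  · intro e
    -- (S)() = R()[c]
    have e1 := congrArg comps e
    have h5 := List.length_pos_iff.2 (comps_ne hRn)
    simp only [comps_w1, hc1, comps, List.nil_append, List.cons_append] at e1
    have e2 := congrArg List.length e1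
    simp only [List.length_append, List.length_cons, List.length_nil] at e2
    omega
  · intro e
    -- (S)() = [c+1] R
    have e1 := congrArg comps e
    simp only [comps_w1, comps, List.nil_append, List.cons.injEq] at e1
    have e2 : R = .nil △ .nil := comps_inj (e1.2.symm.trans rfl)
    rw [e2] at hR
    change c + 1 ≤ 1 at hR
    omega
  · intro e
    -- [c](R) = S(())
    have e1 := rev_inj (congrArg comps e)
    simp only [comps_w1, hc1, comps, List.nil_append, List.reverse_append, List.reverse_cons,
      List.reverse_nil, List.singleton_append, List.cons_append, List.cons.injEq] at e1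
    rw [e1.1] at hR
    change c + 1 ≤ 1 at hR
    omega
  · intro e
    have e1 := congrArg comps e
    simp only [comps_w1, hc1, comps, List.nil_append, List.cons_append, List.cons.injEq] at e1
    exact ch_ne2 hc e1.1

theorem dj_CrCr : Dj (k := k) TyCr TyCr := by
  intro F g F' g' h h' hd
  obtain ⟨c, R, hc, hR, ho, ht⟩ := h
  obtain ⟨c', R', hc', hR', ho', ht'⟩ := h'
  have key : ∀ (c c' : ℕ) (R R' : BinaryTree Unit), 2 ≤ c → c + 1 ≤ OddHC.ht R → Odd c → 2 ≤ c' →
      c' + 1 ≤ OddHC.ht R' → Odd c' → w1 .nil R (H1.ch c) ≠ w1 R' (H1.ch c') .nil ∧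
      w1 .nil R (H1.ch c) ≠ w1 (H1.ch c') .nil R' := by
    intro c c' R R' hc hR ho hc' hR' ho'
    have hRn' := ht_ge_ne hR'
    have hc1 := comps_ch' (show 1 ≤ c by omega)
    have hc1' := comps_ch' (show 1 ≤ c' by omega)
    constructor
    · intro e
      have e1 := rev_inj (congrArg comps e)
      simp only [comps_w1, hc1, comps, List.nil_append, List.reverse_append, List.reverse_cons,
        List.reverse_nil, List.singleton_append, List.cons_append, List.cons.injEq] at e1
      have e2 := H1.ch_inj e1.1
      have e3 : c = c' + 1 := by omega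
      rw [e3] at ho
      obtain ⟨x, hx⟩ := ho
      obtain ⟨y, hy⟩ := ho'
      omega
    · intro e
      have e1 := congrArg (fun t => (comps t).length) e
      have h5 := List.length_pos_iff.2 (comps_ne hRn')
      simp only [comps_w1, hc1, hc1', comps, List.nil_append, List.cons_append, List.length_cons,
        List.length_nil] at e1
      omega
  refine tri_dis ht ht' hd ?_ (key c c' R R' hc hR ho hc' hR' ho').1
    (key c c' R R' hc hR ho hc' hR' ho').2 (key c' c R' R hc' hR' ho' hc hR ho).1
    (key c' c R' R hc' hR' ho' hc hR ho).2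
  intro e
  have e1 := congrArg comps e
  simp only [comps_w1, comps, List.nil_append, List.cons.injEq] at e1
  exact ⟨rfl, e1.1, comps_inj e1.2⟩

theorem dj_ClCl : Dj (k := k) TyCl TyCl := by
  intro F g F' g' h h' hd
  obtain ⟨c, R, hc, hR, ho, ht⟩ := h
  obtain ⟨c', R', hc', hR', ho', ht'⟩ := h'
  have key : ∀ (c c' : ℕ) (R R' : BinaryTree Unit), 2 ≤ c → c + 1 ≤ OddHC.ht R → Even c → 2 ≤ c' →
      c' + 1 ≤ OddHC.ht R' → Even c' → w1 (H1.ch c) R .nil ≠ w1 R' .nil (H1.ch c') ∧
      w1 (H1.ch c) R .nil ≠ w1 .nil (H1.ch c') R' := by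
    intro c c' R R' hc hR ho hc' hR' ho'
    have hRn' := ht_ge_ne hR'
    have hc1 := comps_ch' (show 1 ≤ c by omega)
    have hc1' := comps_ch' (show 1 ≤ c' by omega)
    constructor
    · intro e
      have e1 := congrArg (fun t => (comps t).length) e
      have h5 := List.length_pos_iff.2 (comps_ne hRn')
      simp only [comps_w1, hc1, hc1', comps, List.nil_append, List.cons_append, List.length_cons,
        List.length_nil, List.length_append] at e1
      omega
    · intro e
      have e1 := congrArg comps e
      simp only [comps_w1, hc1, comps, List.nil_append, List.cons_append, List.cons.injEq] at e1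
      have e2 := H1.ch_inj e1.1
      have e3 : c = c' + 1 := by omega
      rw [e3] at ho
      obtain ⟨x, hx⟩ := ho
      obtain ⟨y, hy⟩ := ho'
      omega
  refine tri_dis ht ht' hd ?_ (key c c' R R' hc hR ho hc' hR' ho').1
    (key c c' R R' hc hR ho hc' hR' ho').2 (key c' c R' R hc' hR' ho' hc hR ho).1
    (key c' c R' R hc' hR' ho' hc hR ho).2
  intro e
  have hc1 := comps_ch' (show 1 ≤ c by omega)
  have hc1' := comps_ch' (show 1 ≤ c' by omega)
  have e1 := congrArg comps e
  simp only [comps_w1, hc1, hc1', comps, List.cons_append, List.nil_append, List.cons.injEq] at e1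
  have e2 := H1.ch_inj e1.1
  have e3 : c = c' := by omega
  exact ⟨by rw [e3], e1.2.1, rfl⟩

theorem dj_CrCl : Dj (k := k) TyCr TyCl := by
  intro F g F' g' h h' hd
  obtain ⟨c, R, hc, hR, ho, ht⟩ := h
  obtain ⟨c', R', hc', hR', ho', ht'⟩ := h'
  have hc1 := comps_ch' (show 1 ≤ c by omega)
  have hc1' := comps_ch' (show 1 ≤ c' by omega)
  have hRn := ht_ge_ne hR
  have hRn' := ht_ge_ne hR'
  have hch : ∀ n, OddHC.ht (H1.ch n) = n := H1.ch_ht
  refine tri_dis ht ht' hd ?_ ?_ ?_ ?_ ?_
  · intro e
    -- (R)[c] = [c'](R')
    have e1 := congrArg comps e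
    simp only [comps_w1, hc1, hc1', comps, List.nil_append, List.cons_append, List.cons.injEq,
      and_true] at e1
    rw [e1.1, hch] at hR
    rw [← e1.2, hch] at hR'
    omega
  · intro e
    -- (R)[c] = R'()[c']
    have e1 := congrArg (fun t => (comps t).length) e
    have h5 := List.length_pos_iff.2 (comps_ne hRn')
    simp only [comps_w1, hc1, hc1', comps, List.nil_append, List.cons_append, List.length_cons,
      List.length_nil, List.length_append] at e1
    omega
  · intro e
    -- (R)[c] = [c'+1]R'
    have e1 := congrArg comps e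
    simp only [comps_w1, comps, List.nil_append, List.cons.injEq] at e1
    rw [e1.1, hch] at hR
    have e2 : R' = H1.ch c := (comps_inj e1.2).symm
    rw [e2, hch] at hR'
    omega
  · intro e
    -- [c'](R') = R[c+1]
    have e1 := rev_inj (congrArg comps e)
    simp only [comps_w1, hc1', comps, List.nil_append, List.reverse_append, List.reverse_cons,
      List.reverse_nil, List.singleton_append, List.cons_append, List.cons.injEq] at e1
    rw [e1.1, hch] at hR'
    have e2 : comps R = comps (H1.ch c') := by
      rw [hc1']
      have := e1.2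
      rw [← List.reverse_eq_iff, List.reverse_singleton] at this
      exact this.symm
    rw [comps_inj e2, hch] at hR
    omega
  · intro e
    -- [c'](R') = [c]()R
    have e1 := congrArg (fun t => (comps t).length) e
    have h5 := List.length_pos_iff.2 (comps_ne hRn)
    simp only [comps_w1, hc1, hc1', comps, List.nil_append, List.cons_append, List.length_cons,
      List.length_nil] at e1
    omega

end Pool.OddHC
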