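import Pool.Agent.Work.MP_8f87b2_mid.FirstMax

/-!
MP_8f87b2_co: the inner words `T (w i)`, `i = 0, 1, 3, 6, 8, 9`, of the H1 windows against the plain triples E and L.
-/

set_option autoImplicit false

namespace Pool.OddHC

open BinaryTree Equiv

namespace H1

variable {k : ℕ}

theorem Sta.ttt {g : ℕ} (hg : 3 ≤ g) {l : List Bool} (h : Sta g l) :
    ∃ v, l = true :: true :: true :: v := by
  obtain ⟨n, rfl⟩ : ∃ n, g = n + 3 := ⟨g - 3, by omega⟩
  rcases h with ⟨r, rfl⟩ | ⟨r, rfl⟩
  · exact ⟨List.replicate (n + 1) true ++ r, by simp [List.replicate_succ]⟩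
  · exact ⟨List.replicate n true ++ (List.replicate (n + 3) false ++ r), by
      simp [List.replicate_succ]⟩

/-- not `() X` -/
theorem inner_first {g : ℕ} (hg : 3 ≤ g) {t Y : BinaryTree Unit} (h : Sta g (wd t)) :
    t ≠ .nil △ Y := by
  rintro rfl
  obtain ⟨v, hv⟩ := h.ttt hg
  rw [wd_node] at hv
  simp [wd] at hv

/-- not `X ()` -/
theorem inner_last {g : ℕ} (hg : 3 ≤ g) {t Y : BinaryTree Unit} {l : List Bool}
    (h : wd t = l ++ List.replicate (g - 1) false) : t ≠ app Y (.nil △ .nil) := by
  rintro rfl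
  obtain ⟨n, rfl⟩ : ∃ n, g = n + 3 := ⟨g - 3, by omega⟩
  have e : l ++ List.replicate (n + 3 - 1) false = (l ++ List.replicate n false) ++ [false, false] := by
    have : n + 3 - 1 = n + 2 := by omega
    rw [this, List.replicate_succ', List.replicate_succ']
    simp
  rw [e, wd_app, wd_node] at h
  have := List.append_inj_right' h rfl
  simp [wd] at this

theorem ht_of_prefix {C : BinaryTree Unit} {n : ℕ} {u r : List Bool}
    (h : wd C ++ false :: u = List.replicate n true ++ r) : n ≤ Tsq.ht C := by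
  rcases List.append_eq_append_iff.1 h with ⟨c, h1, h2⟩ | ⟨c, h1, h2⟩
  · cases c with
    | nil =>
      have h3 := Tsq.ht_take C n
      rw [List.append_nil] at h1
      rw [← h1, List.take_of_length_le (by simp)] at h3
      rw [List.count_replicate, List.count_replicate] at h3
      simpa using h3
    | cons x c =>
      exfalso
      rw [List.cons_append, List.cons.injEq] at h2
      have h3 : x ∈ List.replicate n true := by rw [h1]; simp
      rw [List.mem_replicate] at h3
      rw [← h2.1] at h3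
      exact absurd h3.2 (by simp)
  · have h3 := Tsq.ht_take C n
    rw [h1, List.take_left' (by simp)] at h3
    rw [List.count_replicate, List.count_replicate] at h3
    simpa using h3

/-- a word which starts with the word of `P` -/
theorem prefix_tree {P : BinaryTree Unit} : ∀ {t : BinaryTree Unit} {r : List Bool},
    wd t = wd P ++ r → ∃ z, t = app P z ∧ wd z = r := by
  induction P with
  | nil => intro t r h; exact ⟨t, rfl, h⟩
  | node _ A C _ ihC =>
    intro t r h
    cases t with
    | nil => simp [wd] at h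
    | node _ A' C' =>
      change wd (A' △ C') = wd (A △ C) ++ r at h
      rw [wd_node, wd_node, List.cons_append, List.cons.injEq, List.append_assoc,
        List.cons_append] at h
      obtain ⟨rfl, h2⟩ := wd_inj _ _ _ _ h.2
      obtain ⟨z, rfl, hz⟩ := ihC h2
      exact ⟨z, rfl, hz⟩

/-- the inside of a prime inner word -/
theorem inner_one {g : ℕ} (hg : 3 ≤ g) {t Y : BinaryTree Unit} (h : Sta g (wd t))
    (hk : g < t.numNodes) (e : t = Y △ .nil) : g - 1 ≤ fh Y := by
  obtain ⟨v, hv⟩ := h.ttt hg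
  subst e
  cases Y with
  | nil => simp [wd_node, wd] at hv
  | node _ C1 Y' =>
    by_cases h0 : C1 = .nil
    · subst h0; simp [wd_node, wd] at hv
    · have e1 : fh (C1 △ Y') = OddHC.ht C1 := fh_node h0 Y'
      change g - 1 ≤ fh (C1 △ Y')
      rw [e1, ← ht_eq]
      rcases h with ⟨r, hr⟩ | ⟨r, hr⟩
      · obtain ⟨n, rfl⟩ : ∃ n, g = n + 3 := ⟨g - 3, by omega⟩
        have e2 : wd C1 ++ false :: (wd Y' ++ false :: []) =
            List.replicate (n + 2) true ++ r := by
          have e3 : wd ((C1 △ Y') △ .nil) = true :: true :: (wd C1 ++ false :: (wd Y' ++ [false])) := by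
            simp [wd_node, wd]
          have e4 : List.replicate (n + 3 + 1) true ++ r =
              true :: true :: (List.replicate (n + 2) true ++ r) := by
            simp [List.replicate_succ]
          have hr' : wd ((C1 △ Y') △ .nil) = List.replicate (n + 3 + 1) true ++ r := hr
          rw [e3, e4] at hr'
          simpa using hr'
        have := ht_of_prefix e2
        omega
      · exfalso
        obtain ⟨n, rfl⟩ : ∃ n, g = n + 1 := ⟨g - 1, by omega⟩
        have hr' : wd ((C1 △ Y') △ .nil) = wd (ch (n + 1)) ++ r := by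
          rw [wd_ch, List.append_assoc]
          exact hr
        obtain ⟨z, hz, -⟩ := prefix_tree hr'
        rw [ch_succ] at hz
        obtain ⟨h1, h2⟩ := node_inj (B' := app .nil z) hz
        have h3 : (C1 △ Y').numNodes = n := by rw [h1, ch_num]
        have h4 : (BinaryTree.node () (C1 △ Y') .nil).numNodes = (C1 △ Y').numNodes + 0 + 1 := rfl
        change n + 1 < (BinaryTree.node () (C1 △ Y') .nil).numNodes at hk
        omega

theorem count_three_raise {M : Multiset ℕ} (h : 3 ≤ M.sup) : (raise M).count 3 ≤ M.count 3 := by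
  rcases Nat.lt_or_ge 3 M.sup with h1 | h1
  · rw [count_raise 3 (by omega) (by omega)]
  · have e : M.sup = 3 := by omega
    unfold raise
    rw [e, Multiset.count_cons_of_ne (by omega)]
    exact Multiset.count_le_of_le _ (Multiset.erase_le _ _)

theorem cont_TT (x : X k) : cont (TT x).1 = cont x.1 :=
  (cont_same ⟨1, by rw [zpow_one]⟩).symm

/-- **inner words against E-triples with the E-rule** -/
theorem inner_E {g : ℕ} (hg : 3 ≤ g) {x : X k} {a b : List Bool} (h : FMR g x.1 a b) (hk : g < k)
    (hx : 4 ≤ OddHC.ht x.1) {r : BinaryTree Unit} {e : List ℕ} (he : e.length = 2 * r.numNodes + 1)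
    (hL : Low r) (h2 : 1 ≤ (cont x.1).count 2 ∨ (4 ≤ g ∧ 1 ≤ (cont x.1).count 3)) :
    (TT x).1 ≠ ins r e △ .nil ∧ (TT x).1 ≠ app (ins r e) (.nil △ .nil) ∧
      (TT x).1 ≠ .nil △ ins r e := by
  obtain ⟨h3, l, h4⟩ := h.inner
  refine ⟨?_, inner_last hg h4, inner_first hg h3⟩
  intro e1
  obtain ⟨l1, l2⟩ := low_fh he hL
  have e2 := cont_TT x
  rw [e1, cont_node, cont_nil, add_zero] at e2
  have k1 := inner_one hg h3 (by rw [X_num]; exact hk) e1
  generalize ins r e = Y at *
  have e3 : (cont Y).sup + 1 = OddHC.ht x.1 := by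
    have hY : cont Y ≠ 0 := by
      intro h0
      have : Y = .nil := cont_eq_zero.1 h0
      subst this
      have h5 : fh (.nil : BinaryTree Unit) = 0 := rfl
      omega
    rw [OddHC.ht_eq x.1, ← e2, sup_raise]
  have e4 : (raise (cont Y)).count 2 = (cont Y).count 2 := count_two_raise (by omega)
  have e5 := count_three_raise (M := cont Y) (by omega)
  rw [← e2] at h2
  by_cases h6 : 1 ≤ (cont Y).count 2
  · have := l1 h6
    omega
  · rcases h2 with h2 | ⟨h7, h2⟩
    · omega
    · have := l2 (by omega) (by omega)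
      omega

theorem ht_le_nm (t : BinaryTree Unit) : OddHC.ht t ≤ t.numNodes := by
  induction t with
  | nil => exact le_refl 0
  | node _ A C ihA ihC =>
    change OddHC.ht (A △ C) ≤ A.numNodes + C.numNodes + 1
    rw [ht_node]
    omega

/-! ### Windows of general nodes -/

variable {q : ℕ} {B1 H s B : BinaryTree Unit}

/-- first maximum of `R = B1 (H s) B`, `H s = H' s'`, all solitons of `s'` at least `g` -/
theorem NodeG.fmr' (h : NodeG k q B1 H s B) {g : ℕ} {H' s' : BinaryTree Unit} (hg1 : 1 ≤ g)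
    (e : app H s = app H' s') (h1 : hg g s') (h2 : s' ≠ .nil)
    (h3 : OddHC.ht H' < OddHC.ht s') : ∃ u v, FMR g (gR B1 H s B) u v := by
  have a1 := bl_ht h.light
  have a2 := h.hs3
  have a3 : OddHC.ht (app H s) = OddHC.ht s := by
    rw [ht_app]
    have := ht_eq H
    omega
  have a4 : OddHC.ht (app H' s') = OddHC.ht s' := by
    rw [ht_app]
    omega
  rw [e, a4] at a3
  unfold gR
  rw [e]
  apply FMR_R hg1 h1 h2
  · rw [ht_eq, ht_eq]; exact h3
  · rw [ht_eq, ht_eq, a3]; exact h.low
  · rw [ht_eq, ht_eq, a3]; exact h.top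

theorem NodeG.fmr (h : NodeG k q B1 H s B) : ∃ u v, FMR 3 (gR B1 H s B) u v := by
  have a1 := bl_ht h.light
  have a2 := h.hs3
  refine h.fmr' (by omega) rfl (hg_hv h.hs) h.s0 ?_
  have := ht_eq H
  omega

theorem NodeG.fmrW (h : NodeG k q B1 H s B) {g : ℕ} (hf : ∃ u v, FMR g (gR B1 H s B) u v)
    (w0 : X k) : ∀ i ∈ [0, 1, 3, 6, 8, 9], ∃ u v, FMR g (gX q B1 H s B w0 i).1 u v := by
  intro i hi
  have hi' : i < 20 := by
    simp only [List.mem_cons, List.not_mem_nil, or_false] at hi
    omega
  obtain ⟨u, v, h1⟩ := hf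
  rw [h.word w0 hi']
  exact FMR_W h1 (by rw [ht_eq, h.ht]; exact h.big) i hi

theorem NodeG.three_lt (h : NodeG k q B1 H s B) : 3 < k := by
  have := h.size
  have h1 : gR B1 H s B ≠ .nil := by unfold gR; exact app_ne (by simp)
  have h2 : (gR B1 H s B).numNodes ≠ 0 := by
    intro e
    apply h1
    cases hR : gR B1 H s B with
    | nil => rfl
    | node _ A C =>
      exfalso
      rw [hR] at e
      have : (BinaryTree.node () A C).numNodes = A.numNodes + C.numNodes + 1 := rfl
      change (BinaryTree.node () A C).numNodes = 0 at e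
      omega
  omega

/-- parts below the height of `R` -/
theorem count_W {R B S : BinaryTree Unit} {q x : ℕ} (hx : x < OddHC.ht R) :
    ∀ i ∈ [0, 1, 3, 6, 8, 9], (cont R).count x ≤ (cont (W R (ch (q + 1)) B S i)).count x := by
  intro i hi
  have e : (cont R).sup = OddHC.ht R := (OddHC.ht_eq R).symm
  have r1 : (raise (cont R)).count x = (cont R).count x := count_raise x (by omega) (by omega)
  have r2 : (raise (raise (cont R))).count x = (cont R).count x := by
    rw [count_raise x (by rw [sup_raise]; omega) (by rw [sup_raise]; omega), r1]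
  have cQ := ch_cont q
  have c0 : cont (BinaryTree.nil : BinaryTree Unit) = 0 := rfl
  simp only [List.mem_cons, List.not_mem_nil, or_false] at hi
  rcases hi with rfl | rfl | rfl | rfl | rfl | rfl
  · simp only [W, cont_app, Multiset.count_add]; omega
  · simp only [W, cont_app, Multiset.count_add]; omega
  · simp only [W, cont_node, cont_app, c0, Multiset.count_add, Multiset.count_zero]
    have hs := Multiset.sup_add (cont R) (raise 0 + cont (ch (q + 1)))
    by_cases hh : (cont R + (raise 0 + cont (ch (q + 1)))).sup = OddHC.ht R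
    · rw [count_raise x (by omega) (by omega), Multiset.count_add]
      omega
    · have h3 : OddHC.ht R ≤ (cont R + (raise 0 + cont (ch (q + 1)))).sup := by
        rw [hs, e]; exact le_sup_left
      rw [count_raise x (by omega) (by omega), Multiset.count_add]
      omega
  · simp only [W, cont_node, Multiset.count_add]
    rw [r1]; omega
  · simp only [W, cont_app, cont_node, c0, Multiset.count_add, Multiset.count_zero]
    rw [r1]; omega
  · simp only [W, cont_node, c0, add_zero, Multiset.count_add]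
    rw [r2]; omega

/-- the parts `q + 1`, `q + 2` of the words of a window -/
theorem count_WQ {R B S : BinaryTree Unit} {q : ℕ} (hx : q + 2 < OddHC.ht R) :
    (∀ i ∈ [1, 3, 8, 9], 1 ≤ (cont (W R (ch (q + 1)) B S i)).count (q + 1)) ∧
      1 ≤ (cont (W R (ch (q + 1)) B S 6)).count (q + 2) := by
  have e : (cont R).sup = OddHC.ht R := (OddHC.ht_eq R).symm
  have cQ := ch_cont q
  have c0 : cont (BinaryTree.nil : BinaryTree Unit) = 0 := rfl
  have cq : (cont (ch (q + 1))).count (q + 1) = 1 := by rw [cQ]; exact Multiset.count_singleton_self _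
  constructor
  · intro i hi
    simp only [List.mem_cons, List.not_mem_nil, or_false] at hi
    rcases hi with rfl | rfl | rfl | rfl
    · simp only [W, cont_app, cont_node, Multiset.count_add]; omega
    · simp only [W, cont_node, cont_app, c0, Multiset.count_add, Multiset.count_zero]
      have hs := Multiset.sup_add (cont R) (raise 0 + cont (ch (q + 1)))
      have h3 : OddHC.ht R ≤ (cont R + (raise 0 + cont (ch (q + 1)))).sup := by
        rw [hs, e]; exact le_sup_left
      rw [count_raise (q + 1) (by omega) (by omega), Multiset.count_add, Multiset.count_add]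
      omega
    · simp only [W, cont_app, cont_node, c0, Multiset.count_add, Multiset.count_zero]; omega
    · simp only [W, cont_node, c0, add_zero, Multiset.count_add]; omega
  · have e3 : cont (ch (q + 1) △ BinaryTree.nil) = {q + 2} := ch_cont (q + 1)
    have e4 : W R (ch (q + 1)) B S 6 = R △ (ch (q + 1) △ .nil) := rfl
    rw [e4, cont_node, e3, Multiset.count_add, Multiset.count_singleton_self]
    omega

/-- **inner words of windows, no L** (general: `()^q (R) ()^p` and its two new words) -/
theorem NodeG.innerL (h : NodeG k q B1 H s B) (w0 : X k) {i : ℕ} (hi : i ∈ [0, 1, 3, 6, 8, 9])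
    {a b : ℕ} {R' : BinaryTree Unit} {F' : Set (Cyc k)} {g' : DG k}
    (h' : IsTri (lp (b + 1)) R' (lp (a + 1)) F' g') : TT (gX q B1 H s B w0 i) ∉ g'.B := by
  obtain ⟨u, v, h1⟩ := h.fmrW h.fmr w0 i hi
  obtain ⟨h2, l, h3⟩ := h1.inner
  have hl : ∀ n, lp (n + 1) = app (lp n) (.nil △ .nil) := by
    intro n
    induction n with
    | zero => rfl
    | succ n ih =>
      change BinaryTree.nil △ lp (n + 1) = _
      conv_lhs => rw [ih]
      rfl
  intro hw
  rcases h'.words _ hw with e | ⟨_, e | e⟩
  · have e1 : w1 (lp (b + 1)) R' (lp (a + 1)) = .nil △ w1 (lp b) R' (lp (a + 1)) := rfl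
    rw [e1] at e
    exact inner_first (le_refl 3) h2 e
  · have e1 : w1 R' (lp (a + 1)) (lp (b + 1)) =
        app (app R' (lp (a + 1) △ lp b)) (.nil △ .nil) := by
      unfold w1
      rw [hl b, app_assoc]
      rfl
    rw [e1] at e
    exact inner_last (le_refl 3) h3 e
  · have e1 : w1 (lp (a + 1)) (lp (b + 1)) R' = .nil △ w1 (lp a) (lp (b + 1)) R' := rfl
    rw [e1] at e
    exact inner_first (le_refl 3) h2 e

/-- **inner words of windows, no E** (general form) -/
theorem NodeG.innerE' (h : NodeG k q B1 H s B) (w0 : X k) {i : ℕ} (hi : i ∈ [0, 1, 3, 6, 8, 9])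
    {g : ℕ} (hg3 : 3 ≤ g) (hk : g < k) (hf : ∃ u v, FMR g (gR B1 H s B) u v)
    (h2 : 1 ≤ (cont (gX q B1 H s B w0 i).1).count 2 ∨
      (4 ≤ g ∧ 1 ≤ (cont (gX q B1 H s B w0 i).1).count 3))
    {F' : Set (Cyc k)} {g' : DG k} (h' : TyE F' g') : TT (gX q B1 H s B w0 i) ∉ g'.B := by
  obtain ⟨u, v, h1⟩ := h.fmrW hf w0 i hi
  obtain ⟨j, r, f, hj, hr, ht⟩ := h'
  have hi' : i < 20 := by
    simp only [List.mem_cons, List.not_mem_nil, or_false] at hi
    omega
  have h4 : 4 ≤ OddHC.ht (gX q B1 H s B w0 i).1 := by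
    rw [h.word w0 hi']
    have a1 := h.ht
    have a2 := h.hs3
    simp only [List.mem_cons, List.not_mem_nil, or_false] at hi
    rcases hi with rfl | rfl | rfl | rfl | rfl | rfl <;>
      simp only [W, ht_app, ht_node] <;> omega
  obtain ⟨c1, c2, c3⟩ := inner_E hg3 h1 hk h4 (r := r.1) (e := lf f)
    (by rw [lf_length, X_num]) hr h2
  intro hw
  rcases ht.words _ hw with e | ⟨_, e | e⟩
  · exact c1 e
  · exact c2 e
  · exact c3 e

/-- **`R` has a part 2** (`a ≥ 1`): no inner word is a word of E -/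
theorem NodeG.innerE2 (h : NodeG k q B1 H s B) (h2 : 1 ≤ (cont (gR B1 H s B)).count 2)
    (w0 : X k) {i : ℕ} (hi : i ∈ [0, 1, 3, 6, 8, 9]) {F' : Set (Cyc k)} {g' : DG k}
    (h' : TyE F' g') : TT (gX q B1 H s B w0 i) ∉ g'.B := by
  have hi' : i < 20 := by
    simp only [List.mem_cons, List.not_mem_nil, or_false] at hi
    omega
  refine h.innerE' w0 hi (le_refl 3) h.three_lt h.fmr (Or.inl ?_) h'
  rw [h.word w0 hi']
  refine h2.trans (count_W ?_ i hi)
  have := h.ht
  have := h.hs3
  omega

/-- **three levels**: `R` has a part 3 and `H s = H' s'`, all solitons of `s'` at least 4 -/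
theorem NodeG.innerE3 (h : NodeG k q B1 H s B) {H' s' : BinaryTree Unit} (e : app H s = app H' s')
    (h1 : hg 4 s') (h2 : s' ≠ .nil) (h3 : OddHC.ht H' < OddHC.ht s')
    (h4 : 1 ≤ (cont (gR B1 H s B)).count 3) (w0 : X k) {i : ℕ} (hi : i ∈ [0, 1, 3, 6, 8, 9])
    {F' : Set (Cyc k)} {g' : DG k} (h' : TyE F' g') : TT (gX q B1 H s B w0 i) ∉ g'.B := by
  have hi' : i < 20 := by
    simp only [List.mem_cons, List.not_mem_nil, or_false] at hi
    omega
  have hk : 4 < k := by
    have a1 := h.size
    have a2 := ht_le_nm (gR B1 H s B)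
    have a3 := h.ht
    have a4 := h.hs3
    omega
  refine h.innerE' w0 hi (by omega) hk (h.fmr' (by omega) e h1 h2 h3) (Or.inr ⟨le_refl 4, ?_⟩) h'
  rw [h.word w0 hi']
  refine h4.trans (count_W ?_ i hi)
  have := h.ht
  have := h.hs3
  omega

/-- three levels, no part 3: `q = 1`, words 1, 3, 6, 8, 9; `q = 2`, words 1, 3, 8, 9 -/
theorem NodeG.innerE4 (h : NodeG k q B1 H s B) {H' s' : BinaryTree Unit} (e : app H s = app H' s')
    (h1 : hg 4 s') (h2 : s' ≠ .nil) (h3 : OddHC.ht H' < OddHC.ht s') (w0 : X k) {i : ℕ}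
    (hi : (q = 1 ∧ i ∈ [1, 3, 6, 8, 9]) ∨ (q = 2 ∧ i ∈ [1, 3, 8, 9]))
    {F' : Set (Cyc k)} {g' : DG k} (h' : TyE F' g') : TT (gX q B1 H s B w0 i) ∉ g'.B := by
  have hk : 4 < k := by
    have a1 := h.size
    have a2 := ht_le_nm (gR B1 H s B)
    have a3 := h.ht
    have a4 := h.hs3
    omega
  have a5 := h.big
  have a6 := h.ht
  obtain ⟨d1, d2⟩ := count_WQ (R := gR B1 H s B) (B := B) (S := (Tsq.sq (gR B1 H s B)).1) (q := q)
    (by omega)
  rcases hi with ⟨rfl, hi⟩ | ⟨rfl, hi⟩
  · have hi2 : i ∈ [0, 1, 3, 6, 8, 9] := List.mem_cons_of_mem _ hi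
    have hi' : i < 20 := by
      simp only [List.mem_cons, List.not_mem_nil, or_false] at hi
      omega
    refine h.innerE' w0 hi2 (by omega) hk (h.fmr' (by omega) e h1 h2 h3) ?_ h'
    rw [h.word w0 hi']
    simp only [List.mem_cons, List.not_mem_nil, or_false] at hi
    rcases hi with rfl | rfl | rfl | rfl | rfl
    · exact Or.inl (d1 1 (by simp))
    · exact Or.inl (d1 3 (by simp))
    · exact Or.inr ⟨le_refl 4, d2⟩
    · exact Or.inl (d1 8 (by simp))
    · exact Or.inl (d1 9 (by simp))
  · have hi' : i < 20 := by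
      simp only [List.mem_cons, List.not_mem_nil, or_false] at hi
      omega
    have hi2 : i ∈ [0, 1, 3, 6, 8, 9] := by
      simp only [List.mem_cons, List.not_mem_nil, or_false] at hi ⊢
      omega
    refine h.innerE' w0 hi2 (by omega) hk (h.fmr' (by omega) e h1 h2 h3) ?_ h'
    rw [h.word w0 hi']
    exact Or.inr ⟨le_refl 4, d1 i hi⟩

/-- **words 0 and 1**: no E-triple of a group at least as high as the window -/
theorem NodeG.innerE01 (h : NodeG k q B1 H s B) (w0 : X k) {i : ℕ} (hi : i = 0 ∨ i = 1)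
    {F' : Set (Cyc k)} {g' : DG k} (h' : TyE F' g')
    (hh : ∀ c ∈ F', OddHC.ht s + 1 ≤ htc c) : TT (gX q B1 H s B w0 i) ∉ g'.B := by
  have hi2 : i ∈ [0, 1, 3, 6, 8, 9] := by
    simp only [List.mem_cons, List.not_mem_nil, or_false]
    omega
  obtain ⟨u, v, h1⟩ := h.fmrW h.fmr w0 i hi2
  obtain ⟨h3, l, h4⟩ := h1.inner
  obtain ⟨j, r, f, hj, hr, ht⟩ := h'
  intro hw
  have hhost : ∀ w ∈ g'.B, cyc w ∈ F' ∨ ∀ c ∈ F', htc c < htc (cyc w) := ht.rank
  rcases ht.words _ hw with e | ⟨_, e | e⟩
  · have e5 : htc (cyc (TT (gX q B1 H s B w0 i))) = OddHC.ht s + 1 := by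
      have e6 : cyc (TT (gX q B1 H s B w0 i)) = cyc (gX q B1 H s B w0 i) :=
        cyc_eq.2 ⟨-1, by simp⟩
      rw [e6]
      change (cont (gX q B1 H s B w0 i).1).sup = _
      rw [← OddHC.ht_eq, h.word w0 (by omega)]
      have a1 := h.ht
      have a2 := h.big
      have hQ := ch_ht (q + 1)
      have hQ3 := ch_ht (q + 3)
      have h00 : OddHC.ht (BinaryTree.nil : BinaryTree Unit) = 0 := rfl
      rcases hi with rfl | rfl
      · have e7 : W (gR B1 H s B) (ch (q + 1)) B (Tsq.sq (gR B1 H s B)).1 0 =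
            app (gR B1 H s B) (ch (q + 3)) := rfl
        rw [e7, ht_app, hQ3]
        omega
      · simp only [W, ht_app, ht_node, hQ, h00]
        omega
    rcases hhost _ hw with h6 | h6
    · -- the host is not new
      obtain ⟨a', b', c', ha, hb, hc, k1, k2, k3, k4, k5⟩ := ht
      have e8 : TT (gX q B1 H s B w0 i) = a' := Subtype.ext (e.trans ha.symm)
      rw [k4, e8] at h6
      rcases h6 with h6 | h6
      · rw [h6] at k3; exact lt_irrefl _ k3
      · rw [h6, k2] at k3; exact lt_irrefl _ k3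
    · obtain ⟨a', b', c', ha, hb, hc, k1, k2, k3, k4, k5⟩ := ht
      have h7 := h6 (cyc b') (by rw [k4]; exact Or.inl rfl)
      have h8 := hh (cyc b') (by rw [k4]; exact Or.inl rfl)
      rw [e5] at h7
      omega
  · exact inner_last (le_refl 3) h4 e
  · exact inner_first (le_refl 3) h3 e

end H1

end Pool.OddHC
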