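import Pool.Agent.Work.MP_8f87b2_mid.Types

/-!
# The key of a window: number of parts `≥ 3`

`n3 M` : the number of parts `≥ 3`. `key_W` : every old word of a right window `z = R[q + 3]` of the height of `z` has at
most as many parts `≥ 3` as `z`, strictly less for `q = 0`, and more `1`s, or as many and a larger sum of squares.
-/

set_option autoImplicit false

namespace Pool.OddHC

namespace H1

open BinaryTree Multiset Equiv

variable {k : ℕ}

/-- number of parts `≥ 3` -/
def n3 (M : Multiset ℕ) : ℕ := M.countP (fun x => 3 ≤ x)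

theorem n3_add (M N : Multiset ℕ) : n3 (M + N) = n3 M + n3 N := Multiset.countP_add _ _ _

theorem n3_single (x : ℕ) : n3 {x} = if 3 ≤ x then 1 else 0 := by
  unfold n3
  rw [← Multiset.cons_zero, Multiset.countP_cons]
  simp

theorem n3_zero : n3 0 = 0 := rfl

/-- raising the largest part -/
theorem n3_raise {M : Multiset ℕ} (h : M ≠ 0) (h2 : M.sup ≠ 2) : n3 (raise M) = n3 M := by
  have h1 : n3 M = (if 3 ≤ M.sup then 1 else 0) + n3 (M.erase M.sup) := by
    conv_lhs => rw [← Multiset.cons_erase (sup_mem h)]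
    unfold n3
    rw [Multiset.countP_cons]
    ring
  have h3 : n3 (raise M) = (if 3 ≤ M.sup + 1 then 1 else 0) + n3 (M.erase M.sup) := by
    unfold raise n3
    rw [Multiset.countP_cons]
    ring
  rw [h1, h3]
  by_cases h4 : 3 ≤ M.sup
  · rw [if_pos h4, if_pos (by omega)]
  · rw [if_neg h4, if_neg (by omega)]

theorem n3_raise_zero : n3 (raise 0) = 0 := by
  rw [raise_zero, n3_single]
  rfl

variable {q : ℕ} {R B S : BinaryTree Unit}

/-- the number of parts `≥ 3` of the old words of the same height -/
theorem n3_W (h : Dat q R B S) : ∀ i < 20, i ≠ 0 → i ≠ 10 →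
    ht (W R (ch (q + 1)) B S i) = ht R →
    n3 (cont (W R (ch (q + 1)) B S i)) ≤ n3 (cont R + {q + 3}) ∧
      (q = 0 → n3 (cont (W R (ch (q + 1)) B S i)) < n3 (cont R + {q + 3})) := by
  intro i hi h0 h10 hh
  have hz : n3 (cont R + {q + 3}) = n3 (cont R) + 1 := by
    rw [n3_add, n3_single, if_pos (by omega)]
  have hS := h.htS
  have hB := h.htB
  have hb := h.big
  have hc : n3 (OddHC.cont B) + n3 (OddHC.cont S) = n3 (OddHC.cont R) := by
    rw [← n3_add, h.cont]
  have hQ := ch_ht (q + 1)
  have h00 : ht (BinaryTree.nil : BinaryTree Unit) = 0 := rfl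
  have cQ := ch_cont q
  have c0 : OddHC.cont (BinaryTree.nil : BinaryTree Unit) = 0 := rfl
  have nQ : n3 ({q + 1} : Multiset ℕ) = if 3 ≤ q + 1 then 1 else 0 := n3_single _
  have nQ2 : n3 ({q + 2} : Multiset ℕ) = if 3 ≤ q + 2 then 1 else 0 := n3_single _
  have n1 : n3 ({1} : Multiset ℕ) = 0 := by rw [n3_single]; rfl
  have cq2 : OddHC.cont (ch (q + 1) △ BinaryTree.nil) = {q + 2} := ch_cont (q + 1)
  have r1 : n3 (raise ({q + 1} + {1})) = if 3 ≤ q + 2 then 1 else 0 := by
    have e : raise ({q + 1} + {1} : Multiset ℕ) = {q + 2} + {1} := by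
      have e1 : (({q + 1} + {1} : Multiset ℕ)).sup = q + 1 := by
        rw [sup_add', Multiset.sup_singleton, Multiset.sup_singleton]; omega
      unfold raise
      rw [e1]
      rw [show ({q + 1} + {1} : Multiset ℕ) = (q + 1) ::ₘ {1} from rfl, Multiset.erase_cons_head]
      rfl
    rw [e, n3_add, nQ2, n1, add_zero]
  have hbound : (if 3 ≤ q + 1 then 1 else 0) ≤ 1 ∧ (if 3 ≤ q + 2 then 1 else 0) ≤ 1 := by
    constructor <;> split_ifs <;> omega
  have hq0 : q = 0 → ((if 3 ≤ q + 1 then 1 else 0) = 0 ∧ (if 3 ≤ q + 2 then 1 else 0) = 0) := by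
    intro e; subst e; simp
  rw [hz]
  have fin : ∀ x, (x = n3 (OddHC.cont R) + (if 3 ≤ q + 1 then 1 else 0) ∨
      x = n3 (OddHC.cont R) + (if 3 ≤ q + 2 then 1 else 0)) →
      x ≤ n3 (OddHC.cont R) + 1 ∧ (q = 0 → x < n3 (OddHC.cont R) + 1) := by
    rintro x (rfl | rfl)
    · exact ⟨by omega, fun e => by have := hq0 e; omega⟩
    · exact ⟨by omega, fun e => by have := hq0 e; omega⟩
  -- the last soliton inside `B`
  have rB : B ≠ .nil → n3 (raise (OddHC.cont B)) = n3 (OddHC.cont B) := by
    intro hBn
    have hB0 : OddHC.cont B ≠ 0 := fun h => hBn (cont_eq_zero.1 h)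
    have := h.bare _ (sup_mem hB0)
    exact n3_raise hB0 (by omega)
  have rBQ : B ≠ .nil → n3 (raise (OddHC.cont B + ({1} + {q + 1}))) =
      n3 (OddHC.cont B) + (if 3 ≤ q + 1 then 1 else 0) := by
    intro hBn
    have hB0 : OddHC.cont B ≠ 0 := fun h => hBn (cont_eq_zero.1 h)
    have h1 := h.bare _ (sup_mem hB0)
    have h2 : (OddHC.cont B + ({1} + {q + 1})).sup = (OddHC.cont B).sup := by
      rw [sup_add', sup_add', Multiset.sup_singleton, Multiset.sup_singleton]; omega
    rw [n3_raise (by
      intro e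
      rw [e] at h2
      have : (0 : Multiset ℕ).sup = 0 := rfl
      omega) (by omega), n3_add, n3_add, n1, nQ, zero_add]
  have e1 : raise (0 : Multiset ℕ) = {1} := raise_zero
  interval_cases i
  · exact absurd rfl h0
  · apply fin; left
    simp only [W, cont_app, cont_node, c0, add_zero, n3_add, e1, n1, cQ, nQ]
    omega
  · apply fin; left
    simp only [W, cont_app, cont_node, c0, add_zero, n3_add, e1, n1, cQ, nQ]
    omega
  · exfalso
    simp only [W, ht_app, ht_node, hQ, h00] at hh; omega
  · apply fin; right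
    simp only [W, cont_app, cont_node, c0, add_zero, n3_add, e1, cQ]
    rw [r1]
    omega
  · apply fin; right
    have e2 : OddHC.cont (W R (ch (q + 1)) B S 5) = {q + 2} + ({1} + OddHC.cont R) := by
      have e3 : OddHC.cont (W R (ch (q + 1)) B S 5) = OddHC.cont (ch (q + 1) △ BinaryTree.nil) +
          OddHC.cont (BinaryTree.nil △ R) := by
        simp only [W, cont_node, c0, add_zero]
      rw [e3, cq2, cont_node, c0, e1]
    rw [e2, n3_add, n3_add, n1, nQ2]
    omega
  · exfalso
    simp only [W, ht_app, ht_node, hQ, h00] at hh; omega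
  · exfalso
    simp only [W, ht_app, ht_node, hQ, h00] at hh; omega
  · exfalso
    simp only [W, ht_app, ht_node, hQ, h00] at hh; omega
  · exfalso
    simp only [W, ht_app, ht_node, hQ, h00] at hh; omega
  · exact absurd rfl h10
  · apply fin; left
    simp only [W, cont_app, cont_node, c0, add_zero, n3_add, e1, n1, cQ, nQ]
    omega
  · exfalso
    simp only [W, ht_app, ht_node, hQ, h00] at hh; omega
  · by_cases hBn : B = .nil
    · apply fin; right
      subst hBn
      have e2 : OddHC.cont (W R (ch (q + 1)) .nil S 13) = OddHC.cont S + raise ({q + 1} + {1}) := by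
        simp only [W, app, cont_app, cont_node, c0, add_zero, e1, cQ]
        rw [add_comm ({1} : Multiset ℕ) {q + 1}]
      rw [e2, n3_add, r1]
      have : n3 (OddHC.cont (BinaryTree.nil : BinaryTree Unit)) = 0 := rfl
      omega
    · apply fin; left
      have e2 : OddHC.cont (W R (ch (q + 1)) B S 13) = OddHC.cont S +
          raise (OddHC.cont B + ({1} + {q + 1})) := by
        simp only [W, cont_app, cont_node, c0, add_zero, e1, cQ]
      rw [e2, n3_add, rBQ hBn]
      omega
  · exfalso
    simp only [W, ht_app, ht_node, hQ, h00] at hh; omega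
  · exfalso
    simp only [W, ht_app, ht_node, hQ, h00] at hh; omega
  · apply fin; right
    have e2 : OddHC.cont (W R (ch (q + 1)) B S 16) = OddHC.cont S + (raise (OddHC.cont B) + {q + 2}) := by
      simp only [W, cont_app]
      rw [cont_node, cq2]
    rw [e2, n3_add, n3_add, nQ2]
    by_cases hBn : B = .nil
    · subst hBn
      rw [c0, n3_raise_zero]
      have : n3 (OddHC.cont (BinaryTree.nil : BinaryTree Unit)) = 0 := rfl
      omega
    · rw [rB hBn]
      omega
  · exfalso
    simp only [W, ht_app, ht_node, hQ, h00] at hh; omega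
  · apply fin; left
    have e2 : OddHC.cont (W R (ch (q + 1)) B S 18) = {q + 1} + ({1} + (OddHC.cont S + raise (OddHC.cont B))) := by
      simp only [W, cont_app, cont_node, c0, add_zero, e1, cQ]
    rw [e2, n3_add, n3_add, n3_add, n1, nQ]
    by_cases hBn : B = .nil
    · subst hBn
      rw [c0, n3_raise_zero]
      have : n3 (OddHC.cont (BinaryTree.nil : BinaryTree Unit)) = 0 := rfl
      omega
    · rw [rB hBn]
      omega
  · exfalso
    simp only [W, ht_app, ht_node, hQ, h00] at hh; omega

end H1

end Pool.OddHC
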