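import Pool.Agent.Work.MP_8f87b2_mid.Key

/-!
# The contents of the old words of the same height

`H1.cont_same`: a word of a window which has the height of `R` and is not on the new T-cycle has one of four contents.
-/

set_option autoImplicit false

namespace Pool.OddHC

open BinaryTree

namespace H1

variable {q : ℕ} {R B S : BinaryTree Unit}

theorem raise_two (n : ℕ) (hn : 1 ≤ n) : raise ({n} + {1} : Multiset ℕ) = {n + 1} + {1} := by
  have e1 : (({n} + {1} : Multiset ℕ)).sup = n := by
    rw [sup_add', Multiset.sup_singleton, Multiset.sup_singleton]; omega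
  unfold raise
  rw [e1]
  rw [show ({n} + {1} : Multiset ℕ) = n ::ₘ {1} from rfl, Multiset.erase_cons_head]
  rfl

/-- `raise` only sees the largest part -/
theorem raise_add {M K : Multiset ℕ} (hM : M ≠ 0) (h : ∀ x ∈ K, x ≤ M.sup) :
    raise (M + K) = raise M + K := by
  have h1 : (M + K).sup = M.sup := by
    rw [sup_add']
    have : K.sup ≤ M.sup := Multiset.sup_le.2 h
    omega
  have hm : M.sup ∈ M := sup_mem hM
  unfold raise
  rw [h1, Multiset.erase_add_left_pos _ hm, Multiset.cons_add]

/-- **the contents of the old words of the same height** -/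
theorem cont_same (h : Dat q R B S) : ∀ i < 20, i ≠ 0 → i ≠ 10 →
    ht (W R (ch (q + 1)) B S i) = ht R →
    ((i = 1 ∨ i = 2 ∨ i = 11 ∨ (i = 18 ∧ B = .nil)) ∧
      cont (W R (ch (q + 1)) B S i) = cont R + {q + 1} + {1} + {1}) ∨
    ((i = 4 ∨ i = 5 ∨ ((i = 13 ∨ i = 16) ∧ B = .nil)) ∧
      cont (W R (ch (q + 1)) B S i) = cont R + {q + 2} + {1}) ∨
    ((i = 13 ∨ i = 18) ∧ B ≠ .nil ∧
      cont (W R (ch (q + 1)) B S i) = cont S + raise (cont B) + {q + 1} + {1}) ∨
    (i = 16 ∧ B ≠ .nil ∧ cont (W R (ch (q + 1)) B S i) = cont S + raise (cont B) + {q + 2}) := by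
  intro i hi h0 h10 hh
  have hS := h.htS
  have hB := h.htB
  have hb := h.big
  have hc : OddHC.cont B + OddHC.cont S = OddHC.cont R := h.cont
  have hQ := ch_ht (q + 1)
  have h00 : ht (BinaryTree.nil : BinaryTree Unit) = 0 := rfl
  have cQ : OddHC.cont (ch (q + 1)) = {q + 1} := ch_cont q
  have c0 : OddHC.cont (BinaryTree.nil : BinaryTree Unit) = 0 := rfl
  have cq2 : OddHC.cont (ch (q + 1) △ BinaryTree.nil) = {q + 2} := ch_cont (q + 1)
  have r1 : raise ({q + 1} + {1} : Multiset ℕ) = {q + 2} + {1} := raise_two (q + 1) (by omega)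
  have e1 : raise (0 : Multiset ℕ) = {1} := raise_zero
  have rBQ : B ≠ .nil → raise (OddHC.cont B + ({1} + {q + 1})) =
      raise (OddHC.cont B) + ({1} + {q + 1}) := by
    intro hBn
    have hB0 : OddHC.cont B ≠ 0 := fun h => hBn (cont_eq_zero.1 h)
    have h1 := h.bare _ (sup_mem hB0)
    refine raise_add hB0 ?_
    intro x hx
    rcases Multiset.mem_add.1 hx with hx | hx <;> rw [Multiset.mem_singleton] at hx <;> omega
  have low : ∀ i, ht (W R (ch (q + 1)) B S i) ≠ ht R → ht (W R (ch (q + 1)) B S i) = ht R → False :=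
    fun _ h1 h2 => h1 h2
  interval_cases i
  · exact absurd rfl h0
  · left
    refine ⟨Or.inl rfl, ?_⟩
    simp only [W, cont_app, cont_node, c0, add_zero, e1, cQ]
    abel
  · left
    refine ⟨Or.inr (Or.inl rfl), ?_⟩
    simp only [W, cont_app, cont_node, c0, add_zero, e1, cQ]
    abel
  · exfalso
    simp only [W, ht_app, ht_node, hQ, h00] at hh; omega
  · right; left
    refine ⟨Or.inl rfl, ?_⟩
    simp only [W, cont_app, cont_node, c0, add_zero, e1, cQ]
    rw [r1]
    abel
  · right; left
    refine ⟨Or.inr (Or.inl rfl), ?_⟩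
    have e3 : OddHC.cont (W R (ch (q + 1)) B S 5) = OddHC.cont (ch (q + 1) △ BinaryTree.nil) +
        OddHC.cont (BinaryTree.nil △ R) := by
      simp only [W, cont_node, c0, add_zero]
    rw [e3, cq2, cont_node, c0, e1]
    abel
  · exfalso
    simp only [W, ht_app, ht_node, hQ, h00] at hh; omega
  · exfalso
    simp only [W, ht_app, ht_node, hQ, h00] at hh; omega
  · exfalso
    simp only [W, ht_app, ht_node, hQ, h00] at hh; omega
  · exfalso
    simp only [W, ht_app, ht_node, hQ, h00] at hh; omega
  · exact absurd rfl h10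
  · left
    refine ⟨Or.inr (Or.inr (Or.inl rfl)), ?_⟩
    simp only [W, cont_app, cont_node, c0, add_zero, e1, cQ]
    rw [← hc]
    abel
  · exfalso
    simp only [W, ht_app, ht_node, hQ, h00] at hh; omega
  · by_cases hBn : B = .nil
    · right; left
      refine ⟨Or.inr (Or.inr ⟨Or.inl rfl, hBn⟩), ?_⟩
      subst hBn
      have e2 : OddHC.cont (W R (ch (q + 1)) .nil S 13) = OddHC.cont S + raise ({q + 1} + {1}) := by
        simp only [W, app, cont_app, cont_node, c0, add_zero, e1, cQ]
        rw [add_comm ({1} : Multiset ℕ) {q + 1}]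
      rw [e2, r1, ← hc, c0]
      abel
    · right; right; left
      refine ⟨Or.inl rfl, hBn, ?_⟩
      have e2 : OddHC.cont (W R (ch (q + 1)) B S 13) = OddHC.cont S +
          raise (OddHC.cont B + ({1} + {q + 1})) := by
        simp only [W, cont_app, cont_node, c0, add_zero, e1, cQ]
      rw [e2, rBQ hBn]
      abel
  · exfalso
    simp only [W, ht_app, ht_node, hQ, h00] at hh; omega
  · exfalso
    simp only [W, ht_app, ht_node, hQ, h00] at hh; omega
  · have e2 : OddHC.cont (W R (ch (q + 1)) B S 16) = OddHC.cont S + (raise (OddHC.cont B) + {q + 2}) := by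
      simp only [W, cont_app]
      rw [cont_node, cq2]
    by_cases hBn : B = .nil
    · right; left
      refine ⟨Or.inr (Or.inr ⟨Or.inr rfl, hBn⟩), ?_⟩
      subst hBn
      rw [e2, c0, e1, ← hc, c0]
      abel
    · right; right; right
      refine ⟨rfl, hBn, ?_⟩
      rw [e2]
      abel
  · exfalso
    simp only [W, ht_app, ht_node, hQ, h00] at hh; omega
  · have e2 : OddHC.cont (W R (ch (q + 1)) B S 18) = {q + 1} + ({1} + (OddHC.cont S + raise (OddHC.cont B))) := by
      simp only [W, cont_app, cont_node, c0, add_zero, e1, cQ]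
    by_cases hBn : B = .nil
    · left
      refine ⟨Or.inr (Or.inr (Or.inr ⟨rfl, hBn⟩)), ?_⟩
      subst hBn
      rw [e2, c0, e1, ← hc, c0]
      abel
    · right; right; left
      refine ⟨Or.inr rfl, hBn, ?_⟩
      rw [e2]
      abel
  · exfalso
    simp only [W, ht_app, ht_node, hQ, h00] at hh; omega

end H1

end Pool.OddHC
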