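import Pool.Agent.Work.MP_8f87b2_fin.Groups
import Pool.Agent.Work.MP_8f87b2_mid.Rank3

/-!
# The final instance, general part, with an arbitrary rank of the groups (late groups allowed)

`GOKR`: a set `G` of groups (everything but the E-pairs) such that in every family the T-cycles outside the groups are
perfectly matched by `AE`-pairs; `rk` : rank of all groups, the E-pairs included. `EP` : the sets which can be an E-pair.
`GOKR.plan`: the plan `PlanR`.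
-/

set_option autoImplicit false

namespace Pool.OddHC

open Finset Equiv Pool.Agent.Work.MP_8f87b2_co

variable {k : ℕ}

/-- the sets which can be an E-pair of the plan -/
def EP (N : Set (Cyc k)) (G : Set (Set (Cyc k))) (AE : Cyc k → Cyc k → Prop) (F : Set (Cyc k)) : Prop :=
  ∃ p q, F = {p, q} ∧ p ≠ q ∧ AE p q ∧ Rd p = Rd q ∧ p ∈ N ∧ q ∈ N ∧ p ∉ inG G ∧ q ∉ inG G

/-- the groups of the whole plan, arbitrary rank -/
structure GOKR {τ : Type} (O N : Set (Cyc k)) (G : Set (Set (Cyc k)))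
    (P : τ → Set (Cyc k) → DG k → Prop) (AE : Cyc k → Cyc k → Prop) (rk : Set (Cyc k) → ℕ) : Prop where
  /-- `N` is closed under the families -/
  fam : ∀ p q : Cyc k, Rd p = Rd q → p ∈ N → q ∈ N
  ne : ∀ F ∈ G, F.Nonempty
  sub : ∀ F ∈ G, ∀ c ∈ F, c ∈ N
  one : ∀ F ∈ G, ∀ F' ∈ G, ∀ c, c ∈ F → c ∈ F' → F = F'
  ex : ∀ F ∈ G, ∃ t g, P t F g
  /-- the E-pairs have gadgets -/
  exE : ∀ p q, p ≠ q → AE p q → Rd p = Rd q → ∃ t g, P t {p, q} g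
  /-- outside the groups: pairs -/
  rem : ∀ p ∈ N, RemA (fun p q => p ≠ q ∧ AE p q) (Rd p) (inG G)
  /-- the old words lie in `O` or in groups with a smaller rank -/
  rk : ∀ t, ∀ F, (F ∈ G ∨ EP N G AE F) → ∀ g, P t F g → ∀ w ∈ g.B, cyc w ∈ F ∨ cyc w ∈ O ∨
    (cyc w ∈ N ∧ ∀ F', (F' ∈ G ∨ EP N G AE F') → cyc w ∈ F' → rk F' < rk F)

variable {τ : Type} {O N : Set (Cyc k)} {G : Set (Set (Cyc k))}
  {P : τ → Set (Cyc k) → DG k → Prop} {AE : Cyc k → Cyc k → Prop} {rk : Set (Cyc k) → ℕ}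

/-- **THE PLAN WITH AN ARBITRARY RANK** -/
theorem GOKR.plan (h : GOKR O N G P AE rk) : ∃ E : Set (Set (Cyc k)),
    (∀ F ∈ E, EP N G AE F) ∧ PlanR O N (E ∪ G) P rk := by
  classical
  -- the involution
  have hr : ∀ d : RD, ∃ ι : Cyc k → Cyc k, (∃ p ∈ N, Rd p = d) → ∀ p, Rd p = d → Rd (ι p) = d ∧
      ι (ι p) = p ∧ (ι p = p ∨ (p ≠ ι p ∧ AE p (ι p))) ∧ (ι p = p ↔ p ∈ inG G) := by
    intro d
    by_cases hd : ∃ p ∈ N, Rd p = d
    · obtain ⟨p, hp, rfl⟩ := hd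
      obtain ⟨ι, hι⟩ := h.rem p hp
      exact ⟨ι, fun _ => hι⟩
    · exact ⟨id, fun h => absurd h hd⟩
  choose I hI using hr
  let ι : Cyc k → Cyc k := fun p => I (Rd p) p
  have key : ∀ p ∈ N, Rd (ι p) = Rd p ∧ ι (ι p) = p ∧
      (ι p = p ∨ (p ≠ ι p ∧ AE p (ι p))) ∧ (ι p = p ↔ p ∈ inG G) := by
    intro p hp
    obtain ⟨h1, h2, h3, h4⟩ := hI (Rd p) ⟨p, hp, rfl⟩ p rfl
    refine ⟨h1, ?_, h3, h4⟩
    change I (Rd (ι p)) (I (Rd p) p) = p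
    rw [show Rd (ι p) = Rd p from h1]
    exact h2
  have hιN : ∀ p ∈ N, ι p ∈ N := fun p hp => h.fam p (ι p) (key p hp).1.symm hp
  let E : Set (Set (Cyc k)) := {F | ∃ p ∈ N, p ∉ inG G ∧ F = {p, ι p}}
  have hEN : ∀ F ∈ E, ∀ c ∈ F, c ∈ N ∧ c ∉ inG G ∧ F = {c, ι c} := by
    rintro F ⟨p, hp, hpG, rfl⟩ c (rfl | rfl)
    · exact ⟨hp, hpG, rfl⟩
    · obtain ⟨h1, h2, h3, h4⟩ := key p hp
      obtain ⟨_, _, _, h5⟩ := key _ (hιN p hp)
      refine ⟨hιN p hp, ?_, ?_⟩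
      · intro hc
        have h6 := h5.2 hc
        rw [h2] at h6
        exact hpG (h4.1 h6.symm)
      · rw [h2, Set.pair_comm]
  have hEP : ∀ F ∈ E, EP N G AE F := by
    rintro F ⟨p, hp, hpG, rfl⟩
    obtain ⟨h1, h2, h3, h4⟩ := key p hp
    have h5 := (hEN {p, ι p} ⟨p, hp, hpG, rfl⟩ (ι p) (Or.inr rfl)).2.1
    rcases h3 with h3 | ⟨h3, h6⟩
    · exact absurd (h4.1 h3) hpG
    · exact ⟨p, ι p, rfl, h3, h6, h1.symm, hp, hιN p hp, hpG, h5⟩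
  have hG : ∀ F ∈ E ∪ G, F ∈ G ∨ EP N G AE F := by
    rintro F (hF | hF)
    · exact Or.inr (hEP F hF)
    · exact Or.inl hF
  have hne : ∀ F ∈ E ∪ G, F.Nonempty := by
    rintro F (hF | hF)
    · obtain ⟨p, hp, _, rfl⟩ := hF
      exact ⟨p, Or.inl rfl⟩
    · exact h.ne F hF
  have hcov : ∀ c ∈ N, ∃ F ∈ E ∪ G, c ∈ F := by
    intro c hc
    by_cases hcG : c ∈ inG G
    · obtain ⟨F, hF, hcF⟩ := hcG
      exact ⟨F, Or.inr hF, hcF⟩
    · exact ⟨{c, ι c}, Or.inl ⟨c, hc, hcG, rfl⟩, Or.inl rfl⟩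
  refine ⟨E, hEP, ?_⟩
  constructor
  · exact hne
  · rintro F (hF | hF) c hc
    · exact (hEN F hF c hc).1
    · exact h.sub F hF c hc
  · exact hcov
  · intro F hF F' hF' c hc hc'
    rcases hF with h1 | h1
    · obtain ⟨e1, e2, e3⟩ := hEN F h1 c hc
      rcases hF' with h2 | h2
      · rw [e3, (hEN F' h2 c hc').2.2]
      · exact absurd ⟨F', h2, hc'⟩ e2
    · rcases hF' with h2 | h2
      · exact absurd ⟨F, h1, hc⟩ (hEN F' h2 c hc').2.1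
      · exact h.one F h1 F' h2 c hc hc'
  · rintro F (hF | hF)
    · obtain ⟨p, q, rfl, h1, h2, h3, _⟩ := hEP F hF
      exact h.exE p q h1 h2 h3
    · exact h.ex F hF
  · intro t F hF g hg w hw
    rcases h.rk t F (hG F hF) g hg w hw with h1 | h1 | ⟨h1, h2⟩
    · exact Or.inl h1
    · exact Or.inr (Or.inl h1)
    · obtain ⟨F', hF', hc⟩ := hcov _ h1
      exact Or.inr (Or.inr ⟨F', hF', hc, h2 F' (hG F' hF') hc⟩)

/-- lexicographic rank: level down, phase up, code up -/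
theorem lex_rk {k l l' Φ φ φ' Ω ω ω' : ℕ} (hl : l ≤ k) (h1 : φ < Φ) (h1' : φ' < Φ)
    (h2 : ω' < Ω) (h : l < l' ∧ l' ≤ k ∨ l' = l ∧ (φ' < φ ∨ φ' = φ ∧ ω' < ω)) :
    ((k - l') * Φ + φ') * Ω + ω' < ((k - l) * Φ + φ) * Ω + ω := by
  rcases h with ⟨h, h'⟩ | ⟨rfl, h | ⟨rfl, h⟩⟩
  · have h3 : (k - l') + 1 ≤ k - l := by omega
    have h4 : (k - l') * Φ + φ' + 1 ≤ (k - l) * Φ + φ := by
      calc (k - l') * Φ + φ' + 1 ≤ (k - l') * Φ + Φ := by omega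
        _ = (k - l' + 1) * Φ := by ring
        _ ≤ (k - l) * Φ := Nat.mul_le_mul_right _ h3
        _ ≤ (k - l) * Φ + φ := Nat.le_add_right _ _
    calc ((k - l') * Φ + φ') * Ω + ω' < ((k - l') * Φ + φ') * Ω + Ω := by omega
      _ = ((k - l') * Φ + φ' + 1) * Ω := by ring
      _ ≤ ((k - l) * Φ + φ) * Ω := Nat.mul_le_mul_right _ h4
      _ ≤ ((k - l) * Φ + φ) * Ω + ω := Nat.le_add_right _ _
  · have h4 : (k - l') * Φ + φ' + 1 ≤ (k - l') * Φ + φ := by omega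
    calc ((k - l') * Φ + φ') * Ω + ω' < ((k - l') * Φ + φ') * Ω + Ω := by omega
      _ = ((k - l') * Φ + φ' + 1) * Ω := by ring
      _ ≤ ((k - l') * Φ + φ) * Ω := Nat.mul_le_mul_right _ h4
      _ ≤ ((k - l') * Φ + φ) * Ω + ω := Nat.le_add_right _ _
  · omega

end Pool.OddHC
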