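import Pool.Agent.Work.MP_8f87b2_mid.GroupsR
import Pool.Agent.Work.MP_8f87b2_fin.Frame

/-!
# The order of the groups

`GrpOK.planR`: from the groups to a plan with a rank. For every group one type and one gadget are selected, with the smallest
priority (`Fst`); the selected types are `SelP`. It remains to give a measure and to show that every old word of a selected
gadget is old or lies only in groups which are smaller. `GrpOK.hasSys`: the system; an inner word may lie in a gadget of a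
group which is larger. `exists_rk`: a rank from an acyclic relation. The measure may have values in any order, e.g. a lexicographic product.
-/

set_option autoImplicit false

namespace Pool.OddHC

open Finset Equiv Pool.Agent.Work.MP_8f87b2_co

/-- **a rank of an acyclic relation** on a finite type -/
theorem exists_rk {α : Type} [Finite α] (r : α → α → Prop) (h : ∀ a, ¬ Relation.TransGen r a a) :
    ∃ rk : α → ℕ, ∀ a b, r a b → rk a < rk b := by
  classical
  haveI := Fintype.ofFinite α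
  refine ⟨fun b => (Finset.univ.filter fun a => Relation.TransGen r a b).card, fun a b hab => ?_⟩
  refine Finset.card_lt_card ⟨fun x hx => ?_, fun hsub => ?_⟩
  · simp only [Finset.mem_filter, Finset.mem_univ, true_and] at hx ⊢
    exact hx.tail hab
  · have h1 : a ∈ Finset.univ.filter fun a => Relation.TransGen r a b := by
      simp only [Finset.mem_filter, Finset.mem_univ, true_and]
      exact Relation.TransGen.single hab
    have h2 := hsub h1
    simp only [Finset.mem_filter, Finset.mem_univ, true_and] at h2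
    exact h a h2

variable {k : ℕ} {τ : Type} {O N : Set (Cyc k)} {G : Set (Set (Cyc k))}
  {P : τ → Set (Cyc k) → DG k → Prop}

/-- `t` is a type of `F` with smallest priority -/
def Fst (P : τ → Set (Cyc k) → DG k → Prop) (pri : τ → ℕ) (t : τ) (F : Set (Cyc k)) (g : DG k) : Prop :=
  P t F g ∧ ∀ t' g', P t' F g' → pri t ≤ pri t'

/-- **the selected type of a group**: one type and one gadget for every group -/
def SelP (G : Set (Set (Cyc k))) (P : τ → Set (Cyc k) → DG k → Prop) (tt : Set (Cyc k) → τ)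
    (gg : Set (Cyc k) → DG k) (t : τ) (F : Set (Cyc k)) (g : DG k) : Prop :=
  F ∈ G ∧ t = tt F ∧ g = gg F ∧ P t F g

/-- every group has a type with smallest priority -/
theorem GrpOK.sel [Nonempty τ] (h : GrpOK N G P) (pri : τ → ℕ) : ∃ (tt : Set (Cyc k) → τ)
    (gg : Set (Cyc k) → DG k), ∀ F ∈ G, Fst P pri (tt F) F (gg F) := by
  classical
  obtain ⟨t0⟩ := ‹Nonempty τ›
  have h1 : ∀ F : Set (Cyc k), ∃ x : τ × DG k, F ∈ G → Fst P pri x.1 F x.2 := by
    intro F
    by_cases hF : F ∈ G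
    · have h2 : ∃ n, ∃ t g, P t F g ∧ pri t = n := by
        obtain ⟨t, g, h3⟩ := h.ex F hF
        exact ⟨_, t, g, h3, rfl⟩
      obtain ⟨t, g, h3, h4⟩ := Nat.find_spec h2
      refine ⟨(t, g), fun _ => ⟨h3, fun t' g' h5 => ?_⟩⟩
      have h6 := Nat.find_min' h2 ⟨t', g', h5, rfl⟩
      show pri t ≤ pri t'
      omega
    · exact ⟨(t0, ⟨∅, ∅, ∅⟩), fun h2 => absurd h2 hF⟩
  choose x hx using h1
  exact ⟨fun F => (x F).1, fun F => (x F).2, hx⟩

/-- the number of groups with a smaller measure -/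
noncomputable def cntR {L : Type} [Preorder L] (G : Set (Set (Cyc k))) (m : Set (Cyc k) → L)
    (F : Set (Cyc k)) : ℕ := Set.ncard {F' | F' ∈ G ∧ m F' < m F}

theorem cntR_lt {L : Type} [Preorder L] {m : Set (Cyc k) → L} {F F' : Set (Cyc k)}
    (hF : F' ∈ G) (h : m F' < m F) : cntR G m F' < cntR G m F := by
  unfold cntR
  refine Set.ncard_lt_ncard ⟨?_, ?_⟩ (Set.toFinite _)
  · rintro E ⟨h1, h2⟩
    exact ⟨h1, h2.trans h⟩
  · intro h3
    have h4 : F' ∈ {E | E ∈ G ∧ m E < m F'} := h3 ⟨hF, h⟩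
    exact lt_irrefl _ h4.2

/-- **FROM THE GROUPS TO A PLAN WITH A RANK.** `mu` is a measure of a group with its type, in any order -/
theorem GrpOK.planR [Nonempty τ] {L : Type} [Preorder L] (h : GrpOK N G P)
    (hON : ∀ c, c ∈ O ∨ c ∈ N) (pri : τ → ℕ) (mu : τ → Set (Cyc k) → L)
    (step : ∀ F ∈ G, ∀ t g, Fst P pri t F g → ∀ w ∈ g.B, cyc w ∉ F → cyc w ∉ O →
      ∀ F' ∈ G, cyc w ∈ F' → ∀ t' g', Fst P pri t' F' g' → mu t' F' < mu t F) :
    ∃ (tt : Set (Cyc k) → τ) (gg : Set (Cyc k) → DG k),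
      (∀ F ∈ G, Fst P pri (tt F) F (gg F)) ∧
      PlanR O N G (SelP G P tt gg) (cntR G (fun F => mu (tt F) F)) := by
  obtain ⟨tt, gg, h1⟩ := h.sel pri
  refine ⟨tt, gg, h1, h.ne, h.sub, h.cov, h.one,
    fun F hF => ⟨tt F, gg F, hF, rfl, rfl, (h1 F hF).1⟩, ?_⟩
  rintro t F hF g ⟨-, rfl, rfl, -⟩ w hw
  by_cases hwF : cyc w ∈ F
  · exact Or.inl hwF
  · by_cases hwO : cyc w ∈ O
    · exact Or.inr (Or.inl hwO)
    · have hwN : cyc w ∈ N := (hON (cyc w)).resolve_left hwO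
      obtain ⟨F', hF', hwF'⟩ := h.cov _ hwN
      exact Or.inr (Or.inr ⟨F', hF', hwF', cntR_lt hF'
        (step F hF _ _ (h1 F hF) w hw hwF hwO F' hF' hwF' _ _ (h1 F' hF'))⟩)

theorem planW_mono {P' : τ → Set (Cyc k) → DG k → Prop} (h : ∀ t F g, P' t F g → P t F g) :
    planW G P' ⊆ planW G P := by
  rintro w ⟨t, F, hF, g, hg, hw⟩
  exact ⟨t, F, hF, g, h t F g hg, hw⟩

theorem planI_mono {P' : τ → Set (Cyc k) → DG k → Prop} {inn : X k × X k → Set (X k)}
    (h : ∀ t F g, P' t F g → P t F g) : planI G P' inn ⊆ planI G P inn := by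
  rintro w ⟨t, F, hF, g, hg, a, ha, hw⟩
  exact ⟨t, F, hF, g, h t F g hg, a, ha, hw⟩

/-- **THE SYSTEM FROM THE GROUPS.** An inner word may lie in the gadget of a group which is larger, or on a
T-cycle of its own group -/
theorem GrpOK.hasSys [Nonempty τ] {L : Type} [Preorder L] (h : GrpOK N G P)
    (hON : ∀ c, c ∈ O ∨ c ∈ N) (hNO : ∀ c ∈ N, c ∉ O) (pri : τ → ℕ)
    (mu : τ → Set (Cyc k) → L) (inn : X k × X k → Set (X k))
    (hF : ∀ t F g, P t F g → ∀ w, w ∈ g.F ↔ cyc w ∈ F)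
    (new : ∀ t F g, P t F g → ∀ c ∈ F, ∃ u ∈ g.B, cyc u = c)
    (old : ∀ t F g, P t F g → ∃ u ∈ g.B, cyc u ∉ F)
    (path : ∀ t F g, P t F g → ∀ a ∈ g.arcs, ∃ n : ℕ, (TT ^ (n + 1)) a.1 = a.2 ∧
      a.1 ∈ g.B ∧ ∀ i < n, (TT ^ (i + 1)) a.1 ∉ g.B ∧ (TT ^ (i + 1)) a.1 ∈ inn a)
    (abs : ∀ t F g, P t F g → g.Abs)
    (dis : ∀ F ∈ G, ∀ F' ∈ G, F ≠ F' → ∀ t g, Fst P pri t F g → ∀ t' g', Fst P pri t' F' g' →
      ∀ w ∈ g.B, w ∉ g'.B)
    (step : ∀ F ∈ G, ∀ t g, Fst P pri t F g → ∀ w ∈ g.B, cyc w ∉ F → cyc w ∉ O →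
      ∀ F' ∈ G, cyc w ∈ F' → ∀ t' g', Fst P pri t' F' g' → mu t' F' < mu t F)
    (inner : ∀ F ∈ G, ∀ F' ∈ G, F ≠ F' → ∀ t g, Fst P pri t F g → ∀ t' g', Fst P pri t' F' g' →
      ∀ a ∈ g.arcs, ∀ w ∈ inn a, cyc w ∉ F → w ∈ g'.B → mu t F < mu t' F') :
    HasSys O N (planW G P) (planI G P inn) := by
  obtain ⟨tt, gg, h1, h2⟩ := h.planR hON pri mu step
  have hP : ∀ t F g, SelP G P tt gg t F g → P t F g := fun t F g h => h.2.2.2
  refine (h2.sys inn (fun t F _ g hg => hF t F g (hP t F g hg))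
    (fun t F _ g hg => new t F g (hP t F g hg)) (fun t F _ g hg => old t F g (hP t F g hg)) ?_
    (fun t F _ g hg => path t F g (hP t F g hg)) ?_
    (fun t F _ g hg => abs t F g (hP t F g hg))).mono (planW_mono hP) (planI_mono hP)
  · rintro t F hFG g ⟨-, rfl, rfl, -⟩ t' F' hFG' g' ⟨-, rfl, rfl, -⟩ hne
    exact dis F hFG F' hFG' hne _ _ (h1 F hFG) _ _ (h1 F' hFG')
  · rintro t F hFG g ⟨-, rfl, rfl, -⟩ a ha w hw t' F' hFG' g' ⟨-, rfl, rfl, -⟩ hne hle hw'
    have h3 : mu (tt F) F < mu (tt F') F' := by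
      by_cases hwF : cyc w ∈ F
      · exact step F' hFG' _ _ (h1 F' hFG') w hw' (fun h4 => hne (h.one F hFG F' hFG' _ hwF h4))
          (hNO _ (h.sub F hFG _ hwF)) F hFG hwF _ _ (h1 F hFG)
      · exact inner F hFG F' hFG' hne _ _ (h1 F hFG) _ _ (h1 F' hFG') a ha w hw hwF hw'
    exact absurd hle (not_le.2 (cntR_lt (m := fun F => mu (tt F) F) hFG h3))

end Pool.OddHC
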