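import Pool.Agent.Work.MP_8f87b2_mid.Ord
import Pool.Agent.Work.MP_8f87b2_mid.Same
import Mathlib.Data.List.Lex

/-!
# Keys of groups

`mc F`: the main content of a group (largest sum of squares). `ky C b e`: the key of a window. `ky_lt`: a lower content with
no more parts `≥ 3` has a smaller key.
-/

set_option autoImplicit false

namespace Pool.OddHC

open Finset Equiv Pool.Agent.Work.MP_8f87b2_co

variable {k : ℕ} {F F' : Set (Cyc k)}

theorem mc_ex (h : F.Nonempty) : ∃ c ∈ F, ∀ d ∈ F, H1.sqs (contc d) ≤ H1.sqs (contc c) := by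
  classical
  obtain ⟨c, hc, h1⟩ := Set.exists_max_image F (fun c => H1.sqs (contc c)) (Set.toFinite F) h
  exact ⟨c, hc, h1⟩

open Classical in
/-- the main content -/
noncomputable def mc (F : Set (Cyc k)) : Multiset ℕ :=
  if h : ∃ c ∈ F, ∀ d ∈ F, H1.sqs (contc d) ≤ H1.sqs (contc c) then contc h.choose else 0

theorem mc_mem (h : F.Nonempty) : ∃ c ∈ F, mc F = contc c ∧
    ∀ d ∈ F, H1.sqs (contc d) ≤ H1.sqs (contc c) := by
  have h1 := mc_ex h
  unfold mc
  rw [dif_pos h1]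
  exact ⟨h1.choose, h1.choose_spec.1, rfl, h1.choose_spec.2⟩

/-- all members have one content -/
theorem mc_eq {M : Multiset ℕ} (hF : F.Nonempty) (h : ∀ c ∈ F, contc c = M) : mc F = M := by
  obtain ⟨c, hc, h1, _⟩ := mc_mem hF
  rw [h1, h c hc]

theorem mc_single (c : Cyc k) : mc ({c} : Set (Cyc k)) = contc c :=
  mc_eq ⟨c, rfl⟩ (by rintro d rfl; rfl)

/-- the member with the largest sum of squares -/
theorem mc_max {z : Cyc k} (hz : z ∈ F)
    (h : ∀ c ∈ F, contc c = contc z ∨ H1.sqs (contc c) < H1.sqs (contc z)) : mc F = contc z := by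
  obtain ⟨c, hc, h1, h2⟩ := mc_mem ⟨z, hz⟩
  rcases h c hc with h3 | h3
  · rw [h1, h3]
  · exact absurd (h2 z hz) (by omega)

/-- the height of a group -/
theorem mc_sup (h : ∀ c ∈ F, ∀ d ∈ F, htc c = htc d) {c : Cyc k} (hc : c ∈ F) : (mc F).sup = htc c := by
  obtain ⟨d, hd, h1, _⟩ := mc_mem ⟨c, hc⟩
  rw [h1]
  exact h d hd c hc

/-- the key of a window -/
noncomputable def ky (C : Multiset ℕ) (b e : ℤ) : List ℤ :=
  [-(C.sup : ℤ), 4, (H1.n3 C : ℤ), b, -(C.count 1 : ℤ), -(H1.sqs C : ℤ), e]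

/-- the key of a group which comes early in its level -/
noncomputable def ke (h : ℕ) (p : ℤ) : List ℤ := [-(h : ℤ), p]

theorem ke_lt_ky {D C : Multiset ℕ} {p b e : ℤ} (h : C.sup ≤ D.sup) (hp : p < 4) :
    ke D.sup p < ky C b e := by
  unfold ke ky
  simp only [List.cons_lt_cons_iff, List.nil_lt_cons]
  rcases h.lt_or_eq with h1 | h1
  · left; omega
  · right
    exact ⟨by omega, Or.inl hp⟩

theorem ke_lt_ke {n m : ℕ} {p p' : ℤ} (h : m < n ∨ (m = n ∧ p < p')) : ke n p < ke m p' := by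
  unfold ke
  simp only [List.cons_lt_cons_iff]
  rcases h with h | ⟨h, h'⟩
  · left; omega
  · right
    exact ⟨by omega, Or.inl h'⟩

theorem ky_lt_ke {C : Multiset ℕ} {m : ℕ} {p b e : ℤ} (h : m < C.sup) : ky C b e < ke m p := by
  unfold ke ky
  simp only [List.cons_lt_cons_iff]
  left; omega

/-- **a lower content has a smaller key** -/
theorem ky_lt {D C : Multiset ℕ} {b b' e e' : ℤ} (h : H1.Lower D C)
    (hn : D.sup = C.sup → H1.n3 D < H1.n3 C ∨ (H1.n3 D = H1.n3 C ∧ b' ≤ b)) : ky D b' e' < ky C b e := by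
  unfold ky
  simp only [List.cons_lt_cons_iff]
  rcases h with h | ⟨h, h2⟩
  · left; omega
  · right
    refine ⟨by omega, Or.inr ⟨trivial, ?_⟩⟩
    rcases hn h with h3 | ⟨h3, h4⟩
    · left; omega
    · right
      refine ⟨by omega, ?_⟩
      rcases h4.lt_or_eq with h4 | h4
      · left; exact h4
      · right
        refine ⟨h4, ?_⟩
        rcases h2 with h2 | ⟨h2, h5⟩
        · left; omega
        · right
          exact ⟨by omega, Or.inl (by omega)⟩

/-- same content -/
theorem ky_lt_e {C : Multiset ℕ} {b e e' : ℤ} (h : e' < e) : ky C b e' < ky C b e := by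
  unfold ky
  simp only [List.cons_lt_cons_iff, true_and, lt_self_iff_false, false_or]
  exact Or.inl h

/-- the key of a late pair of the first kind: content with one part `≥ 3` less than its window -/
noncomputable def kp (C : Multiset ℕ) : List ℤ := [-(C.sup : ℤ), 4, (H1.n3 C : ℤ) + 1, 1]

theorem kp_lt_ky {D C : Multiset ℕ} {b e : ℤ}
    (h : C.sup < D.sup ∨ (D.sup = C.sup ∧ (H1.n3 D + 1 < H1.n3 C ∨ (H1.n3 D + 1 = H1.n3 C ∧ 1 < b)))) :
    kp D < ky C b e := by
  unfold kp ky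
  simp only [List.cons_lt_cons_iff, List.nil_lt_cons]
  rcases h with h | ⟨h, h2⟩
  · left; omega
  · right
    refine ⟨by omega, Or.inr ⟨trivial, ?_⟩⟩
    rcases h2 with h2 | ⟨h2, h3⟩
    · left; omega
    · right
      exact ⟨by omega, Or.inl h3⟩

theorem ky_lt_kp {D C : Multiset ℕ} {b e : ℤ}
    (h : D.sup < C.sup ∨ (D.sup = C.sup ∧ (H1.n3 C < H1.n3 D + 1 ∨ (H1.n3 D + 1 = H1.n3 C ∧ b < 1)))) :
    ky C b e < kp D := by
  unfold kp ky
  simp only [List.cons_lt_cons_iff]
  rcases h with h | ⟨h, h2⟩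
  · left; omega
  · right
    refine ⟨by omega, Or.inr ⟨trivial, ?_⟩⟩
    rcases h2 with h2 | ⟨h2, h3⟩
    · left; omega
    · right
      exact ⟨by omega, Or.inl h3⟩

theorem ky_lt_kp_ht {D C : Multiset ℕ} (h : D.sup < C.sup) : kp C < kp D ∧ (∀ p, ke C.sup p < kp D) ∧
    (∀ p, kp C < ke D.sup p) := by
  unfold kp ke
  simp only [List.cons_lt_cons_iff]
  refine ⟨Or.inl (by omega), fun p => Or.inl (by omega), fun p => Or.inl (by omega)⟩

end Pool.OddHC
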