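import Pool.Agent.Work.MP_8f87b2_mid.OrdK

/-!
# The order: kinds of groups

Every type has a kind. `muK` is the measure of a group, its first entry is minus the height of the group. `KindOK.step` and
`KindOK.inner` are the two conditions of `GrpOK.hasSys`.

Kinds inside a level, from small to large: `pl` plain groups and `ee` early pairs (phase 0); `pj` (phase 1): groups which use
only phase 0 at their height; `hl` (phase 2) with a rank of its own; late pairs of the second kind (phase 3); windows `wn`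
and late pairs of the first kind (phase 4).
-/

set_option autoImplicit false

namespace Pool.OddHC

open Finset Equiv Pool.Agent.Work.MP_8f87b2_co

variable {k : ℕ} {τ : Type} {O N : Set (Cyc k)} {G : Set (Set (Cyc k))}
  {P : τ → Set (Cyc k) → DG k → Prop}

/-- the kinds of the types -/
inductive Kd
  | pl
  | ee
  | pj
  | hl
  | wn (b : Bool)
  deriving DecidableEq

/-- the slot of a window: `c = 3` and no bead comes first -/
def slot : Bool → ℤ
  | true => 0
  | false => 2

open Classical in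
/-- **the measure** -/
noncomputable def muK (LP LJ : Set (Cyc k) → Prop) (r : Set (Cyc k) → ℤ) (kd : τ → Kd) (t : τ)
    (F : Set (Cyc k)) : List ℤ :=
  match kd t with
  | .pl => [-((mc F).sup : ℤ), 0]
  | .ee => if LP F then kp (mc F) else if LJ F then [-((mc F).sup : ℤ), 3] else [-((mc F).sup : ℤ), 0]
  | .pj => [-((mc F).sup : ℤ), 1]
  | .hl => [-((mc F).sup : ℤ), 2, r F]
  | .wn b => ky (mc F) (slot b) 1

variable {LP LJ : Set (Cyc k) → Prop} {r : Set (Cyc k) → ℤ} {kd : τ → Kd}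

theorem muK_hd (t : τ) (F : Set (Cyc k)) : ∃ l, muK LP LJ r kd t F = -((mc F).sup : ℤ) :: l := by
  unfold muK
  split
  · exact ⟨_, rfl⟩
  · split_ifs
    · exact ⟨_, rfl⟩
    · exact ⟨_, rfl⟩
    · exact ⟨_, rfl⟩
  · exact ⟨_, rfl⟩
  · exact ⟨_, rfl⟩
  · exact ⟨_, rfl⟩

/-- higher groups come first -/
theorem muK_ht {t t' : τ} {F F' : Set (Cyc k)} (h : (mc F).sup < (mc F').sup) :
    muK LP LJ r kd t' F' < muK LP LJ r kd t F := by
  obtain ⟨l, h1⟩ := muK_hd (LP := LP) (LJ := LJ) (r := r) (kd := kd) t F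
  obtain ⟨l', h2⟩ := muK_hd (LP := LP) (LJ := LJ) (r := r) (kd := kd) t' F'
  rw [h1, h2, List.cons_lt_cons_iff]
  left; omega

/-- an early group: phase 0 -/
def Early (LP LJ : Set (Cyc k) → Prop) (kd : τ → Kd) (t : τ) (F : Set (Cyc k)) : Prop :=
  kd t = .pl ∨ (kd t = .ee ∧ ¬ LP F ∧ ¬ LJ F)

theorem Early.mu {t : τ} {F : Set (Cyc k)} (h : Early LP LJ kd t F) :
    muK LP LJ r kd t F = [-((mc F).sup : ℤ), 0] := by
  unfold muK
  rcases h with h | ⟨h, h1, h2⟩
  · rw [h]
  · rw [h]
    simp only [if_neg h1, if_neg h2]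

/-- **THE DATA OF THE ORDER** -/
structure KindOK (O : Set (Cyc k)) (G : Set (Set (Cyc k))) (P : τ → Set (Cyc k) → DG k → Prop) (pri : τ → ℕ)
    (LP LJ : Set (Cyc k) → Prop) (r : Set (Cyc k) → ℤ) (kd : τ → Kd) : Prop where
  /-- the height of a group is the height of its highest member -/
  top : ∀ F ∈ G, ∀ t g, Fst P pri t F g → ∀ c ∈ F, htc c ≤ (mc F).sup
  /-- a group which is not plain has one height -/
  ht : ∀ F ∈ G, ∀ t g, Fst P pri t F g → kd t ≠ .pl → ∀ c ∈ F, htc c = (mc F).sup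
  /-- plain groups and pairs: all old words are higher -/
  pl : ∀ F ∈ G, ∀ t g, Fst P pri t F g → (kd t = .pl ∨ kd t = .ee) → ∀ w ∈ g.B,
    cyc w ∈ F ∨ cyc w ∈ O ∨ (mc F).sup < htc (cyc w)
  /-- the other groups: no old word is lower -/
  le : ∀ F ∈ G, ∀ t g, Fst P pri t F g → ∀ w ∈ g.B, cyc w ∈ F ∨ cyc w ∈ O ∨ (mc F).sup ≤ htc (cyc w)
  /-- phase 1 -/
  pj : ∀ F ∈ G, ∀ t g, Fst P pri t F g → kd t = .pj → ∀ w ∈ g.B, cyc w ∉ F → cyc w ∉ O →
    htc (cyc w) = (mc F).sup → ∀ F' ∈ G, cyc w ∈ F' → ∀ t' g', Fst P pri t' F' g' →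
      (mc F').sup = (mc F).sup → Early LP LJ kd t' F'
  /-- phase 2 -/
  hl : ∀ F ∈ G, ∀ t g, Fst P pri t F g → kd t = .hl → ∀ w ∈ g.B, cyc w ∉ F → cyc w ∉ O →
    htc (cyc w) = (mc F).sup → ∀ F' ∈ G, cyc w ∈ F' → ∀ t' g', Fst P pri t' F' g' →
      (mc F').sup = (mc F).sup → Early LP LJ kd t' F' ∨ kd t' = .pj ∨ (kd t' = .hl ∧ r F' < r F)
  /-- windows: one content, old words are lower, not more parts `≥ 3` -/
  one : ∀ F ∈ G, ∀ t g, Fst P pri t F g → ∀ b, kd t = .wn b → ∀ c ∈ F, contc c = mc F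
  win : ∀ F ∈ G, ∀ t g, Fst P pri t F g → ∀ b, kd t = .wn b → ∀ w ∈ g.B, cyc w ∉ F → cyc w ∉ O →
    H1.Lower (contc (cyc w)) (mc F) ∧ (htc (cyc w) = (mc F).sup →
      H1.n3 (contc (cyc w)) < H1.n3 (mc F) ∨ (b = false ∧ H1.n3 (contc (cyc w)) = H1.n3 (mc F)))
  /-- late pairs of the first kind have one content -/
  lp1 : ∀ F ∈ G, ∀ t g, Fst P pri t F g → kd t = .ee → LP F → ∀ c ∈ F, contc c = mc F
  /-- late pairs of the first kind under a window -/
  lp : ∀ F ∈ G, ∀ t g, Fst P pri t F g → ∀ b, kd t = .wn b → ∀ w ∈ g.B, cyc w ∉ F → cyc w ∉ O →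
    htc (cyc w) = (mc F).sup → ∀ F' ∈ G, cyc w ∈ F' → ∀ t' g', Fst P pri t' F' g' → kd t' = .ee → LP F' →
      b = false ∧ H1.n3 (contc (cyc w)) + 1 ≤ H1.n3 (mc F)

theorem KindOK.step {pri : τ → ℕ} (h : KindOK O G P pri LP LJ r kd) :
    ∀ F ∈ G, ∀ t g, Fst P pri t F g → ∀ w ∈ g.B, cyc w ∉ F → cyc w ∉ O →
      ∀ F' ∈ G, cyc w ∈ F' → ∀ t' g', Fst P pri t' F' g' → muK LP LJ r kd t' F' < muK LP LJ r kd t F := by
  intro F hF t g hg w hw hwF hwO F' hF' hwF' t' g' hg'
  have htop := h.top F' hF' t' g' hg' _ hwF'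
  have hle : (mc F).sup ≤ htc (cyc w) := by
    rcases h.le F hF t g hg w hw with h1 | h1 | h1
    · exact absurd h1 hwF
    · exact absurd h1 hwO
    · exact h1
  rcases (hle.trans htop).lt_or_eq with hlt | heq
  · exact muK_ht hlt
  · have hwh : htc (cyc w) = (mc F).sup := by omega
    have hnpl : kd t ≠ .pl ∧ kd t ≠ .ee := by
      constructor
      · intro h1
        rcases h.pl F hF t g hg (Or.inl h1) w hw with h2 | h2 | h2
        · exact hwF h2
        · exact hwO h2
        · omega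
      · intro h1
        rcases h.pl F hF t g hg (Or.inr h1) w hw with h2 | h2 | h2
        · exact hwF h2
        · exact hwO h2
        · omega
    have hE : Early LP LJ kd t' F' → muK LP LJ r kd t' F' < muK LP LJ r kd t F := by
      intro h1
      rw [h1.mu, ← heq]
      unfold muK
      rcases e : kd t with _ | _ | _ | _ | b
      · exact absurd e hnpl.1
      · exact absurd e hnpl.2
      · simp only [List.cons_lt_cons_iff]; right; exact ⟨trivial, Or.inl (by norm_num)⟩
      · simp only [List.cons_lt_cons_iff]; right; exact ⟨trivial, Or.inl (by norm_num)⟩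
      · simp only [ky, List.cons_lt_cons_iff]; right; exact ⟨trivial, Or.inl (by norm_num)⟩
    rcases e : kd t with _ | _ | _ | _ | b
    · exact absurd e hnpl.1
    · exact absurd e hnpl.2
    · exact hE (h.pj F hF t g hg e w hw hwF hwO hwh F' hF' hwF' t' g' hg' heq.symm)
    · rcases h.hl F hF t g hg e w hw hwF hwO hwh F' hF' hwF' t' g' hg' heq.symm with h1 | h1 | ⟨h1, h2⟩
      · exact hE h1
      · unfold muK
        rw [e, h1, ← heq]
        simp only [List.cons_lt_cons_iff]
        right; exact ⟨trivial, Or.inl (by norm_num)⟩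
      · unfold muK
        rw [e, h1, ← heq]
        simp only [List.cons_lt_cons_iff]
        right; exact ⟨trivial, Or.inr ⟨trivial, Or.inl h2⟩⟩
    · obtain ⟨h1, h2⟩ := h.win F hF t g hg b e w hw hwF hwO
      have h3 := h2 hwh
      by_cases hEa : Early LP LJ kd t' F'
      · exact hE hEa
      · rcases e' : kd t' with _ | _ | _ | _ | b'
        · exact absurd (Or.inl e') hEa
        · by_cases hLP : LP F'
          · obtain ⟨h4, h5⟩ := h.lp F hF t g hg b e w hw hwF hwO hwh F' hF' hwF' t' g' hg' e' hLP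
            have h6 := h.lp1 F' hF' t' g' hg' e' hLP _ hwF'
            rw [h6] at h5
            unfold muK
            rw [e, e']
            simp only [if_pos hLP]
            subst h4
            refine kp_lt_ky (Or.inr ⟨heq.symm, ?_⟩)
            rcases h5.lt_or_eq with h5 | h5
            · exact Or.inl h5
            · exact Or.inr ⟨h5, by unfold slot; norm_num⟩
          · have hLJ : LJ F' := by
              by_contra hLJ
              exact hEa (Or.inr ⟨e', hLP, hLJ⟩)
            unfold muK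
            rw [e, e', ← heq]
            simp only [if_neg hLP, if_pos hLJ, ky, List.cons_lt_cons_iff]
            right; exact ⟨trivial, Or.inl (by norm_num)⟩
        · unfold muK
          rw [e, e', ← heq]
          simp only [ky, List.cons_lt_cons_iff]
          right; exact ⟨trivial, Or.inl (by norm_num)⟩
        · unfold muK
          rw [e, e', ← heq]
          simp only [ky, List.cons_lt_cons_iff]
          right; exact ⟨trivial, Or.inl (by norm_num)⟩
        · have h6 := h.one F' hF' t' g' hg' b' e' _ hwF'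
          rw [h6] at h1 h3
          unfold muK
          rw [e, e']
          refine ky_lt h1 fun _ => ?_
          rcases h3 with h3 | ⟨h3, h4⟩
          · exact Or.inl h3
          · refine Or.inr ⟨h4, ?_⟩
            subst h3
            cases b' <;> simp [slot]

/-! ### Comparison for the inner words -/

/-- a late pair of the first kind comes after a window -/
theorem mu_lp {t t' : τ} {F F' : Set (Cyc k)} {b : Bool} (h : kd t = .wn b) (h' : kd t' = .ee) (hL : LP F')
    (hs : (mc F').sup = (mc F).sup)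
    (hn : H1.n3 (mc F) < H1.n3 (mc F') + 1 ∨ (H1.n3 (mc F') + 1 = H1.n3 (mc F) ∧ b = true)) :
    muK LP LJ r kd t F < muK LP LJ r kd t' F' := by
  unfold muK
  rw [h, h']
  simp only [if_pos hL]
  refine ky_lt_kp (Or.inr ⟨hs, ?_⟩)
  rcases hn with hn | ⟨hn, h1⟩
  · exact Or.inl hn
  · subst h1
    exact Or.inr ⟨hn, by unfold slot; norm_num⟩

/-- a late pair of the first kind comes after all groups which are no windows -/
theorem mu_lp_early {t t' : τ} {F F' : Set (Cyc k)} (h : ∀ b, kd t ≠ .wn b) (h1 : kd t = .ee → ¬ LP F)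
    (h' : kd t' = .ee) (hL : LP F') (hs : (mc F').sup = (mc F).sup) :
    muK LP LJ r kd t F < muK LP LJ r kd t' F' := by
  unfold muK
  rw [h']
  simp only [if_pos hL, kp, ← hs]
  rcases e : kd t with _ | _ | _ | _ | b
  · simp only [List.cons_lt_cons_iff]; right; exact ⟨trivial, Or.inl (by norm_num)⟩
  · simp only [if_neg (h1 e)]
    split_ifs <;> (simp only [List.cons_lt_cons_iff]; right; exact ⟨trivial, Or.inl (by norm_num)⟩)
  · simp only [List.cons_lt_cons_iff]; right; exact ⟨trivial, Or.inl (by norm_num)⟩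
  · simp only [List.cons_lt_cons_iff]; right; exact ⟨trivial, Or.inl (by norm_num)⟩
  · exact absurd e (h b)

/-- a late pair of the second kind comes after the phases 0, 1, 2 -/
theorem mu_lj {t t' : τ} {F F' : Set (Cyc k)} (h : ∀ b, kd t ≠ .wn b) (h1 : kd t = .ee → ¬ LP F ∧ ¬ LJ F)
    (h' : kd t' = .ee) (hP : ¬ LP F') (hL : LJ F') (hs : (mc F').sup = (mc F).sup) :
    muK LP LJ r kd t F < muK LP LJ r kd t' F' := by
  unfold muK
  rw [h']
  simp only [if_neg hP, if_pos hL, ← hs]
  rcases e : kd t with _ | _ | _ | _ | b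
  · simp only [List.cons_lt_cons_iff]; right; exact ⟨trivial, Or.inl (by norm_num)⟩
  · simp only [if_neg (h1 e).1, if_neg (h1 e).2]
    simp only [List.cons_lt_cons_iff]; right; exact ⟨trivial, Or.inl (by norm_num)⟩
  · simp only [List.cons_lt_cons_iff]; right; exact ⟨trivial, Or.inl (by norm_num)⟩
  · simp only [List.cons_lt_cons_iff]; right; exact ⟨trivial, Or.inl (by norm_num)⟩
  · exact absurd e (h b)

/-- **THE SYSTEM FROM GROUPS WITH KINDS** -/
theorem KindOK.hasSys [Nonempty τ] {pri : τ → ℕ} (h : KindOK O G P pri LP LJ r kd) (hG : GrpOK N G P)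
    (hON : ∀ c, c ∈ O ∨ c ∈ N) (hNO : ∀ c ∈ N, c ∉ O) (inn : X k × X k → Set (X k))
    (hF : ∀ t F g, P t F g → ∀ w, w ∈ g.F ↔ cyc w ∈ F)
    (new : ∀ t F g, P t F g → ∀ c ∈ F, ∃ u ∈ g.B, cyc u = c)
    (old : ∀ t F g, P t F g → ∃ u ∈ g.B, cyc u ∉ F)
    (path : ∀ t F g, P t F g → ∀ a ∈ g.arcs, ∃ n : ℕ, (TT ^ (n + 1)) a.1 = a.2 ∧
      a.1 ∈ g.B ∧ ∀ i < n, (TT ^ (i + 1)) a.1 ∉ g.B ∧ (TT ^ (i + 1)) a.1 ∈ inn a)
    (abs : ∀ t F g, P t F g → g.Abs)
    (dis : ∀ F ∈ G, ∀ F' ∈ G, F ≠ F' → ∀ t g, Fst P pri t F g → ∀ t' g', Fst P pri t' F' g' →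
      ∀ w ∈ g.B, w ∉ g'.B)
    (inner : ∀ F ∈ G, ∀ F' ∈ G, F ≠ F' → ∀ t g, Fst P pri t F g → ∀ t' g', Fst P pri t' F' g' →
      (mc F).sup ≤ (mc F').sup → ∀ a ∈ g.arcs, ∀ w ∈ inn a, cyc w ∉ F → w ∈ g'.B →
        muK LP LJ r kd t F < muK LP LJ r kd t' F') :
    HasSys O N (planW G P) (planI G P inn) := by
  refine hG.hasSys hON hNO pri (muK LP LJ r kd) inn hF new old path abs dis h.step ?_
  intro F hF' F' hF'' hne t g hg t' g' hg' a ha w hw hwF hw'
  rcases lt_or_ge (mc F').sup (mc F).sup with h1 | h1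
  · exact muK_ht h1
  · exact inner F hF' F' hF'' hne t g hg t' g' hg' h1 a ha w hw hwF hw'

end Pool.OddHC
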