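import Pool.Agent.Work.MP_8f87b2_mid.OrdT

/-!
# The key by the parts `≥ 3`

`s1 C`, `s2 C`: the sum and the sum of squares of the parts `≥ 3`. `XL b0 D C`: the content `D` is older than `C` in this
key. `x_W`: all old words of the same height of a window (`H1.Dat`) are older. `vx C b e`: the list of a window with content
`C`, slot `b` and last entry `e`.
-/

set_option autoImplicit false

namespace Pool.OddHC

open BinaryTree Multiset Equiv

variable {k : ℕ}

namespace H1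

/-- the sum of the parts `≥ 3` -/
def s1 (C : Multiset ℕ) : ℕ := (C.filter (fun x => 3 ≤ x)).sum

/-- the sum of squares of the parts `≥ 3` -/
def s2 (C : Multiset ℕ) : ℕ := ((C.filter (fun x => 3 ≤ x)).map (fun x => x ^ 2)).sum

theorem s1_add (M N : Multiset ℕ) : s1 (M + N) = s1 M + s1 N := by
  unfold s1; rw [Multiset.filter_add, Multiset.sum_add]

theorem s2_add (M N : Multiset ℕ) : s2 (M + N) = s2 M + s2 N := by
  unfold s2; rw [Multiset.filter_add, Multiset.map_add, Multiset.sum_add]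

theorem s1_single (x : ℕ) : s1 {x} = if 3 ≤ x then x else 0 := by
  unfold s1
  by_cases h : 3 ≤ x
  · rw [if_pos h, Multiset.filter_singleton, if_pos h, Multiset.sum_singleton]
  · rw [if_neg h, Multiset.filter_singleton, if_neg h]; rfl

theorem s2_single (x : ℕ) : s2 {x} = if 3 ≤ x then x ^ 2 else 0 := by
  unfold s2
  by_cases h : 3 ≤ x
  · rw [if_pos h, Multiset.filter_singleton, if_pos h, Multiset.map_singleton, Multiset.sum_singleton]
  · rw [if_neg h, Multiset.filter_singleton, if_neg h]; rfl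

/-- raising a largest part `≥ 3` -/
theorem s_raise {M : Multiset ℕ} (h : 3 ≤ M.sup) :
    s1 (raise M) = s1 M + 1 ∧ s2 (raise M) = s2 M + (2 * M.sup + 1) := by
  have h0 : M ≠ 0 := by
    rintro rfl
    have : (0 : Multiset ℕ).sup = 0 := rfl
    omega
  have hm := Multiset.cons_erase (sup_mem h0)
  have e1 : M = {M.sup} + M.erase M.sup := by
    rw [Multiset.singleton_add, hm]
  have e2 : raise M = {M.sup + 1} + M.erase M.sup := by
    unfold raise; rw [Multiset.singleton_add]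
  have a1 : s1 M = M.sup + s1 (M.erase M.sup) := by
    conv_lhs => rw [e1]
    rw [s1_add, s1_single, if_pos h]
  have a2 : s2 M = M.sup ^ 2 + s2 (M.erase M.sup) := by
    conv_lhs => rw [e1]
    rw [s2_add, s2_single, if_pos h]
  have b1 : s1 (raise M) = (M.sup + 1) + s1 (M.erase M.sup) := by
    rw [e2, s1_add, s1_single, if_pos (by omega)]
  have b2 : s2 (raise M) = (M.sup + 1) ^ 2 + s2 (M.erase M.sup) := by
    rw [e2, s2_add, s2_single, if_pos (by omega)]
  constructor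
  · omega
  · rw [a2, b2]; ring

/-- `D` is older than `C`; `b0 = true`: with fewer parts `≥ 3` -/
def XL (b0 : Bool) (D C : Multiset ℕ) : Prop :=
  n3 D < n3 C ∨ (b0 = false ∧ n3 D = n3 C ∧ (s1 D < s1 C ∨ (s1 D = s1 C ∧ s2 C < s2 D)))

variable {q : ℕ} {R B S : BinaryTree Unit}

/-- **all old words of the same height of a window are older** -/
theorem x_W (h : Dat q R B S) : ∀ i < 20, i ≠ 0 → i ≠ 10 →
    ht (W R (ch (q + 1)) B S i) = ht R →
    XL (decide (q = 0)) (cont (W R (ch (q + 1)) B S i)) (cont R + {q + 3}) := by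
  intro i hi h0 h10 hh
  have hC : n3 (cont R + {q + 3}) = n3 (cont R) + 1 := by
    rw [n3_add, n3_single, if_pos (by omega)]
  have hC1 : s1 (cont R + {q + 3}) = s1 (cont R) + (q + 3) := by
    rw [s1_add, s1_single, if_pos (by omega)]
  have hC2 : s2 (cont R + {q + 3}) = s2 (cont R) + (q + 3) ^ 2 := by
    rw [s2_add, s2_single, if_pos (by omega)]
  have hc : OddHC.cont B + OddHC.cont S = OddHC.cont R := h.cont
  have hn : n3 (OddHC.cont B) + n3 (OddHC.cont S) = n3 (OddHC.cont R) := by rw [← n3_add, hc]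
  have hs1 : s1 (OddHC.cont B) + s1 (OddHC.cont S) = s1 (OddHC.cont R) := by rw [← s1_add, hc]
  have hs2 : s2 (OddHC.cont B) + s2 (OddHC.cont S) = s2 (OddHC.cont R) := by rw [← s2_add, hc]
  have a1 : n3 ({1} : Multiset ℕ) = 0 ∧ s1 ({1} : Multiset ℕ) = 0 ∧ s2 ({1} : Multiset ℕ) = 0 := by
    rw [n3_single, s1_single, s2_single]; exact ⟨rfl, rfl, rfl⟩
  have key1 : (q + 1 < 3 ∧ n3 ({q + 1} : Multiset ℕ) = 0) ∨ (3 ≤ q + 1 ∧ n3 ({q + 1} : Multiset ℕ) = 1 ∧
      s1 ({q + 1} : Multiset ℕ) = q + 1 ∧ s2 ({q + 1} : Multiset ℕ) = (q + 1) ^ 2) := by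
    rcases lt_or_ge (q + 1) 3 with h1 | h1
    · left; refine ⟨h1, ?_⟩; rw [n3_single, if_neg (by omega)]
    · right; refine ⟨h1, ?_, ?_, ?_⟩
      · rw [n3_single, if_pos h1]
      · rw [s1_single, if_pos h1]
      · rw [s2_single, if_pos h1]
  have key2 : (q + 2 < 3 ∧ n3 ({q + 2} : Multiset ℕ) = 0) ∨ (3 ≤ q + 2 ∧ n3 ({q + 2} : Multiset ℕ) = 1 ∧
      s1 ({q + 2} : Multiset ℕ) = q + 2 ∧ s2 ({q + 2} : Multiset ℕ) = (q + 2) ^ 2) := by
    rcases lt_or_ge (q + 2) 3 with h1 | h1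
    · left; refine ⟨h1, ?_⟩; rw [n3_single, if_neg (by omega)]
    · right; refine ⟨h1, ?_, ?_, ?_⟩
      · rw [n3_single, if_pos h1]
      · rw [s1_single, if_pos h1]
      · rw [s2_single, if_pos h1]
  have hq : q = 0 → n3 ({q + 1} : Multiset ℕ) = 0 ∧ n3 ({q + 2} : Multiset ℕ) = 0 := by
    rintro rfl
    rw [n3_single, n3_single]; exact ⟨rfl, rfl⟩
  have fin : ∀ D : Multiset ℕ, (n3 D < n3 (cont R + {q + 3}) ∨ (q ≠ 0 ∧ n3 D = n3 (cont R + {q + 3}) ∧
      (s1 D < s1 (cont R + {q + 3}) ∨ (s1 D = s1 (cont R + {q + 3}) ∧ s2 (cont R + {q + 3}) < s2 D)))) →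
      XL (decide (q = 0)) D (cont R + {q + 3}) := by
    intro D hD
    rcases hD with hD | ⟨h1, h2, h3⟩
    · exact Or.inl hD
    · exact Or.inr ⟨by simpa using h1, h2, h3⟩
  have rB : B ≠ .nil → n3 (raise (OddHC.cont B)) = n3 (OddHC.cont B) ∧
      s1 (raise (OddHC.cont B)) = s1 (OddHC.cont B) + 1 ∧
      s2 (OddHC.cont B) + (2 * (q + 3) + 1) ≤ s2 (raise (OddHC.cont B)) := by
    intro hBn
    have hB0 : OddHC.cont B ≠ 0 := fun h => hBn (cont_eq_zero.1 h)
    have h1 := h.bare _ (sup_mem hB0)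
    have h2 := s_raise (M := OddHC.cont B) (by omega)
    refine ⟨n3_raise hB0 (by omega), h2.1, ?_⟩
    rw [h2.2]; omega
  apply fin
  rcases cont_same h i hi h0 h10 hh with ⟨_, e⟩ | ⟨_, e⟩ | ⟨_, hBn, e⟩ | ⟨_, hBn, e⟩
  · rw [hC, hC1, hC2, e]
    simp only [n3_add, s1_add, s2_add, a1.1, a1.2.1, a1.2.2]
    rcases key1 with ⟨h1, h2⟩ | ⟨h1, h2, h3, h4⟩
    · left; omega
    · right; exact ⟨by omega, by omega, Or.inl (by omega)⟩
  · rw [hC, hC1, hC2, e]
    simp only [n3_add, s1_add, s2_add, a1.1, a1.2.1, a1.2.2]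
    rcases key2 with ⟨h1, h2⟩ | ⟨h1, h2, h3, h4⟩
    · left; omega
    · right; exact ⟨by omega, by omega, Or.inl (by omega)⟩
  · obtain ⟨r1, r2, r3⟩ := rB hBn
    rw [hC, hC1, hC2, e]
    simp only [n3_add, s1_add, s2_add, a1.1, a1.2.1, a1.2.2, r1, r2]
    rcases key1 with ⟨h1, h2⟩ | ⟨h1, h2, h3, h4⟩
    · left; omega
    · right; exact ⟨by omega, by omega, Or.inl (by omega)⟩
  · obtain ⟨r1, r2, r3⟩ := rB hBn
    rw [hC, hC1, hC2, e]
    simp only [n3_add, s1_add, s2_add, r1, r2]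
    rcases key2 with ⟨h1, h2⟩ | ⟨h1, h2, h3, h4⟩
    · left; omega
    · right
      refine ⟨by omega, by omega, Or.inr ⟨by omega, ?_⟩⟩
      rw [h4]
      nlinarith [r3, hs2]

end H1

/-! ### The lists -/

/-- the list of a window: content `C`, slot `b`, last entry `e` -/
noncomputable def vx (C : Multiset ℕ) (b e : ℤ) : List ℤ :=
  [(H1.n3 C : ℤ), b, (H1.s1 C : ℤ), -(H1.s2 C : ℤ), e]

theorem vx_lt {D C : Multiset ℕ} {b0 b1 : Bool} {e e' : ℤ} (h : H1.XL b0 D C) :
    vx D (slot b1) e' < vx C (slot b0) e := by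
  unfold vx
  simp only [List.cons_lt_cons_iff]
  rcases h with h | ⟨rfl, h2, h3⟩
  · left; omega
  · right
    refine ⟨by omega, ?_⟩
    cases b1
    · right
      refine ⟨rfl, ?_⟩
      rcases h3 with h3 | ⟨h3, h4⟩
      · left; omega
      · right; exact ⟨by omega, Or.inl (by omega)⟩
    · left; simp [slot]

/-- same parts `≥ 3` -/
theorem vx_lt_e {D C : Multiset ℕ} {b e e' : ℤ} (h1 : H1.n3 D = H1.n3 C) (h2 : H1.s1 D = H1.s1 C)
    (h3 : H1.s2 D = H1.s2 C) (h : e' < e) : vx D b e' < vx C b e := by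
  unfold vx
  rw [h1, h2, h3]
  simp only [List.cons_lt_cons_iff, true_and, lt_self_iff_false, false_or]
  exact Or.inl h

theorem vx_lt_n {D C : Multiset ℕ} {b b' e e' : ℤ} (h : H1.n3 D < H1.n3 C) : vx D b' e' < vx C b e := by
  unfold vx
  simp only [List.cons_lt_cons_iff]
  left; omega

/-- the list of a late pair -/
noncomputable def vl (C : Multiset ℕ) : List ℤ := [(H1.n3 C : ℤ) + 1, 1]

theorem vl_lt {D C : Multiset ℕ} {b e : ℤ}
    (h : H1.n3 D + 1 < H1.n3 C ∨ (H1.n3 D + 1 = H1.n3 C ∧ 1 < b)) : vl D < vx C b e := by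
  unfold vl vx
  simp only [List.cons_lt_cons_iff]
  rcases h with h2 | ⟨h2, h3⟩
  · left; omega
  · right
    exact ⟨by omega, Or.inl h3⟩

theorem lt_vl {D C : Multiset ℕ} {b e : ℤ}
    (h : H1.n3 C < H1.n3 D + 1 ∨ (H1.n3 D + 1 = H1.n3 C ∧ b < 1)) : vx C b e < vl D := by
  unfold vl vx
  simp only [List.cons_lt_cons_iff]
  rcases h with h2 | ⟨h2, h3⟩
  · left; omega
  · right
    exact ⟨by omega, Or.inl h3⟩

end Pool.OddHC
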