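import Pool.Agent.Work.MP_8f87b2_end.Sys

/-!
# Plans

The new T-cycles `N` are cut into groups (the sets of `G`); `P t F g` : the gadget `g` is a gadget of type `t` for the group
`F`. `sys_plan`: a system from a plan; everything is asked type by type.
-/

set_option autoImplicit false

namespace Pool.OddHC

open Finset Equiv Pool.Agent.Work.MP_8f87b2_co

variable {k : ℕ}

/-- the words of all gadgets of all groups -/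
def planW {τ : Type} (G : Set (Set (Cyc k))) (P : τ → Set (Cyc k) → DG k → Prop) : Set (X k) :=
  {w | ∃ t, ∃ F ∈ G, ∃ g, P t F g ∧ w ∈ g.B}

/-- the inner words of all arcs of all gadgets of all groups -/
def planI {τ : Type} (G : Set (Set (Cyc k))) (P : τ → Set (Cyc k) → DG k → Prop)
    (inn : X k × X k → Set (X k)) : Set (X k) :=
  {w | ∃ t, ∃ F ∈ G, ∃ g, P t F g ∧ ∃ a ∈ g.arcs, w ∈ inn a}

/-- **A SYSTEM FROM A PLAN.** -/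
theorem sys_plan {τ : Type} (O N : Set (Cyc k)) (G : Set (Set (Cyc k)))
    (P : τ → Set (Cyc k) → DG k → Prop) (inn : X k × X k → Set (X k)) (rk : Cyc k → ℕ)
    (hne : ∀ F ∈ G, F.Nonempty) (hsub : ∀ F ∈ G, ∀ c ∈ F, c ∈ N)
    (hcov : ∀ c ∈ N, ∃ F ∈ G, c ∈ F)
    (hone : ∀ F ∈ G, ∀ F' ∈ G, ∀ c, c ∈ F → c ∈ F' → F = F')
    (hrk : ∀ F ∈ G, ∀ c ∈ F, ∀ d ∈ F, rk c = rk d)
    (ex : ∀ F ∈ G, ∃ t g, P t F g)
    (hF : ∀ t, ∀ F ∈ G, ∀ g, P t F g → ∀ w, w ∈ g.F ↔ cyc w ∈ F)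
    (new : ∀ t, ∀ F ∈ G, ∀ g, P t F g → ∀ c ∈ F, ∃ u ∈ g.B, cyc u = c)
    (old : ∀ t, ∀ F ∈ G, ∀ g, P t F g → ∃ u ∈ g.B, cyc u ∉ F)
    (rank : ∀ t, ∀ F ∈ G, ∀ g, P t F g → ∀ w ∈ g.B, cyc w ∈ F ∨ cyc w ∈ O ∨
      (cyc w ∈ N ∧ ∀ c ∈ F, rk (cyc w) < rk c))
    (dis : ∀ t, ∀ F ∈ G, ∀ g, P t F g → ∀ t', ∀ F' ∈ G, ∀ g', P t' F' g' → F ≠ F' →
      ∀ w ∈ g.B, w ∉ g'.B)
    (path : ∀ t, ∀ F ∈ G, ∀ g, P t F g → ∀ a ∈ g.arcs, ∃ n : ℕ, (TT ^ (n + 1)) a.1 = a.2 ∧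
      a.1 ∈ g.B ∧ ∀ i < n, (TT ^ (i + 1)) a.1 ∉ g.B ∧ (TT ^ (i + 1)) a.1 ∈ inn a)
    (inner : ∀ t, ∀ F ∈ G, ∀ g, P t F g → ∀ a ∈ g.arcs, ∀ w ∈ inn a, ∀ t', ∀ F' ∈ G, ∀ g',
      P t' F' g' → F ≠ F' → (∀ c ∈ F, ∀ d ∈ F', rk d ≤ rk c) → w ∉ g'.B)
    (abs : ∀ t, ∀ F ∈ G, ∀ g, P t F g → g.Abs) :
    HasSys O N (planW G P) (planI G P inn) := by
  classical
  have hfin : Finite (Set (Cyc k)) := inferInstance
  have ex' : ∀ F : Set (Cyc k), ∃ x : Option τ × DG k, F ∈ G → ∃ t, x.1 = some t ∧ P t F x.2 := by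
    intro F
    by_cases hFG : F ∈ G
    · obtain ⟨t, g, h⟩ := ex F hFG
      exact ⟨(some t, g), fun _ => ⟨t, rfl, h⟩⟩
    · exact ⟨(none, ⟨∅, ∅, ∅⟩), fun h => absurd h hFG⟩
  choose x hx using ex'
  let g : Set (Cyc k) → DG k := fun F => (x F).2
  have ht : ∀ F ∈ G, ∃ t, P t F (g F) := by
    intro F hFG
    obtain ⟨t, _, h⟩ := hx F hFG
    exact ⟨t, h⟩
  let Γ : Type := {F : Set (Cyc k) // F ∈ G}
  have hr0 : ∀ F ∈ G, ∃ r : ℕ, ∀ c ∈ F, rk c = r := by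
    intro F hFG
    obtain ⟨c, hc⟩ := hne F hFG
    exact ⟨rk c, fun d hd => hrk F hFG d hd c hc⟩
  choose! r hr using hr0
  refine ⟨Γ, inferInstance, fun F => g F.1, fun F => F.1, fun F => r F.1, ?_⟩
  constructor
  · intro F w
    obtain ⟨_, hg⟩ := ht F.1 F.2
    exact hF _ F.1 F.2 _ hg w
  · intro F c hc
    exact hsub F.1 F.2 c hc
  · intro c hc
    obtain ⟨F, hFG, hcF⟩ := hcov c hc
    exact ⟨⟨F, hFG⟩, hcF⟩
  · intro F F' hne' c hc hc'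
    exact hne' (Subtype.ext (hone F.1 F.2 F'.1 F'.2 c hc hc'))
  · intro F F' hne' w hw
    obtain ⟨_, hg⟩ := ht F.1 F.2
    obtain ⟨_, hg'⟩ := ht F'.1 F'.2
    exact dis _ F.1 F.2 _ hg _ F'.1 F'.2 _ hg' (fun h => hne' (Subtype.ext h)) w hw
  · intro F c hc
    obtain ⟨_, hg⟩ := ht F.1 F.2
    exact new _ F.1 F.2 _ hg c hc
  · intro F
    obtain ⟨_, hg⟩ := ht F.1 F.2
    exact old _ F.1 F.2 _ hg
  · intro F w hw
    obtain ⟨_, hg⟩ := ht F.1 F.2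
    rcases rank _ F.1 F.2 _ hg w hw with h | h | ⟨h, h'⟩
    · exact Or.inl h
    · exact Or.inr (Or.inl h)
    · obtain ⟨F', hF', hc⟩ := hcov _ h
      refine Or.inr (Or.inr ⟨⟨F', hF'⟩, ?_, hc⟩)
      obtain ⟨c, hcF⟩ := hne F.1 F.2
      have h1 := h' c hcF
      rw [hr F' hF' _ hc, hr F.1 F.2 c hcF] at h1
      exact h1
  · intro F w hw
    obtain ⟨_, hg⟩ := ht F.1 F.2
    exact ⟨_, F.1, F.2, _, hg, hw⟩
  · intro F a ha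
    obtain ⟨_, hg⟩ := ht F.1 F.2
    obtain ⟨n, h1, h2, h3⟩ := path _ F.1 F.2 _ hg a ha
    refine ⟨n, h1, h2, fun i hi => ⟨(h3 i hi).1, ⟨_, F.1, F.2, _, hg, a, ha, (h3 i hi).2⟩,
      ?_⟩⟩
    intro F' hne' hle
    obtain ⟨_, hg'⟩ := ht F'.1 F'.2
    refine inner _ F.1 F.2 _ hg a ha _ (h3 i hi).2 _ F'.1 F'.2 _ hg'
      (fun h => hne' (Subtype.ext h.symm)) ?_
    intro c hc d hd
    rw [hr F.1 F.2 c hc, hr F'.1 F'.2 d hd]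
    exact hle
  · intro F
    obtain ⟨_, hg⟩ := ht F.1 F.2
    exact abs _ F.1 F.2 _ hg

end Pool.OddHC
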